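import Mathlib

open Polynomial Finset

namespace Pool.Agent.H777_DPV

/-- A linear functional that vanishes on the multiples of a monic polynomial and on the products
of `G` with the first powers of `X` vanishes on all multiples of `G`. -/
lemma vanish {R : Type*} [CommRing R] [Nontrivial R] (φ : R[X] →ₗ[R] R) (Q : R[X]) (hQ : Q.Monic)
    (hφ : ∀ P, φ (Q * P) = 0) (G : R[X]) (k : ℕ) (hk : Q.natDegree ≤ k)
    (h : ∀ j < k, φ (G * X ^ j) = 0) (P : R[X]) : φ (G * P) = 0 := by
  have h1 : P = P %ₘ Q + Q * (P /ₘ Q) := (modByMonic_add_div P Q).symm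
  have h2 : φ (G * P) = φ (G * (P %ₘ Q)) := by
    conv_lhs => rw [h1]
    rw [mul_add, map_add]
    have : G * (Q * (P /ₘ Q)) = Q * (G * (P /ₘ Q)) := by ring
    rw [this, hφ, add_zero]
  rw [h2]
  by_cases hk0 : k = 0
  · have hQ1 : Q = 1 := by
      have : Q.natDegree = 0 := by omega
      exact hQ.natDegree_eq_zero.mp this
    subst hQ1
    simp
  · have hd : (P %ₘ Q).natDegree < k := by
      by_cases hq : Q.natDegree = 0
      · have hQ1 : Q = 1 := hQ.natDegree_eq_zero.mp hq
        subst hQ1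
        simp
        omega
      · have := natDegree_modByMonic_lt P hQ (fun h => hq (by rw [h]; simp))
        omega
    rw [as_sum_range' (P %ₘ Q) k hd, Finset.mul_sum, map_sum]
    apply Finset.sum_eq_zero
    intro j hj
    have : G * monomial j ((P %ₘ Q).coeff j) = ((P %ₘ Q).coeff j) • (G * X ^ j) := by
      rw [← C_mul_X_pow_eq_monomial, smul_eq_C_mul]; ring
    rw [this, map_smul, h j (Finset.mem_range.mp hj), smul_zero]

/-- The integer polynomial `(Q(X^p) - Q(X)^p) / p`. -/
lemma exists_R (Q : ℤ[X]) (p : ℕ) (hp : p.Prime) :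
    ∃ R : ℤ[X], C (p : ℤ) * R = expand ℤ p Q - Q ^ p := by
  have := Fact.mk hp
  have h : (C (p : ℤ)) ∣ (expand ℤ p Q - Q ^ p) := by
    rw [C_dvd_iff_dvd_coeff]
    intro i
    have h2 : (expand ℤ p Q - Q ^ p).map (Int.castRingHom (ZMod p)) = 0 := by
      rw [Polynomial.map_sub, Polynomial.map_pow, map_expand, ZMod.expand_card, sub_self]
    have h3 : ((expand ℤ p Q - Q ^ p).map (Int.castRingHom (ZMod p))).coeff i = 0 := by
      rw [h2]; simp
    rw [coeff_map] at h3
    exact (ZMod.intCast_zmod_eq_zero_iff_dvd _ p).mp (by simpa using h3)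
  obtain ⟨R, hR⟩ := h
  exact ⟨R, hR.symm⟩

/-- The polynomial `(Q(X^p) - Q(X)^p) / p` (zero if `p` is not prime). -/
noncomputable def Rp (Q : ℤ[X]) (p : ℕ) : ℤ[X] :=
  if h : p.Prime then (exists_R Q p h).choose else 0

lemma Rp_spec (Q : ℤ[X]) (p : ℕ) (hp : p.Prime) :
    C (p : ℤ) * Rp Q p = expand ℤ p Q - Q ^ p := by
  unfold Rp; rw [dif_pos hp]; exact (exists_R Q p hp).choose_spec

/-- Division by primes makes the approximated exponential and the error smaller. -/
lemma approx_prod (φ : ℤ[X] →ₗ[ℤ] ℤ) (Q : ℤ[X]) (k Y m : ℕ) (hk : Q.natDegree < k)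
    (hc : ∀ i, |Q.coeff i| ≤ 1) (hφ : ∀ P, φ (Q * P) = 0) (z ξ : ℂ) (hz : ‖z‖ = 1) (η : ℝ)
    (happ : ∀ j < m, |((φ (X ^ j) : ℤ) : ℝ) - (ξ * z ^ j).re| ≤ η) (S : Finset ℕ)
    (hS : ∀ p ∈ S, p.Prime ∧ 2 * k ≤ p ∧ p ≤ Y) :
    ∃ ξ' : ℂ, ‖ξ'‖ ≤ ‖ξ‖ / 2 ^ S.card ∧ ∀ j, j + S.card * (k * Y) < m →
      |((φ ((∏ p ∈ S, Rp Q p) * X ^ j) : ℤ) : ℝ) - (ξ' * z ^ j).re| ≤ η / 2 ^ S.card := by
  induction S using Finset.induction_on with
  | empty =>
    refine ⟨ξ, by simp, ?_⟩
    intro j hj
    simp only [Finset.prod_empty, one_mul, Finset.card_empty, pow_zero, div_one]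
    exact happ j (by simpa using hj)
  | insert p S hp ih =>
    obtain ⟨hpp, hpk, hpY⟩ := hS p (Finset.mem_insert_self _ _)
    obtain ⟨ξ', hξ', hW⟩ := ih (fun q hq => hS q (Finset.mem_insert_of_mem hq))
    have hp0 : (0 : ℝ) < p := by exact_mod_cast hpp.pos
    have hk0 : 0 < k := by omega
    set G := ∏ p ∈ S, Rp Q p with hG
    -- the value of Q at z^p
    set qv : ℂ := ∑ i ∈ Finset.range k, (Q.coeff i : ℂ) * z ^ (p * i) with hqv
    have hqvn : ‖qv‖ ≤ k := by
      calc ‖qv‖ ≤ ∑ i ∈ Finset.range k, ‖(Q.coeff i : ℂ) * z ^ (p * i)‖ := norm_sum_le _ _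
        _ ≤ ∑ i ∈ Finset.range k, (1 : ℝ) := by
            apply Finset.sum_le_sum
            intro i _
            rw [norm_mul, norm_pow, hz, one_pow, mul_one, Complex.norm_intCast]
            exact_mod_cast hc i
        _ = k := by simp
    have hcard : (insert p S).card = S.card + 1 := Finset.card_insert_of_notMem hp
    have h2k : (2 : ℝ) * k ≤ p := by exact_mod_cast hpk
    refine ⟨ξ' * qv / p, ?_, ?_⟩
    · rw [hcard, norm_div, norm_mul, Complex.norm_natCast]
      calc ‖ξ'‖ * ‖qv‖ / p ≤ (‖ξ‖ / 2 ^ S.card) * (p / 2) / p := by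
            apply div_le_div_of_nonneg_right _ hp0.le
            apply mul_le_mul hξ' _ (norm_nonneg _) (by positivity)
            linarith
        _ = ‖ξ‖ / 2 ^ (S.card + 1) := by
            field_simp; ring
    · intro j hj
      rw [hcard] at hj
      have hprod : (∏ q ∈ insert p S, Rp Q q) = Rp Q p * G := Finset.prod_insert hp
      -- p * value
      have key : (p : ℤ) * φ ((∏ q ∈ insert p S, Rp Q q) * X ^ j)
          = ∑ i ∈ Finset.range k, Q.coeff i * φ (G * X ^ (j + p * i)) := by
        have e1 : (p : ℤ) * φ ((∏ q ∈ insert p S, Rp Q q) * X ^ j)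
            = φ ((expand ℤ p Q - Q ^ p) * (G * X ^ j)) := by
          rw [← Rp_spec Q p hpp, hprod]
          have : C (p : ℤ) * Rp Q p * (G * X ^ j) = (p : ℤ) • (Rp Q p * G * X ^ j) := by
            rw [smul_eq_C_mul]; ring
          rw [this, map_smul, smul_eq_mul]
        rw [e1, sub_mul, map_sub]
        have e2 : φ (Q ^ p * (G * X ^ j)) = 0 := by
          have : Q ^ p = Q * Q ^ (p - 1) := by
            rw [← pow_succ']; congr 1; have := hpp.pos; omega
          rw [this, mul_assoc, hφ]
        rw [e2, sub_zero]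
        have e3 : expand ℤ p Q = ∑ i ∈ Finset.range k, C (Q.coeff i) * X ^ (p * i) := by
          conv_lhs => rw [as_sum_range' Q k hk]
          rw [map_sum]
          apply Finset.sum_congr rfl
          intro i _
          rw [← C_mul_X_pow_eq_monomial, map_mul, expand_C, map_pow, expand_X, ← pow_mul]
        rw [e3, Finset.sum_mul, map_sum]
        apply Finset.sum_congr rfl
        intro i _
        have : C (Q.coeff i) * X ^ (p * i) * (G * X ^ j)
            = (Q.coeff i) • (G * X ^ (j + p * i)) := by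
          rw [smul_eq_C_mul, pow_add]; ring
        rw [this, map_smul, smul_eq_mul]
      have keyR : (p : ℝ) * ((φ ((∏ q ∈ insert p S, Rp Q q) * X ^ j) : ℤ) : ℝ)
          = ∑ i ∈ Finset.range k, (Q.coeff i : ℝ) * ((φ (G * X ^ (j + p * i)) : ℤ) : ℝ) := by
        exact_mod_cast key
      have keyC : (p : ℝ) * ((ξ' * qv / p * z ^ j).re)
          = ∑ i ∈ Finset.range k, (Q.coeff i : ℝ) * (ξ' * z ^ (j + p * i)).re := by
        have : ((p : ℝ) : ℂ) * (ξ' * qv / p * z ^ j)
            = ∑ i ∈ Finset.range k, ((Q.coeff i : ℝ) : ℂ) * (ξ' * z ^ (j + p * i)) := by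
          have hpc : (p : ℂ) ≠ 0 := by exact_mod_cast hpp.ne_zero
          have e : ((p : ℝ) : ℂ) * (ξ' * qv / p * z ^ j) = ξ' * qv * z ^ j := by
            push_cast; field_simp
          rw [e, hqv, Finset.mul_sum, Finset.sum_mul]
          apply Finset.sum_congr rfl
          intro i _
          rw [pow_add]; push_cast; ring
        have h2 := congrArg Complex.re this
        rw [Complex.re_ofReal_mul, Complex.re_sum] at h2
        rw [h2]
        apply Finset.sum_congr rfl
        intro i _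
        rw [Complex.re_ofReal_mul]
      have hdiff : (p : ℝ) * |((φ ((∏ q ∈ insert p S, Rp Q q) * X ^ j) : ℤ) : ℝ)
          - (ξ' * qv / p * z ^ j).re| ≤ k * (η / 2 ^ S.card) := by
        have habs : (p : ℝ) * |((φ ((∏ q ∈ insert p S, Rp Q q) * X ^ j) : ℤ) : ℝ)
          - (ξ' * qv / p * z ^ j).re| = |∑ i ∈ Finset.range k, (Q.coeff i : ℝ) *
            (((φ (G * X ^ (j + p * i)) : ℤ) : ℝ) - (ξ' * z ^ (j + p * i)).re)| := by
          have hab : ∀ a : ℝ, (p : ℝ) * |a| = |(p : ℝ) * a| := fun a => by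
            rw [abs_mul, abs_of_pos hp0]
          rw [hab, mul_sub, keyR, keyC, ← Finset.sum_sub_distrib]
          congr 1
          apply Finset.sum_congr rfl
          intro i _
          ring
        rw [habs]
        calc _ ≤ ∑ i ∈ Finset.range k, |(Q.coeff i : ℝ) *
            (((φ (G * X ^ (j + p * i)) : ℤ) : ℝ) - (ξ' * z ^ (j + p * i)).re)| :=
              Finset.abs_sum_le_sum_abs _ _
          _ ≤ ∑ i ∈ Finset.range k, (η / 2 ^ S.card) := by
              apply Finset.sum_le_sum
              intro i hi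
              rw [abs_mul]
              have h1 : |(Q.coeff i : ℝ)| ≤ 1 := by exact_mod_cast hc i
              have hi' := Finset.mem_range.mp hi
              have h2 := hW (j + p * i) (by
                have : p * i ≤ Y * k := Nat.mul_le_mul hpY hi'.le
                nlinarith)
              calc |(Q.coeff i : ℝ)| * _ ≤ 1 * (η / 2 ^ S.card) := by
                    apply mul_le_mul h1 h2 (abs_nonneg _) zero_le_one
                _ = _ := one_mul _
          _ = k * (η / 2 ^ S.card) := by simp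
      have hη : 0 ≤ η := by
        have hm : 0 < m := by omega
        exact le_trans (abs_nonneg _) (happ 0 hm)
      rw [hcard]
      have h5 : (p : ℝ) * (η / 2 ^ (S.card + 1)) ≥ k * (η / 2 ^ S.card) := by
        rw [pow_succ]
        have : (p : ℝ) * (η / (2 ^ S.card * 2)) = (p / 2) * (η / 2 ^ S.card) := by
          field_simp
        rw [this]
        apply mul_le_mul_of_nonneg_right _ (by positivity)
        linarith
      exact le_of_mul_le_mul_left (le_trans hdiff h5) hp0

end Pool.Agent.H777_DPV
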