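import Pool.Agent.H777_DPV.A

open Polynomial Finset

namespace Pool.Agent.H777_DPV

noncomputable section

/-- The complex extension of an integer linear functional. -/
def phiC (φ : ℤ[X] →ₗ[ℤ] ℤ) : ℂ[X] →ₗ[ℂ] ℂ :=
  Polynomial.lsum (fun i => ((φ (X ^ i) : ℤ) : ℂ) • LinearMap.id)

lemma phiC_monomial (φ : ℤ[X] →ₗ[ℤ] ℤ) (i : ℕ) (c : ℂ) :
    phiC φ (monomial i c) = ((φ (X ^ i) : ℤ) : ℂ) * c := by
  simp [phiC, Polynomial.lsum_apply, sum_monomial_index]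

lemma phiC_X_pow (φ : ℤ[X] →ₗ[ℤ] ℤ) (i : ℕ) : phiC φ (X ^ i) = ((φ (X ^ i) : ℤ) : ℂ) := by
  rw [← monomial_one_right_eq_X_pow, phiC_monomial, mul_one]

lemma phiC_map (φ : ℤ[X] →ₗ[ℤ] ℤ) (P : ℤ[X]) :
    phiC φ (P.map (Int.castRingHom ℂ)) = ((φ P : ℤ) : ℂ) := by
  induction P using Polynomial.induction_on' with
  | add p q hp hq => rw [Polynomial.map_add, map_add, hp, hq, map_add]; push_cast; ring
  | monomial n a =>
    rw [map_monomial, phiC_monomial]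
    have : monomial n a = a • (X ^ n : ℤ[X]) := by
      rw [smul_eq_C_mul, C_mul_X_pow_eq_monomial]
    rw [this, map_smul, smul_eq_mul]
    push_cast
    simp [mul_comm]

lemma phiC_C_mul (φ : ℤ[X] →ₗ[ℤ] ℤ) (c : ℂ) (P : ℂ[X]) : phiC φ (C c * P) = c * phiC φ P := by
  rw [← smul_eq_C_mul, map_smul, smul_eq_mul]

/-- The annihilator ideal. -/
def ann (φ : ℤ[X] →ₗ[ℤ] ℤ) : Ideal ℂ[X] where
  carrier := {P | ∀ G, phiC φ (P * G) = 0}
  add_mem' := by
    intro a b ha hb G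
    rw [add_mul, map_add, ha G, hb G, add_zero]
  zero_mem' := by intro G; simp
  smul_mem' := by
    intro c P hP G
    have : c • P * G = P * (c * G) := by rw [smul_eq_mul]; ring
    rw [this]; exact hP _

lemma mem_ann_iff (φ : ℤ[X] →ₗ[ℤ] ℤ) (P : ℂ[X]) : P ∈ ann φ ↔ ∀ G, phiC φ (P * G) = 0 := Iff.rfl

lemma mem_ann_of_X (φ : ℤ[X] →ₗ[ℤ] ℤ) (P : ℂ[X]) (h : ∀ j, phiC φ (P * X ^ j) = 0) :
    P ∈ ann φ := by
  rw [mem_ann_iff]
  intro G
  induction G using Polynomial.induction_on' with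
  | add p q hp hq => rw [mul_add, map_add, hp, hq, add_zero]
  | monomial n a =>
    have : P * monomial n a = C a * (P * X ^ n) := by
      rw [← C_mul_X_pow_eq_monomial]; ring
    rw [this, phiC_C_mul, h, mul_zero]

lemma map_mem_ann (φ : ℤ[X] →ₗ[ℤ] ℤ) (P : ℤ[X]) (h : ∀ G, φ (P * G) = 0) :
    P.map (Int.castRingHom ℂ) ∈ ann φ := by
  apply mem_ann_of_X
  intro j
  have : P.map (Int.castRingHom ℂ) * X ^ j = (P * X ^ j).map (Int.castRingHom ℂ) := by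
    rw [Polynomial.map_mul, Polynomial.map_pow, map_X]
  rw [this, phiC_map, h]; simp

lemma exists_ne_of_not_mem (φ : ℤ[X] →ₗ[ℤ] ℤ) (Q : ℤ[X]) (hQ : Q.Monic)
    (hφ : ∀ P, φ (Q * P) = 0) (k : ℕ) (hk : Q.natDegree ≤ k) (P : ℤ[X])
    (hP : P.map (Int.castRingHom ℂ) ∉ ann φ) : ∃ j < k, φ (P * X ^ j) ≠ 0 := by
  by_contra hcon
  push Not at hcon
  exact hP (map_mem_ann φ P (vanish φ Q hQ hφ P k hk hcon))

lemma roots_of_unity (φ : ℤ[X] →ₗ[ℤ] ℤ) (Q : ℤ[X]) (hQ : Q.Monic) (k s Y : ℕ)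
    (hk : Q.natDegree < k) (hφ : ∀ P, φ (Q * P) = 0) (T : Finset ℕ)
    (hT : ∀ p ∈ T, p.Prime ∧ 2 * k ≤ p ∧ p ≤ Y) (hcard : s + k ≤ T.card)
    (hzero : ∀ S ⊆ T, S.card = s → ∀ P, φ ((∏ p ∈ S, Rp Q p) * P) = 0)
    (F : ℂ[X]) (hF1 : F ∣ Q.map (Int.castRingHom ℂ))
    (hF : ∀ P : ℤ[X], (∀ G, φ (P * G) = 0) → F ∣ P.map (Int.castRingHom ℂ))
    (α : ℂ) (hα : F.IsRoot α) :
    α = 0 ∨ ∃ n, 1 ≤ n ∧ n ≤ Y ∧ α ^ n = 1 := by
  classical
  have hQα : (Q.map (Int.castRingHom ℂ)).eval α = 0 := by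
    obtain ⟨G, hG⟩ := hF1
    rw [hG, eval_mul, hα.eq_zero, zero_mul]
  have hQm : (Q.map (Int.castRingHom ℂ)).Monic := hQ.map _
  have hQ0 : Q.map (Int.castRingHom ℂ) ≠ 0 := hQm.ne_zero
  set good := T.filter (fun p => (Q.map (Int.castRingHom ℂ)).eval (α ^ p) = 0) with hgood
  set bad := T.filter (fun p => ¬ (Q.map (Int.castRingHom ℂ)).eval (α ^ p) = 0) with hbad
  have hsum : good.card + bad.card = T.card := Finset.card_filter_add_card_filter_not _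
  have hbadc : bad.card < s := by
    by_contra hcon
    push Not at hcon
    obtain ⟨S, hSb, hSc⟩ := Finset.exists_subset_card_eq hcon
    have hST : S ⊆ T := hSb.trans (Finset.filter_subset _ _)
    obtain ⟨G, hG⟩ := hF _ (hzero S hST hSc)
    have h1 : ((∏ p ∈ S, Rp Q p).map (Int.castRingHom ℂ)).eval α = 0 := by
      rw [hG, eval_mul, hα.eq_zero, zero_mul]
    rw [Polynomial.map_prod, eval_prod, Finset.prod_eq_zero_iff] at h1
    obtain ⟨p, hpS, hp⟩ := h1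
    have hpp := (hT p (hST hpS)).1
    have h2 := congrArg (fun P => (P.map (Int.castRingHom ℂ)).eval α) (Rp_spec Q p hpp)
    simp only [Polynomial.map_mul, Polynomial.map_sub, Polynomial.map_pow, eval_mul, eval_sub,
      eval_pow, hp, mul_zero, hQα] at h2
    rw [map_expand, expand_eval, zero_pow hpp.ne_zero, sub_zero] at h2
    have := (Finset.mem_filter.mp (hSb hpS)).2
    exact this h2.symm
  have hgc : (Q.map (Int.castRingHom ℂ)).roots.toFinset.card < good.card := by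
    calc (Q.map (Int.castRingHom ℂ)).roots.toFinset.card
        ≤ Multiset.card (Q.map (Int.castRingHom ℂ)).roots := Multiset.toFinset_card_le _
      _ ≤ (Q.map (Int.castRingHom ℂ)).natDegree := card_roots' _
      _ ≤ Q.natDegree := natDegree_map_le
      _ < good.card := by omega
  obtain ⟨p, hp, q, hq, hpq, he⟩ := Finset.exists_ne_map_eq_of_card_lt_of_maps_to hgc
    (f := fun p => α ^ p) (by
      intro p hp
      rw [Finset.mem_coe, Multiset.mem_toFinset, mem_roots hQ0]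
      exact (Finset.mem_filter.mp hp).2)
  by_cases hα0 : α = 0
  · exact Or.inl hα0
  right
  have aux : ∀ p q : ℕ, p ∈ T → q ∈ T → p < q → α ^ p = α ^ q →
      ∃ n, 1 ≤ n ∧ n ≤ Y ∧ α ^ n = 1 := by
    intro p q hp hq hlt he
    refine ⟨q - p, by omega, by have := (hT q hq).2.2; omega, ?_⟩
    have h1 : α ^ q = α ^ p * α ^ (q - p) := by rw [← pow_add]; congr 1; omega
    rw [h1] at he
    have h2 : α ^ p ≠ 0 := pow_ne_zero _ hα0
    have h3 : α ^ p * α ^ (q - p) = α ^ p * 1 := by rw [mul_one]; exact he.symm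
    exact mul_left_cancel₀ h2 h3
  have hpT := (Finset.mem_filter.mp hp).1
  have hqT := (Finset.mem_filter.mp hq).1
  rcases lt_or_gt_of_ne hpq with h | h
  · exact aux p q hpT hqT h he
  · exact aux q p hqT hpT h he.symm

/-- The deviation functional. -/
def psi (φ : ℤ[X] →ₗ[ℤ] ℤ) (z ξ : ℂ) (P : ℂ[X]) : ℂ :=
  phiC φ P - (ξ * eval z P + (starRingEnd ℂ) ξ * eval ((starRingEnd ℂ) z) P) / 2

lemma psi_sub (φ : ℤ[X] →ₗ[ℤ] ℤ) (z ξ : ℂ) (P G : ℂ[X]) :
    psi φ z ξ (P - G) = psi φ z ξ P - psi φ z ξ G := by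
  unfold psi; rw [map_sub, eval_sub, eval_sub]; ring

lemma psi_C_mul (φ : ℤ[X] →ₗ[ℤ] ℤ) (z ξ c : ℂ) (P : ℂ[X]) :
    psi φ z ξ (C c * P) = c * psi φ z ξ P := by
  unfold psi; rw [phiC_C_mul, eval_C_mul, eval_C_mul]; ring

lemma psi_X_pow (φ : ℤ[X] →ₗ[ℤ] ℤ) (z ξ : ℂ) (j : ℕ) :
    ‖psi φ z ξ (X ^ j)‖ = |((φ (X ^ j) : ℤ) : ℝ) - (ξ * z ^ j).re| := by
  unfold psi
  rw [phiC_X_pow, eval_pow, eval_X, eval_pow, eval_X]
  have : (ξ * z ^ j + (starRingEnd ℂ) ξ * (starRingEnd ℂ) z ^ j) / 2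
      = (((ξ * z ^ j).re : ℝ) : ℂ) := by
    rw [← map_pow, ← map_mul, Complex.add_conj]; push_cast; ring
  rw [this, ← Complex.ofReal_intCast, ← Complex.ofReal_sub, Complex.norm_real, Real.norm_eq_abs]

lemma psi_bound (φ : ℤ[X] →ₗ[ℤ] ℤ) (z ξ : ℂ) (η : ℝ) (m : ℕ)
    (happ : ∀ j < m, |((φ (X ^ j) : ℤ) : ℝ) - (ξ * z ^ j).re| ≤ η) (M : Multiset ℂ)
    (hM : ∀ a ∈ M, ‖a‖ ≤ 1) : ∀ j, Multiset.card M + j < m →
    ‖psi φ z ξ ((M.map (fun a => X - C a)).prod * X ^ j)‖ ≤ 2 ^ (Multiset.card M) * η := by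
  induction M using Multiset.induction_on with
  | empty =>
    intro j hj
    simp only [Multiset.map_zero, Multiset.prod_zero, one_mul, Multiset.card_zero, pow_zero]
    rw [psi_X_pow]; exact happ j (by simpa using hj)
  | cons a M ih =>
    intro j hj
    rw [Multiset.card_cons] at hj ⊢
    rw [Multiset.map_cons, Multiset.prod_cons]
    set G := (M.map (fun a => X - C a)).prod with hG
    have e : (X - C a) * G * X ^ j = G * X ^ (j + 1) - C a * (G * X ^ j) := by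
      rw [pow_succ]; ring
    rw [e, psi_sub, psi_C_mul]
    have ih' := ih (fun b hb => hM b (Multiset.mem_cons_of_mem hb))
    have h1 := ih' (j + 1) (by omega)
    have h2 := ih' j (by omega)
    have ha := hM a (Multiset.mem_cons_self a M)
    calc _ ≤ ‖psi φ z ξ (G * X ^ (j + 1))‖ + ‖a * psi φ z ξ (G * X ^ j)‖ := norm_sub_le _ _
      _ ≤ 2 ^ (Multiset.card M) * η + 1 * (2 ^ (Multiset.card M) * η) := by
          rw [norm_mul]
          apply add_le_add h1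
          apply mul_le_mul ha h2 (norm_nonneg _) zero_le_one
      _ = 2 ^ (Multiset.card M + 1) * η := by rw [pow_succ]; ring

lemma dist_root (z α : ℂ) (hz : ‖z‖ = 1) (δ : ℝ) (hδ1 : δ ≤ 1) (Y : ℕ)
    (hδ : ∀ q : ℕ, 1 ≤ q → q ≤ Y → δ * q ≤ ‖z ^ q - 1‖)
    (hα : α = 0 ∨ ∃ n, 1 ≤ n ∧ n ≤ Y ∧ α ^ n = 1) : δ ≤ ‖z - α‖ ∧ ‖α‖ ≤ 1 := by
  rcases hα with rfl | ⟨n, hn1, hnY, hn⟩
  · simp [hz, hδ1]
  · have hαn : ‖α‖ = 1 := by
      have : ‖α‖ ^ n = 1 := by rw [← norm_pow, hn, norm_one]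
      exact (pow_eq_one_iff_of_nonneg (norm_nonneg _) (by omega)).mp this
    refine ⟨?_, hαn.le⟩
    have h1 : z ^ n - 1 = (∑ i ∈ Finset.range n, z ^ i * α ^ (n - 1 - i)) * (z - α) := by
      rw [← hn]; exact ((Commute.all z α).geom_sum₂_mul n).symm
    have h2 : ‖z ^ n - 1‖ ≤ n * ‖z - α‖ := by
      rw [h1, norm_mul]
      apply mul_le_mul_of_nonneg_right _ (norm_nonneg _)
      calc _ ≤ ∑ i ∈ Finset.range n, ‖z ^ i * α ^ (n - 1 - i)‖ := norm_sum_le _ _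
        _ = ∑ i ∈ Finset.range n, (1 : ℝ) := by
            apply Finset.sum_congr rfl
            intro i _
            rw [norm_mul, norm_pow, norm_pow, hz, hαn]; simp
        _ = n := by simp
    have h3 := hδ n hn1 hnY
    have hn0 : (0 : ℝ) < n := by exact_mod_cast hn1
    have h4 : n * δ ≤ n * ‖z - α‖ := by linarith
    exact le_of_mul_le_mul_left h4 hn0

lemma prod_lower (z : ℂ) (δ : ℝ) (hδ0 : 0 ≤ δ) (M : Multiset ℂ) (hM : ∀ a ∈ M, δ ≤ ‖z - a‖) :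
    δ ^ (Multiset.card M) ≤ ‖eval z (M.map (fun a => X - C a)).prod‖ := by
  induction M using Multiset.induction_on with
  | empty => simp
  | cons a M ih =>
    rw [Multiset.map_cons, Multiset.prod_cons, eval_mul, norm_mul, Multiset.card_cons, pow_succ']
    have h1 := ih (fun b hb => hM b (Multiset.mem_cons_of_mem hb))
    have h2 := hM a (Multiset.mem_cons_self a M)
    have h3 : eval z (X - C a) = z - a := by simp
    rw [h3]
    exact mul_le_mul h2 h1 (by positivity) (norm_nonneg _)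

/-- Upper bound for `ξ` in terms of the number of roots. -/
lemma xi_upper (φ : ℤ[X] →ₗ[ℤ] ℤ) (z ξ : ℂ) (hz : ‖z‖ = 1) (η δ : ℝ) (hδ0 : 0 < δ) (m : ℕ)
    (happ : ∀ j < m, |((φ (X ^ j) : ℤ) : ℝ) - (ξ * z ^ j).re| ≤ η) (M : Multiset ℂ)
    (hM : ∀ a ∈ M, ‖a‖ ≤ 1) (hm : Multiset.card M + 1 < m)
    (hlow : δ ^ (Multiset.card M) ≤ ‖eval z (M.map (fun a => X - C a)).prod‖)
    (hann : (M.map (fun a => X - C a)).prod ∈ ann φ) :
    ‖ξ‖ * |z.im| ≤ 2 * η * (2 / δ) ^ (Multiset.card M) := by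
  set F := (M.map (fun a => X - C a)).prod with hF
  have hb := psi_bound φ z ξ η m happ M hM
  have h0 := hb 0 (by omega)
  have h1 := hb 1 hm
  rw [← hF] at h0 h1
  unfold psi at h0 h1
  rw [(mem_ann_iff φ F).mp hann] at h0 h1
  simp only [eval_mul, eval_X, pow_zero, mul_one, pow_one, zero_sub, norm_neg] at h0 h1
  set A := eval z F with hA
  set B := eval ((starRingEnd ℂ) z) F with hB
  set zc := (starRingEnd ℂ) z with hzc
  have hzcn : ‖zc‖ = 1 := by rw [hzc, RCLike.norm_conj, hz]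
  have key : ξ * A * (z - zc) / 2 = (ξ * (A * z) + (starRingEnd ℂ) ξ * (B * zc)) / 2
      - zc * ((ξ * A + (starRingEnd ℂ) ξ * B) / 2) := by ring
  have hn : ‖ξ * A * (z - zc) / 2‖ ≤ 2 * (2 ^ (Multiset.card M) * η) := by
    rw [key]
    calc _ ≤ ‖(ξ * (A * z) + (starRingEnd ℂ) ξ * (B * zc)) / 2‖
        + ‖zc * ((ξ * A + (starRingEnd ℂ) ξ * B) / 2)‖ := norm_sub_le _ _
      _ ≤ 2 ^ (Multiset.card M) * η + 2 ^ (Multiset.card M) * η := by
          apply add_le_add h1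
          rw [norm_mul, hzcn, one_mul]; exact h0
      _ = _ := by ring
  have hzz : ‖(z - zc) / 2‖ = |z.im| := by
    have : (z - zc) / 2 = (z.im : ℂ) * Complex.I := by
      rw [hzc, Complex.sub_conj]; push_cast; ring
    rw [this, norm_mul, Complex.norm_I, mul_one, Complex.norm_real, Real.norm_eq_abs]
  have hn2 : ‖ξ‖ * ‖A‖ * |z.im| ≤ 2 * (2 ^ (Multiset.card M) * η) := by
    have : ξ * A * (z - zc) / 2 = ξ * A * ((z - zc) / 2) := by ring
    rw [this, norm_mul, norm_mul, hzz] at hn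
    exact hn
  have hd : 0 < δ ^ (Multiset.card M) := by positivity
  have h5 : ‖ξ‖ * |z.im| * δ ^ (Multiset.card M) ≤ 2 * η * 2 ^ (Multiset.card M) := by
    calc ‖ξ‖ * |z.im| * δ ^ (Multiset.card M) ≤ ‖ξ‖ * |z.im| * ‖A‖ :=
          mul_le_mul_of_nonneg_left hlow (by positivity)
      _ = ‖ξ‖ * ‖A‖ * |z.im| := by ring
      _ ≤ 2 * (2 ^ (Multiset.card M) * η) := hn2
      _ = _ := by ring
  rw [div_pow]
  rw [show 2 * η * (2 ^ (Multiset.card M) / δ ^ (Multiset.card M))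
      = (2 * η * 2 ^ (Multiset.card M)) / δ ^ (Multiset.card M) by ring]
  rw [le_div_iff₀ hd]
  exact h5

end

end Pool.Agent.H777_DPV
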