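import Pool.Agent.H777_DPV.B

open Polynomial Finset

namespace Pool.Agent.H777_DPV

lemma pigeon {ι : Type*} (s : Finset ι) (f : ι → ℂ) (A h : ℝ) (hh : 0 < h)
    (hf : ∀ x ∈ s, ‖f x‖ ≤ A) (n : ℕ) (hn : 2 * A / h + 2 ≤ n) (hcard : n ^ 2 < s.card) :
    ∃ x ∈ s, ∃ y ∈ s, x ≠ y ∧ ‖f x - f y‖ < 2 * h := by
  classical
  set g : ι → ℕ × ℕ := fun x => (⌊((f x).re + A) / h⌋₊, ⌊((f x).im + A) / h⌋₊) with hg
  have hmaps : ∀ x ∈ s, g x ∈ Finset.range n ×ˢ Finset.range n := by
    intro x hx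
    have h1 := hf x hx
    have hre := (abs_le.mp ((Complex.abs_re_le_norm (f x)).trans h1))
    have him := (abs_le.mp ((Complex.abs_im_le_norm (f x)).trans h1))
    rw [Finset.mem_product, Finset.mem_range, Finset.mem_range]
    constructor
    · rw [Nat.floor_lt (div_nonneg (by linarith [hre.1]) hh.le)]
      have : ((f x).re + A) / h ≤ 2 * A / h := div_le_div_of_nonneg_right (by linarith [hre.2]) hh.le
      linarith
    · rw [Nat.floor_lt (div_nonneg (by linarith [him.1]) hh.le)]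
      have : ((f x).im + A) / h ≤ 2 * A / h := div_le_div_of_nonneg_right (by linarith [him.2]) hh.le
      linarith
  have hc : (Finset.range n ×ˢ Finset.range n).card < s.card := by
    rw [Finset.card_product, Finset.card_range]; nlinarith
  obtain ⟨x, hx, y, hy, hxy, he⟩ := Finset.exists_ne_map_eq_of_card_lt_of_maps_to hc
    (f := g) (fun x hx => hmaps x hx)
  refine ⟨x, hx, y, hy, hxy, ?_⟩
  have hfl : ∀ a b : ℝ, 0 ≤ a → 0 ≤ b → ⌊a / h⌋₊ = ⌊b / h⌋₊ → |a - b| < h := by
    intro a b ha hb hab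
    have h1 := Nat.floor_le (div_nonneg ha hh.le)
    have h2 := Nat.lt_floor_add_one (a / h)
    have h3 := Nat.floor_le (div_nonneg hb hh.le)
    have h4 := Nat.lt_floor_add_one (b / h)
    rw [hab] at h1 h2
    have h5 : a / h - b / h < 1 := by linarith
    have h6 : b / h - a / h < 1 := by linarith
    rw [← sub_div, div_lt_one hh] at h5 h6
    rw [abs_lt]; constructor <;> linarith
  have hnn : ∀ x ∈ s, 0 ≤ (f x).re + A ∧ 0 ≤ (f x).im + A := by
    intro x hx
    have h1 := hf x hx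
    have hre := (abs_le.mp ((Complex.abs_re_le_norm (f x)).trans h1))
    have him := (abs_le.mp ((Complex.abs_im_le_norm (f x)).trans h1))
    exact ⟨by linarith [hre.1], by linarith [him.1]⟩
  have he1 : ⌊((f x).re + A) / h⌋₊ = ⌊((f y).re + A) / h⌋₊ := congrArg Prod.fst he
  have he2 : ⌊((f x).im + A) / h⌋₊ = ⌊((f y).im + A) / h⌋₊ := congrArg Prod.snd he
  have r1 := hfl _ _ (hnn x hx).1 (hnn y hy).1 he1
  have r2 := hfl _ _ (hnn x hx).2 (hnn y hy).2 he2
  have r3 := Complex.norm_le_abs_re_add_abs_im (f x - f y)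
  rw [Complex.sub_re, Complex.sub_im] at r3
  have e1 : (f x).re + A - ((f y).re + A) = (f x).re - (f y).re := by ring
  have e2 : (f x).im + A - ((f y).im + A) = (f x).im - (f y).im := by ring
  rw [e1] at r1; rw [e2] at r2
  linarith

lemma seq_val (K : ℕ → ℤ) (z ξ : ℂ) (η Λ : ℝ) (m n : ℕ) (hΛ : 0 ≤ Λ)
    (hK : ∀ j < m, |(K j : ℝ) - (ξ * z ^ j).re| ≤ η) (c : ℕ → ℤ) (hc : ∀ i, |(c i : ℝ)| ≤ Λ)
    (j : ℕ) (hj : j + n ≤ m) :
    |((∑ i ∈ Finset.range n, c i * K (i + j) : ℤ) : ℝ)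
      - (ξ * z ^ j * ∑ i ∈ Finset.range n, (c i : ℂ) * z ^ i).re| ≤ n * Λ * η := by
  have e : (ξ * z ^ j * ∑ i ∈ Finset.range n, (c i : ℂ) * z ^ i).re
      = ∑ i ∈ Finset.range n, (c i : ℝ) * (ξ * z ^ (i + j)).re := by
    rw [Finset.mul_sum, Complex.re_sum]
    apply Finset.sum_congr rfl
    intro i _
    have : ξ * z ^ j * ((c i : ℂ) * z ^ i) = (((c i : ℝ)) : ℂ) * (ξ * z ^ (i + j)) := by
      rw [pow_add]; push_cast; ring
    rw [this, Complex.re_ofReal_mul]
  rw [e]
  push_cast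
  rw [← Finset.sum_sub_distrib]
  calc _ ≤ ∑ i ∈ Finset.range n, |(c i : ℝ) * (K (i + j) : ℝ)
        - (c i : ℝ) * (ξ * z ^ (i + j)).re| := Finset.abs_sum_le_sum_abs _ _
    _ ≤ ∑ i ∈ Finset.range n, Λ * η := by
        apply Finset.sum_le_sum
        intro i hi
        rw [← mul_sub, abs_mul]
        have hi' := Finset.mem_range.mp hi
        exact mul_le_mul (hc i) (hK _ (by omega)) (abs_nonneg _) hΛ
    _ = n * Λ * η := by simp; ring

lemma exists_Q (K : ℕ → ℤ) (z ξ : ℂ) (hz : ‖z‖ = 1) (η T : ℝ) (m k n : ℕ) (hT : 1 ≤ T)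
    (hξ : ‖ξ‖ ≤ T) (hn : 16 * k * T + 2 ≤ n) (hnk : n ^ 2 < 2 ^ k) (hη : η * k ≤ 1 / 4)
    (hK : ∀ j < m, |(K j : ℝ) - (ξ * z ^ j).re| ≤ η) :
    ∃ Q : ℤ[X], Q.Monic ∧ Q.natDegree < k ∧ (∀ i, |Q.coeff i| ≤ 1) ∧
      ∀ j, j + k ≤ m → ∑ i ∈ Finset.range k, Q.coeff i * K (i + j) = 0 := by
  classical
  obtain ⟨S, hS, S', hS', hne, hclose⟩ := pigeon (Finset.range k).powerset
    (fun S => ∑ i ∈ S, z ^ i) k (1 / (8 * T)) (by positivity) (by
      intro S hS
      rw [Finset.mem_powerset] at hS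
      calc ‖∑ i ∈ S, z ^ i‖ ≤ ∑ i ∈ S, ‖z ^ i‖ := norm_sum_le _ _
        _ = S.card := by simp [norm_pow, hz]
        _ ≤ k := by exact_mod_cast (Finset.card_le_card hS).trans_eq (Finset.card_range k)) n
    (by
      have : 2 * (k : ℝ) / (1 / (8 * T)) = 16 * k * T := by field_simp; ring
      rw [this]; exact hn)
    (by rw [Finset.card_powerset, Finset.card_range]; exact hnk)
  rw [Finset.mem_powerset] at hS hS'
  set c : ℕ → ℤ := fun i => (if i ∈ S then 1 else 0) - (if i ∈ S' then 1 else 0) with hc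
  have hc1 : ∀ i, |c i| ≤ 1 := by
    intro i; simp only [hc]; split_ifs <;> simp
  set Q0 : ℤ[X] := ∑ i ∈ Finset.range k, monomial i (c i) with hQ0
  have hcoef : ∀ i, Q0.coeff i = if i < k then c i else 0 := by
    intro i
    rw [hQ0, finsetSum_coeff]
    simp only [coeff_monomial]
    rw [Finset.sum_ite_eq' (Finset.range k) i c]
    simp
  have hQ0c : ∀ i, |Q0.coeff i| ≤ 1 := by
    intro i; rw [hcoef]; split_ifs
    · exact hc1 i
    · simp
  have hQne : Q0 ≠ 0 := by
    intro h0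
    apply hne
    ext i
    by_cases hi : i < k
    · have h1 := hcoef i
      rw [h0, coeff_zero, if_pos hi] at h1
      simp only [hc] at h1
      by_cases a : i ∈ S <;> by_cases b : i ∈ S' <;> simp [a, b] at h1 ⊢
    · constructor
      · intro h; exact absurd (Finset.mem_range.mp (hS h)) hi
      · intro h; exact absurd (Finset.mem_range.mp (hS' h)) hi
  have hk0 : 0 < k := by
    rcases Nat.eq_zero_or_pos k with h | h
    · subst h; simp at hQ0; exact absurd hQ0 hQne
    · exact h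
  have hdeg : Q0.natDegree < k := by
    by_contra hcon
    push Not at hcon
    have h1 := hcoef Q0.natDegree
    rw [if_neg (by omega)] at h1
    exact hQne (leadingCoeff_eq_zero.mp h1)
  have hrec : ∀ j, j + k ≤ m → ∑ i ∈ Finset.range k, c i * K (i + j) = 0 := by
    intro j hj
    have h1 := seq_val K z ξ η 1 m k zero_le_one hK c (fun i => by exact_mod_cast hc1 i) j hj
    have h2 : ∑ i ∈ Finset.range k, (c i : ℂ) * z ^ i = ∑ i ∈ S, z ^ i - ∑ i ∈ S', z ^ i := by
      have e1 : ∀ A ⊆ Finset.range k, ∑ i ∈ A, z ^ i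
          = ∑ i ∈ Finset.range k, (if i ∈ A then (1 : ℂ) else 0) * z ^ i := by
        intro A hA
        simp only [ite_mul, one_mul, zero_mul]
        rw [Finset.sum_ite_mem, Finset.inter_eq_right.mpr hA]
      rw [e1 S hS, e1 S' hS', ← Finset.sum_sub_distrib]
      apply Finset.sum_congr rfl
      intro i _
      simp only [hc]
      push_cast
      ring
    rw [h2] at h1
    have h3 : |(ξ * z ^ j * (∑ i ∈ S, z ^ i - ∑ i ∈ S', z ^ i)).re| ≤ 1 / 4 := by
      refine (Complex.abs_re_le_norm _).trans ?_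
      rw [norm_mul, norm_mul, norm_pow, hz, one_pow, mul_one]
      have : (2 : ℝ) * (1 / (8 * T)) = 1 / (4 * T) := by field_simp; ring
      rw [this] at hclose
      calc ‖ξ‖ * _ ≤ T * (1 / (4 * T)) := mul_le_mul hξ hclose.le (norm_nonneg _) (by linarith)
        _ = 1 / 4 := by field_simp
    have h4 : |((∑ i ∈ Finset.range k, c i * K (i + j) : ℤ) : ℝ)| < 1 := by
      have := abs_sub_abs_le_abs_sub ((∑ i ∈ Finset.range k, c i * K (i + j) : ℤ) : ℝ)
        ((ξ * z ^ j * (∑ i ∈ S, z ^ i - ∑ i ∈ S', z ^ i)).re)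
      have h5 : (k : ℝ) * 1 * η ≤ 1 / 4 := by linarith
      linarith
    have h6 : |∑ i ∈ Finset.range k, c i * K (i + j)| < 1 := by exact_mod_cast h4
    exact Int.abs_lt_one_iff.mp h6
  have hrecQ0 : ∀ j, j + k ≤ m → ∑ i ∈ Finset.range k, Q0.coeff i * K (i + j) = 0 := by
    intro j hj
    rw [← hrec j hj]
    apply Finset.sum_congr rfl
    intro i hi
    rw [hcoef, if_pos (Finset.mem_range.mp hi)]
  have hlead : Q0.leadingCoeff = 1 ∨ Q0.leadingCoeff = -1 := by
    have h1 := hQ0c Q0.natDegree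
    have h2 : Q0.leadingCoeff ≠ 0 := leadingCoeff_ne_zero.mpr hQne
    rw [Polynomial.leadingCoeff] at *
    rw [abs_le] at h1
    omega
  rcases hlead with hl | hl
  · exact ⟨Q0, hl, hdeg, hQ0c, hrecQ0⟩
  · refine ⟨-Q0, ?_, by rw [natDegree_neg]; exact hdeg, ?_, ?_⟩
    · rw [Monic, leadingCoeff_neg, hl]; norm_num
    · intro i; rw [coeff_neg, abs_neg]; exact hQ0c i
    · intro j hj
      have := hrecQ0 j hj
      simp only [coeff_neg, neg_mul, Finset.sum_neg_distrib, this, neg_zero]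

/-- Extension of a truncated recurrent sequence. -/
lemma exists_phi (K : ℕ → ℤ) (Q : ℤ[X]) (hQ : Q.Monic) (k m : ℕ) (hk : Q.natDegree < k)
    (hrec : ∀ j, j + k ≤ m → ∑ i ∈ Finset.range k, Q.coeff i * K (i + j) = 0) :
    ∃ φ : ℤ[X] →ₗ[ℤ] ℤ, (∀ P, φ (Q * P) = 0) ∧ ∀ j, j + k < m → φ (X ^ j) = K j := by
  set pk : ℤ[X] →ₗ[ℤ] ℤ := Polynomial.lsum (fun i => (K i) • LinearMap.id) with hpk
  have hpkX : ∀ j, pk (X ^ j) = K j := by
    intro j
    rw [← monomial_one_right_eq_X_pow]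
    simp [hpk, Polynomial.lsum_apply, sum_monomial_index]
  set φ : ℤ[X] →ₗ[ℤ] ℤ := pk.comp (modByMonicHom Q) with hφ
  have h0 : ∀ P, φ (Q * P) = 0 := by
    intro P
    have : (Q * P) %ₘ Q = 0 := (modByMonic_eq_zero_iff_dvd hQ).mpr (dvd_mul_right _ _)
    simp [hφ, modByMonicHom_apply, this]
  refine ⟨φ, h0, ?_⟩
  intro j
  induction j using Nat.strong_induction_on with
  | _ j ih =>
    intro hj
    by_cases hjd : j < Q.natDegree
    · have : (X ^ j : ℤ[X]) %ₘ Q = X ^ j := by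
        rw [modByMonic_eq_self_iff hQ, degree_X_pow, degree_eq_natDegree hQ.ne_zero]
        exact_mod_cast hjd
      simp only [hφ, LinearMap.comp_apply, modByMonicHom_apply, this]
      exact hpkX j
    · push Not at hjd
      set d := Q.natDegree with hd
      have e1 : φ (Q * X ^ (j - d)) = ∑ i ∈ Finset.range (d + 1), Q.coeff i * φ (X ^ (i + (j - d))) := by
        conv_lhs => rw [as_sum_range' Q (d + 1) (Nat.lt_succ_self _)]
        rw [Finset.sum_mul, map_sum]
        apply Finset.sum_congr rfl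
        intro i _
        have : monomial i (Q.coeff i) * X ^ (j - d) = (Q.coeff i) • (X ^ (i + (j - d)) : ℤ[X]) := by
          rw [← C_mul_X_pow_eq_monomial, smul_eq_C_mul, pow_add]; ring
        rw [this, map_smul, smul_eq_mul]
      rw [h0, Finset.sum_range_succ] at e1
      have hlead : Q.coeff d = 1 := hQ
      rw [hlead, one_mul] at e1
      have hjj : d + (j - d) = j := by omega
      rw [hjj] at e1
      have e2 : ∑ i ∈ Finset.range d, Q.coeff i * φ (X ^ (i + (j - d)))
          = ∑ i ∈ Finset.range d, Q.coeff i * K (i + (j - d)) := by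
        apply Finset.sum_congr rfl
        intro i hi
        have := Finset.mem_range.mp hi
        rw [ih (i + (j - d)) (by omega) (by omega)]
      have e3 := hrec (j - d) (by omega)
      have e4 : ∑ i ∈ Finset.range k, Q.coeff i * K (i + (j - d))
          = ∑ i ∈ Finset.range (d + 1), Q.coeff i * K (i + (j - d)) := by
        symm
        apply Finset.sum_subset
        · intro i hi
          rw [Finset.mem_range] at *
          omega
        · intro i _ hi
          rw [Finset.mem_range] at hi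
          rw [coeff_eq_zero_of_natDegree_lt (by omega), zero_mul]
      rw [e4, Finset.sum_range_succ, hlead, one_mul, hjj] at e3
      rw [e2] at e1
      linarith

end Pool.Agent.H777_DPV
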