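import Pool.Agent.H777_DPV.C

open Polynomial Finset

namespace Pool.Agent.H777_DPV

lemma seq_val2 (K : ℕ → ℤ) (z ξ : ℂ) (η Λ A : ℝ) (m n : ℕ) (hΛ : 0 ≤ Λ) (hA : 0 ≤ A)
    (hK : ∑ j ∈ Finset.range m, ((K j : ℝ) - (ξ * z ^ j).re) ^ 2 ≤ η ^ 2) (c : ℕ → ℤ)
    (hc : ∀ i, |(c i : ℝ)| ≤ Λ) (j : ℕ) (hj : j + n ≤ m)
    (hAn : n * Λ ^ 2 * η ^ 2 ≤ A ^ 2) :
    |((∑ i ∈ Finset.range n, c i * K (i + j) : ℤ) : ℝ)
      - (ξ * z ^ j * ∑ i ∈ Finset.range n, (c i : ℂ) * z ^ i).re| ≤ A := by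
  have e : (ξ * z ^ j * ∑ i ∈ Finset.range n, (c i : ℂ) * z ^ i).re
      = ∑ i ∈ Finset.range n, (c i : ℝ) * (ξ * z ^ (i + j)).re := by
    rw [Finset.mul_sum, Complex.re_sum]
    apply Finset.sum_congr rfl
    intro i _
    have : ξ * z ^ j * ((c i : ℂ) * z ^ i) = (((c i : ℝ)) : ℂ) * (ξ * z ^ (i + j)) := by
      rw [pow_add]; push_cast; ring
    rw [this, Complex.re_ofReal_mul]
  rw [e]
  push_cast
  rw [← Finset.sum_sub_distrib]
  have e2 : ∀ i ∈ Finset.range n, (c i : ℝ) * (K (i + j) : ℝ) - (c i : ℝ) * (ξ * z ^ (i + j)).re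
      = (c i : ℝ) * ((K (i + j) : ℝ) - (ξ * z ^ (i + j)).re) := by
    intro i _; ring
  rw [Finset.sum_congr rfl e2]
  apply abs_le_of_sq_le_sq _ hA
  have h1 := Finset.sum_mul_sq_le_sq_mul_sq (Finset.range n) (fun i => (c i : ℝ))
    (fun i => (K (i + j) : ℝ) - (ξ * z ^ (i + j)).re)
  have h2 : ∑ i ∈ Finset.range n, (c i : ℝ) ^ 2 ≤ n * Λ ^ 2 := by
    calc _ ≤ ∑ i ∈ Finset.range n, Λ ^ 2 := by
          apply Finset.sum_le_sum
          intro i _
          rw [← sq_abs]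
          exact pow_le_pow_left₀ (abs_nonneg _) (hc i) 2
      _ = n * Λ ^ 2 := by simp
  have h3 : ∑ i ∈ Finset.range n, ((K (i + j) : ℝ) - (ξ * z ^ (i + j)).re) ^ 2 ≤ η ^ 2 := by
    refine le_trans ?_ hK
    have e3 : ∑ i ∈ Finset.range n, ((K (i + j) : ℝ) - (ξ * z ^ (i + j)).re) ^ 2
        = ∑ i ∈ Finset.Ico j (j + n), ((K i : ℝ) - (ξ * z ^ i).re) ^ 2 := by
      rw [Finset.sum_Ico_eq_sum_range, Nat.add_sub_cancel_left]
      apply Finset.sum_congr rfl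
      intro i _
      rw [add_comm i j]
    rw [e3]
    apply Finset.sum_le_sum_of_subset_of_nonneg
    · intro i hi
      rw [Finset.mem_Ico] at hi
      rw [Finset.mem_range]
      omega
    · intro i _ _
      positivity
  calc _ ≤ _ := h1
    _ ≤ (n * Λ ^ 2) * η ^ 2 := mul_le_mul h2 h3 (Finset.sum_nonneg (fun i _ => by positivity))
        (by positivity)
    _ ≤ A ^ 2 := hAn

lemma pointwise (K : ℕ → ℤ) (z ξ : ℂ) (η : ℝ) (hη : 0 ≤ η) (m : ℕ)
    (hK : ∑ j ∈ Finset.range m, ((K j : ℝ) - (ξ * z ^ j).re) ^ 2 ≤ η ^ 2) :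
    ∀ j < m, |(K j : ℝ) - (ξ * z ^ j).re| ≤ η := by
  intro j hj
  apply abs_le_of_sq_le_sq _ hη
  refine le_trans ?_ hK
  exact Finset.single_le_sum (f := fun j => ((K j : ℝ) - (ξ * z ^ j).re) ^ 2)
    (fun i _ => by positivity) (Finset.mem_range.mpr hj)

lemma exists_Q2 (K : ℕ → ℤ) (z ξ : ℂ) (hz : ‖z‖ = 1) (η T : ℝ) (m k n : ℕ) (hT : 1 ≤ T)
    (hξ : ‖ξ‖ ≤ T) (hn : 16 * k * T + 2 ≤ n) (hnk : n ^ 2 < 2 ^ k) (hη : k * η ^ 2 ≤ 1 / 16)
    (hK : ∑ j ∈ Finset.range m, ((K j : ℝ) - (ξ * z ^ j).re) ^ 2 ≤ η ^ 2) :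
    ∃ Q : ℤ[X], Q.Monic ∧ Q.natDegree < k ∧ (∀ i, |Q.coeff i| ≤ 1) ∧
      ∀ j, j + k ≤ m → ∑ i ∈ Finset.range k, Q.coeff i * K (i + j) = 0 := by
  classical
  obtain ⟨S, hS, S', hS', hne, hclose⟩ := pigeon (Finset.range k).powerset
    (fun S => ∑ i ∈ S, z ^ i) k (1 / (8 * T)) (by positivity) (by
      intro S hS
      rw [Finset.mem_powerset] at hS
      calc ‖∑ i ∈ S, z ^ i‖ ≤ ∑ i ∈ S, ‖z ^ i‖ := norm_sum_le _ _
        _ = S.card := by simp [norm_pow, hz]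
        _ ≤ k := by exact_mod_cast (Finset.card_le_card hS).trans_eq (Finset.card_range k)) n
    (by
      have : 2 * (k : ℝ) / (1 / (8 * T)) = 16 * k * T := by field_simp; ring
      rw [this]; exact hn)
    (by rw [Finset.card_powerset, Finset.card_range]; exact hnk)
  rw [Finset.mem_powerset] at hS hS'
  set c : ℕ → ℤ := fun i => (if i ∈ S then 1 else 0) - (if i ∈ S' then 1 else 0) with hc
  have hc1 : ∀ i, |c i| ≤ 1 := by
    intro i; simp only [hc]; split_ifs <;> simp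
  set Q0 : ℤ[X] := ∑ i ∈ Finset.range k, monomial i (c i) with hQ0
  have hcoef : ∀ i, Q0.coeff i = if i < k then c i else 0 := by
    intro i
    rw [hQ0, finsetSum_coeff]
    simp only [coeff_monomial]
    rw [Finset.sum_ite_eq' (Finset.range k) i c]
    simp
  have hQ0c : ∀ i, |Q0.coeff i| ≤ 1 := by
    intro i; rw [hcoef]; split_ifs
    · exact hc1 i
    · simp
  have hQne : Q0 ≠ 0 := by
    intro h0
    apply hne
    ext i
    by_cases hi : i < k
    · have h1 := hcoef i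
      rw [h0, coeff_zero, if_pos hi] at h1
      simp only [hc] at h1
      by_cases a : i ∈ S <;> by_cases b : i ∈ S' <;> simp [a, b] at h1 ⊢
    · constructor
      · intro h; exact absurd (Finset.mem_range.mp (hS h)) hi
      · intro h; exact absurd (Finset.mem_range.mp (hS' h)) hi
  have hk0 : 0 < k := by
    rcases Nat.eq_zero_or_pos k with h | h
    · subst h; simp at hQ0; exact absurd hQ0 hQne
    · exact h
  have hdeg : Q0.natDegree < k := by
    by_contra hcon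
    push Not at hcon
    have h1 := hcoef Q0.natDegree
    rw [if_neg (by omega)] at h1
    exact hQne (leadingCoeff_eq_zero.mp h1)
  have hrec : ∀ j, j + k ≤ m → ∑ i ∈ Finset.range k, c i * K (i + j) = 0 := by
    intro j hj
    have h1 := seq_val2 K z ξ η 1 (1 / 4) m k zero_le_one (by norm_num) hK c
      (fun i => by exact_mod_cast hc1 i) j hj (by norm_num; linarith)
    have h2 : ∑ i ∈ Finset.range k, (c i : ℂ) * z ^ i = ∑ i ∈ S, z ^ i - ∑ i ∈ S', z ^ i := by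
      have e1 : ∀ A ⊆ Finset.range k, ∑ i ∈ A, z ^ i
          = ∑ i ∈ Finset.range k, (if i ∈ A then (1 : ℂ) else 0) * z ^ i := by
        intro A hA
        simp only [ite_mul, one_mul, zero_mul]
        rw [Finset.sum_ite_mem, Finset.inter_eq_right.mpr hA]
      rw [e1 S hS, e1 S' hS', ← Finset.sum_sub_distrib]
      apply Finset.sum_congr rfl
      intro i _
      simp only [hc]
      push_cast
      ring
    rw [h2] at h1
    have h3 : |(ξ * z ^ j * (∑ i ∈ S, z ^ i - ∑ i ∈ S', z ^ i)).re| ≤ 1 / 4 := by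
      refine (Complex.abs_re_le_norm _).trans ?_
      rw [norm_mul, norm_mul, norm_pow, hz, one_pow, mul_one]
      have : (2 : ℝ) * (1 / (8 * T)) = 1 / (4 * T) := by field_simp; ring
      rw [this] at hclose
      calc ‖ξ‖ * _ ≤ T * (1 / (4 * T)) := mul_le_mul hξ hclose.le (norm_nonneg _) (by linarith)
        _ = 1 / 4 := by field_simp
    have h4 : |((∑ i ∈ Finset.range k, c i * K (i + j) : ℤ) : ℝ)| < 1 := by
      have := abs_sub_abs_le_abs_sub ((∑ i ∈ Finset.range k, c i * K (i + j) : ℤ) : ℝ)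
        ((ξ * z ^ j * (∑ i ∈ S, z ^ i - ∑ i ∈ S', z ^ i)).re)
      linarith
    have h6 : |∑ i ∈ Finset.range k, c i * K (i + j)| < 1 := by exact_mod_cast h4
    exact Int.abs_lt_one_iff.mp h6
  have hrecQ0 : ∀ j, j + k ≤ m → ∑ i ∈ Finset.range k, Q0.coeff i * K (i + j) = 0 := by
    intro j hj
    rw [← hrec j hj]
    apply Finset.sum_congr rfl
    intro i hi
    rw [hcoef, if_pos (Finset.mem_range.mp hi)]
  have hlead : Q0.leadingCoeff = 1 ∨ Q0.leadingCoeff = -1 := by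
    have h1 := hQ0c Q0.natDegree
    have h2 : Q0.leadingCoeff ≠ 0 := leadingCoeff_ne_zero.mpr hQne
    rw [Polynomial.leadingCoeff] at *
    rw [abs_le] at h1
    omega
  rcases hlead with hl | hl
  · exact ⟨Q0, hl, hdeg, hQ0c, hrecQ0⟩
  · refine ⟨-Q0, ?_, by rw [natDegree_neg]; exact hdeg, ?_, ?_⟩
    · rw [Monic, leadingCoeff_neg, hl]; norm_num
    · intro i; rw [coeff_neg, abs_neg]; exact hQ0c i
    · intro j hj
      have := hrecQ0 j hj
      simp only [coeff_neg, neg_mul, Finset.sum_neg_distrib, this, neg_zero]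

end Pool.Agent.H777_DPV
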