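import Mathlib

open Polynomial

namespace Pool.Agent.H777_DPV

/-- an auxiliary weight -/
def wt (q : ℕ) : ℝ := (if 2 ∣ q then 4 else 1) * (if 3 ∣ q then 2 else 1)

lemma wt_one_le (q : ℕ) : 1 ≤ wt q := by
  unfold wt; split_ifs <;> norm_num

lemma wt_le (q : ℕ) : wt q ≤ 8 := by
  unfold wt; split_ifs <;> norm_num

lemma wt_mono {q r : ℕ} (h : q ∣ r) : wt q ≤ wt r := by
  unfold wt
  by_cases h2 : 2 ∣ q
  · have h2' : 2 ∣ r := h2.trans h
    by_cases h3 : 3 ∣ q
    · have h3' : 3 ∣ r := h3.trans h
      simp [h2, h2', h3, h3']
    · rw [if_pos h2, if_pos h2', if_neg h3]; split_ifs <;> norm_num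
  · by_cases h3 : 3 ∣ q
    · have h3' : 3 ∣ r := h3.trans h
      rw [if_neg h2, if_pos h3, if_pos h3']; split_ifs <;> norm_num
    · rw [if_neg h2, if_neg h3]; split_ifs <;> norm_num

lemma cyc_bound (z : ℂ) (C : ℝ) (hC0 : 0 ≤ C)
    (hC : ∀ r : ℕ, 1 ≤ r → |Real.log ‖z ^ r - 1‖| ≤ C * (1 + Real.log r))
    (hne : ∀ r : ℕ, 1 ≤ r → z ^ r ≠ 1) : ∀ q : ℕ, 1 ≤ q → ∀ r : ℕ, 1 ≤ r →
    |Real.log ‖eval (z ^ r) (cyclotomic q ℂ)‖| ≤ C * wt q * q.totient * (1 + Real.log r) := by
  have hnz : ∀ q : ℕ, 1 ≤ q → ∀ r : ℕ, 1 ≤ r → eval (z ^ r) (cyclotomic q ℂ) ≠ 0 := by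
    intro q hq r hr h0
    have h1 : (cyclotomic q ℂ) ∣ (X ^ q - 1) := cyclotomic.dvd_X_pow_sub_one q ℂ
    obtain ⟨G, hG⟩ := h1
    have h2 := congrArg (eval (z ^ r)) hG
    rw [eval_mul, h0, zero_mul] at h2
    simp only [eval_sub, eval_pow, eval_X, eval_one] at h2
    rw [← pow_mul, sub_eq_zero] at h2
    exact hne (r * q) (Nat.mul_pos hr hq) h2
  intro q
  induction q using Nat.strong_induction_on with
  | _ q ih =>
    intro hq r hr
    have hlogr : 0 ≤ Real.log r := Real.log_nonneg (by exact_mod_cast hr)
    by_cases hq1 : q = 1
    · subst hq1
      rw [cyclotomic_one]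
      simp only [eval_sub, eval_X, eval_one, Nat.totient_one, Nat.cast_one, mul_one]
      have h1 := hC r hr
      have h2 : wt 1 = 1 := by unfold wt; norm_num
      rw [h2, mul_one]; exact h1
    · set p := q.minFac with hp
      have hpp : p.Prime := Nat.minFac_prime hq1
      obtain ⟨q', hq'⟩ := Nat.minFac_dvd q
      have hq'1 : 1 ≤ q' := by
        rcases Nat.eq_zero_or_pos q' with h | h
        · rw [h, mul_zero] at hq'; omega
        · exact h
      have hlt : q' < q := by
        have := hpp.two_le
        rw [hq']
        nlinarith
      have hqe : q = q' * p := by rw [hq', mul_comm]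
      have hpr : 1 ≤ p * r := Nat.mul_pos hpp.pos hr
      have hp2 : (2 : ℝ) ≤ p := by exact_mod_cast hpp.two_le
      have hlogpr : Real.log ((p * r : ℕ) : ℝ) = Real.log p + Real.log r := by
        push_cast
        rw [Real.log_mul (by positivity) (by
          have : (1 : ℝ) ≤ r := by exact_mod_cast hr
          positivity)]
      have hlogp : Real.log p ≤ p - 1 := Real.log_le_sub_one_of_pos (by linarith)
      have hlogp0 : 0 ≤ Real.log p := Real.log_nonneg (by linarith)
      have ih1 := ih q' hlt hq'1 (p * r) hpr
      have ih2 := ih q' hlt hq'1 r hr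
      rw [hlogpr] at ih1
      set D := C * wt q' * q'.totient with hD
      have hD0 : 0 ≤ D := by
        have := wt_one_le q'
        positivity
      by_cases hdiv : p ∣ q'
      · have e1 : eval (z ^ r) (cyclotomic q ℂ) = eval (z ^ (p * r)) (cyclotomic q' ℂ) := by
          rw [hqe, ← cyclotomic_expand_eq_cyclotomic hpp hdiv ℂ, expand_eval, ← pow_mul, mul_comm r p]
        rw [e1]
        have htot : (q.totient : ℝ) = p * q'.totient := by
          rw [hqe, mul_comm q' p, Nat.totient_mul_of_prime_of_dvd hpp hdiv]; push_cast; ring
        have hw : wt q' ≤ wt q := wt_mono ⟨p, hqe⟩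
        calc _ ≤ D * (1 + (Real.log p + Real.log r)) := ih1
          _ ≤ D * (p * (1 + Real.log r)) := by
              apply mul_le_mul_of_nonneg_left _ hD0
              nlinarith
          _ = C * wt q' * (p * q'.totient) * (1 + Real.log r) := by rw [hD]; ring
          _ ≤ C * wt q * (p * q'.totient) * (1 + Real.log r) := by
              apply mul_le_mul_of_nonneg_right _ (by linarith)
              apply mul_le_mul_of_nonneg_right _ (by positivity)
              exact mul_le_mul_of_nonneg_left hw hC0
          _ = _ := by rw [htot]
      · have e1 : eval (z ^ (p * r)) (cyclotomic q' ℂ)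
            = eval (z ^ r) (cyclotomic q ℂ) * eval (z ^ r) (cyclotomic q' ℂ) := by
          have := cyclotomic_expand_eq_cyclotomic_mul hpp hdiv ℂ
          have h2 := congrArg (eval (z ^ r)) this
          rw [expand_eval, eval_mul, ← pow_mul, mul_comm r p, ← hqe] at h2
          exact h2
        have e2 : Real.log ‖eval (z ^ r) (cyclotomic q ℂ)‖
            = Real.log ‖eval (z ^ (p * r)) (cyclotomic q' ℂ)‖
              - Real.log ‖eval (z ^ r) (cyclotomic q' ℂ)‖ := by
          rw [e1, norm_mul, Real.log_mul (norm_ne_zero_iff.mpr (hnz q hq r hr))
            (norm_ne_zero_iff.mpr (hnz q' hq'1 r hr))]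
          ring
        have htot : (q.totient : ℝ) = (p - 1) * q'.totient := by
          rw [hqe, mul_comm q' p, Nat.totient_mul_of_prime_of_not_dvd hpp hdiv, Nat.cast_mul,
            Nat.cast_sub hpp.one_le]
          push_cast; ring
        rw [e2]
        have key : D * (1 + (Real.log p + Real.log r)) + D * (1 + Real.log r)
            ≤ C * wt q * q.totient * (1 + Real.log r) := by
          rw [htot]
          have hDt : 0 ≤ C * q'.totient := by positivity
          -- reduce to weights
          have hred : wt q' * (2 + Real.log p + 2 * Real.log r)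
              ≤ wt q * (p - 1) * (1 + Real.log r) := by
            have hw1 := wt_one_le q'
            by_cases hp2' : p = 2
            · have hq2 : ¬ 2 ∣ q' := by rw [← hp2']; exact hdiv
              have hw : wt q = 4 * wt q' := by
                have h3 : (3 ∣ q ↔ 3 ∣ q') := by
                  rw [hqe, hp2']
                  constructor
                  · intro h; exact (Nat.Coprime.dvd_of_dvd_mul_right (by norm_num) h)
                  · intro h; exact h.mul_right 2
                have h2 : 2 ∣ q := by rw [hqe, hp2']; exact Dvd.intro_left _ rfl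
                unfold wt
                rw [if_pos h2, if_neg hq2]
                by_cases h3' : 3 ∣ q'
                · rw [if_pos h3', if_pos (h3.mpr h3')]; ring
                · rw [if_neg h3', if_neg (fun h => h3' (h3.mp h))]; ring
              have hpr2 : (p : ℝ) = 2 := by exact_mod_cast hp2'
              rw [hw, hpr2]
              have hl2 : Real.log 2 ≤ 1 := by
                have := Real.log_le_sub_one_of_pos (by norm_num : (0:ℝ) < 2); linarith
              nlinarith
            · by_cases hp3' : p = 3
              · have hq3 : ¬ 3 ∣ q' := by rw [← hp3']; exact hdiv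
                have hw : wt q = 2 * wt q' := by
                  have h2 : (2 ∣ q ↔ 2 ∣ q') := by
                    rw [hqe, hp3']
                    constructor
                    · intro h; exact (Nat.Coprime.dvd_of_dvd_mul_right (by norm_num) h)
                    · intro h; exact h.mul_right 3
                  have h3 : 3 ∣ q := by rw [hqe, hp3']; exact Dvd.intro_left _ rfl
                  unfold wt
                  rw [if_pos h3, if_neg hq3]
                  by_cases h2' : 2 ∣ q'
                  · rw [if_pos h2', if_pos (h2.mpr h2')]; ring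
                  · rw [if_neg h2', if_neg (fun h => h2' (h2.mp h))]; ring
                have hpr3 : (p : ℝ) = 3 := by exact_mod_cast hp3'
                rw [hw, hpr3]
                have hl3 : Real.log 3 ≤ 2 := by
                  have := Real.log_le_sub_one_of_pos (by norm_num : (0:ℝ) < 3); linarith
                nlinarith
              · have hp5 : 5 ≤ p := by
                  have h2 := hpp.two_le
                  have h4 : p ≠ 4 := by
                    intro h4; rw [h4] at hpp; norm_num at hpp
                  omega
                have hp5' : (5 : ℝ) ≤ p := by exact_mod_cast hp5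
                have hw : wt q' ≤ wt q := wt_mono ⟨p, hqe⟩
                have hlog : Real.log p ≤ p / 4 + 1 / 2 := by
                  have h1 : Real.log (p : ℝ) = Real.log (p / 4) + (Real.log 2 + Real.log 2) := by
                    rw [← Real.log_mul (by norm_num) (by norm_num),
                      ← Real.log_mul (by positivity) (by norm_num)]; congr 1; ring
                  have h2 := Real.log_le_sub_one_of_pos (by linarith : (0:ℝ) < p / 4)
                  have h3 := Real.log_two_lt_d9
                  linarith
                have h6 : 2 + Real.log p + 2 * Real.log r ≤ (p - 1) * (1 + Real.log r) := by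
                  nlinarith
                calc wt q' * (2 + Real.log p + 2 * Real.log r)
                    ≤ wt q' * ((p - 1) * (1 + Real.log r)) :=
                      mul_le_mul_of_nonneg_left h6 (by linarith)
                  _ ≤ wt q * ((p - 1) * (1 + Real.log r)) :=
                      mul_le_mul_of_nonneg_right hw (by
                        apply mul_nonneg <;> linarith)
                  _ = _ := by ring
          calc _ = (C * q'.totient) * (wt q' * (2 + Real.log p + 2 * Real.log r)) := by
                rw [hD]; ring
            _ ≤ (C * q'.totient) * (wt q * (p - 1) * (1 + Real.log r)) :=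
                mul_le_mul_of_nonneg_left hred hDt
            _ = _ := by ring
        calc _ ≤ |Real.log ‖eval (z ^ (p * r)) (cyclotomic q' ℂ)‖|
              + |Real.log ‖eval (z ^ r) (cyclotomic q' ℂ)‖| := abs_sub _ _
          _ ≤ D * (1 + (Real.log p + Real.log r)) + D * (1 + Real.log r) := add_le_add ih1 ih2
          _ ≤ _ := key

end Pool.Agent.H777_DPV
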