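import Pool.Agent.H777_DPV.Cyc

open Polynomial

namespace Pool.Agent.H777_DPV

lemma cyc_prod (z : ℂ) (hz : ‖z‖ = 1) (δ : ℝ) (hδ0 : 0 < δ) (hδ1 : δ ≤ 1)
    (hcyc : ∀ q : ℕ, 1 ≤ q → δ ^ q.totient ≤ ‖eval z (cyclotomic q ℂ)‖) :
    ∀ n : ℕ, ∀ F : ℚ[X], F.natDegree = n → F.Monic →
      (∀ α : ℂ, (F.map (algebraMap ℚ ℂ)).IsRoot α → α = 0 ∨ ∃ k, 1 ≤ k ∧ α ^ k = 1) →
      δ ^ n ≤ ‖eval z (F.map (algebraMap ℚ ℂ))‖ := by
  intro n
  induction n using Nat.strong_induction_on with
  | _ n ih =>
    intro F hFn hF hroots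
    by_cases hn : n = 0
    · subst hn
      have : F = 1 := hF.natDegree_eq_zero.mp hFn
      subst this
      simp
    · have hFC : (F.map (algebraMap ℚ ℂ)).Monic := hF.map _
      have hdeg : (F.map (algebraMap ℚ ℂ)).natDegree = n := by
        rw [hF.natDegree_map]; exact hFn
      obtain ⟨α, hα⟩ := IsAlgClosed.exists_root (F.map (algebraMap ℚ ℂ)) (by
        intro h
        have h2 := natDegree_eq_zero_iff_degree_le_zero.mpr h.le
        rw [hdeg] at h2
        exact hn h2)
      -- a monic factor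
      have main : ∀ A : ℚ[X], A.Monic → 1 ≤ A.natDegree → A ∣ F →
          δ ^ A.natDegree ≤ ‖eval z (A.map (algebraMap ℚ ℂ))‖ →
          δ ^ n ≤ ‖eval z (F.map (algebraMap ℚ ℂ))‖ := by
        intro A hA hA1 hdvd hAδ
        obtain ⟨G, hG⟩ := hdvd
        have hGm : G.Monic := by
          rw [hG] at hF
          exact hA.of_mul_monic_left hF
        have hnd : n = A.natDegree + G.natDegree := by
          rw [← hFn, hG, hA.natDegree_mul hGm]
        have hGr : ∀ β : ℂ, (G.map (algebraMap ℚ ℂ)).IsRoot β → β = 0 ∨ ∃ k, 1 ≤ k ∧ β ^ k = 1 := by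
          intro β hβ
          apply hroots
          rw [hG, Polynomial.map_mul, IsRoot.def, eval_mul, hβ.eq_zero, mul_zero]
        have h1 := ih G.natDegree (by omega) G rfl hGm hGr
        rw [hG, Polynomial.map_mul, eval_mul, norm_mul, hnd, pow_add]
        exact mul_le_mul hAδ h1 (by positivity) (norm_nonneg _)
      rcases hroots α hα with h0 | ⟨k, hk1, hk⟩
      · subst h0
        apply main X monic_X (by simp)
        · rw [X_dvd_iff]
          have h2 : (F.map (algebraMap ℚ ℂ)).coeff 0 = 0 := by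
            rw [coeff_zero_eq_eval_zero]; exact hα.eq_zero
          rw [coeff_map] at h2
          exact (map_eq_zero (algebraMap ℚ ℂ)).mp h2
        · simp [hz, hδ1]
      · have hfin : IsOfFinOrder α := isOfFinOrder_iff_pow_eq_one.mpr ⟨k, by omega, hk⟩
        have hq0 : 0 < orderOf α := hfin.orderOf_pos
        have hprim : IsPrimitiveRoot α (orderOf α) := IsPrimitiveRoot.orderOf α
        apply main (cyclotomic (orderOf α) ℚ) (cyclotomic.monic _ _)
        · rw [natDegree_cyclotomic]; exact Nat.totient_pos.mpr hq0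
        · rw [cyclotomic_eq_minpoly_rat hprim hq0]
          apply minpoly.dvd
          rw [aeval_def, eval₂_eq_eval_map]
          exact hα.eq_zero
        · rw [natDegree_cyclotomic, map_cyclotomic]
          exact hcyc _ hq0

end Pool.Agent.H777_DPV
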