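import Pool.Agent.H777_DPV.C2
import Pool.Agent.H777_DPV.Cyc2

open Polynomial Finset

namespace Pool.Agent.H777_DPV

/-- There is no nontrivial integer sequence that stays close to `Re (ξ z ^ j)` on a long
interval, if `z` is not too close to roots of unity of small order. -/
theorem dual2 (z : ℂ) (hz : ‖z‖ = 1) (him : 0 < |z.im|) (k s Y m Λ n : ℕ) (T η δ : ℝ)
    (hT : 1 ≤ T) (hk2 : 2 ≤ k) (hη0 : 0 ≤ η) (hn : 16 * k * T + 2 ≤ n) (hnk : n ^ 2 < 2 ^ k)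
    (hηk : k * η ^ 2 ≤ 1 / 16) (hs : T ≤ 2 ^ s / 4) (P : Finset ℕ)
    (hP : ∀ p ∈ P, p.Prime ∧ 2 * k ≤ p ∧ p ≤ Y) (hPc : s + k ≤ P.card)
    (hm : s * (k * Y) + 3 * k + 2 ≤ m) (hδ0 : 0 < δ) (hδ1 : δ ≤ 1)
    (hcyc : ∀ q : ℕ, 1 ≤ q → δ ^ q.totient ≤ ‖eval z (cyclotomic q ℂ)‖) (hΛ1 : 1 ≤ Λ)
    (hΛ : (24 / |z.im| ^ 2) ^ 2 * (2 / δ) ^ 4 < Λ + 1) (hηΛ : k * Λ ^ 2 * η ^ 2 ≤ 1 / 4)
    (ξ : ℂ) (hξ : ‖ξ‖ ≤ T) (K : ℕ → ℤ)
    (hK2 : ∑ j ∈ Finset.range m, ((K j : ℝ) - (ξ * z ^ j).re) ^ 2 ≤ η ^ 2) :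
    K 0 = 0 ∧ K 1 = 0 := by
  classical
  by_contra hcon
  have hK := pointwise K z ξ η hη0 m hK2
  have hη4 : η ≤ 1 / 4 := by
    have : (2 : ℝ) ≤ k := by exact_mod_cast hk2
    apply le_of_sq_le_sq _ (by norm_num)
    nlinarith [sq_nonneg η]
  have him1 : |z.im| ≤ 1 := by rw [← hz]; exact Complex.abs_im_le_norm z
  -- lower bound for ξ
  have hξlow : 3 / 4 ≤ ‖ξ‖ := by
    have aux : ∀ j < m, K j ≠ 0 → 3 / 4 ≤ ‖ξ‖ := by
      intro j hj hKj
      have h1 : (1 : ℝ) ≤ |(K j : ℝ)| := by exact_mod_cast Int.one_le_abs hKj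
      have h2 := hK j hj
      have h3 : |(ξ * z ^ j).re| ≤ ‖ξ‖ := by
        refine (Complex.abs_re_le_norm _).trans ?_
        rw [norm_mul, norm_pow, hz, one_pow, mul_one]
      have h4 := abs_sub_abs_le_abs_sub (K j : ℝ) ((ξ * z ^ j).re)
      linarith
    by_cases h0 : K 0 = 0
    · have h1 : K 1 ≠ 0 := fun h => hcon ⟨h0, h⟩
      exact aux 1 (by omega) h1
    · exact aux 0 (by omega) h0
  obtain ⟨Q, hQ, hQd, hQc, hrec⟩ := exists_Q2 K z ξ hz η T m k n hT hξ hn hnk hηk hK2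
  obtain ⟨φ, hφ, hφX⟩ := exists_phi K Q hQ k m hQd hrec
  have happ : ∀ j < m - k, |((φ (X ^ j) : ℤ) : ℝ) - (ξ * z ^ j).re| ≤ η := by
    intro j hj
    rw [hφX j (by omega)]
    exact hK j (by omega)
  have hzero : ∀ S ⊆ P, S.card = s → ∀ G, φ ((∏ p ∈ S, Rp Q p) * G) = 0 := by
    intro S hS hSc
    apply vanish φ Q hQ hφ _ k hQd.le
    intro j hj
    obtain ⟨ξ', hξ', hW⟩ := approx_prod φ Q k Y (m - k) hQd hQc hφ z ξ hz η happ S
      (fun p hp => hP p (hS hp))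
    have h1 := hW j (by rw [hSc]; omega)
    rw [hSc] at h1 hξ'
    have h2s : (0 : ℝ) < 2 ^ s := by positivity
    have h2 : ‖ξ‖ / 2 ^ s ≤ 1 / 4 := by
      rw [div_le_iff₀ h2s]; linarith
    have h3 : η / 2 ^ s ≤ 1 / 4 := by
      rw [div_le_iff₀ h2s]
      have : (1 : ℝ) ≤ 2 ^ s := one_le_pow₀ (by norm_num)
      nlinarith
    have h4 : |(ξ' * z ^ j).re| ≤ ‖ξ'‖ := by
      refine (Complex.abs_re_le_norm _).trans ?_
      rw [norm_mul, norm_pow, hz, one_pow, mul_one]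
    have h5 := abs_sub_abs_le_abs_sub (((φ ((∏ p ∈ S, Rp Q p) * X ^ j) : ℤ) : ℝ))
      ((ξ' * z ^ j).re)
    have h6 : |((φ ((∏ p ∈ S, Rp Q p) * X ^ j) : ℤ) : ℝ)| < 1 := by linarith
    have h7 : |φ ((∏ p ∈ S, Rp Q p) * X ^ j)| < 1 := by exact_mod_cast h6
    exact Int.abs_lt_one_iff.mp h7
  -- the generator of the annihilator over the rationals
  set annQ : Ideal ℚ[X] := Ideal.comap (Polynomial.mapRingHom (algebraMap ℚ ℂ)) (ann φ) with hannQ
  have hmemQ : ∀ A : ℚ[X], A ∈ annQ ↔ A.map (algebraMap ℚ ℂ) ∈ ann φ := fun A => Iff.rfl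
  have hmapQ : ∀ A : ℤ[X], (A.map (Int.castRingHom ℚ)).map (algebraMap ℚ ℂ)
      = A.map (Int.castRingHom ℂ) := by
    intro A
    rw [Polynomial.map_map]
    congr 1
  have hQm : (Q.map (Int.castRingHom ℚ)).Monic := hQ.map _
  have hQmem : Q.map (Int.castRingHom ℚ) ∈ annQ := by
    rw [hmemQ, hmapQ]; exact map_mem_ann φ Q hφ
  set F0 : ℚ[X] := Submodule.IsPrincipal.generator annQ with hF0def
  have hF0mem : F0 ∈ annQ := Submodule.IsPrincipal.generator_mem _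
  have hF0dvd : ∀ G ∈ annQ, F0 ∣ G := fun G hG =>
    (Submodule.IsPrincipal.mem_iff_generator_dvd _).mp hG
  have hF00 : F0 ≠ 0 := by
    intro h0
    have := hF0dvd _ hQmem
    rw [h0, zero_dvd_iff] at this
    exact hQm.ne_zero this
  set F : ℚ[X] := F0 * C (F0.leadingCoeff⁻¹) with hFdef
  have hFmonic : F.Monic := monic_mul_leadingCoeff_inv hF00
  have hFmem : F ∈ annQ := Ideal.mul_mem_right _ _ hF0mem
  have hlc : F0.leadingCoeff⁻¹ ≠ 0 := inv_ne_zero (leadingCoeff_ne_zero.mpr hF00)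
  have hFdvd : ∀ G ∈ annQ, F ∣ G := by
    intro G hG
    have hu : IsUnit (C (F0.leadingCoeff⁻¹)) := isUnit_C.mpr (isUnit_iff_ne_zero.mpr hlc)
    exact (hu.mul_right_dvd).mpr (hF0dvd G hG)
  set FC : ℂ[X] := F.map (algebraMap ℚ ℂ) with hFC
  have hFCmonic : FC.Monic := hFmonic.map _
  have hFCmem : FC ∈ ann φ := hFmem
  set M := FC.roots with hM
  have hcardM : Multiset.card M = FC.natDegree :=
    (IsAlgClosed.splits FC).natDegree_eq_card_roots.symm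
  have hnatF : FC.natDegree = F.natDegree := hFmonic.natDegree_map _
  have hprodM : (M.map (fun a => X - C a)).prod = FC :=
    ((IsAlgClosed.splits FC).eq_prod_roots_of_monic hFCmonic).symm
  have hprodmem : (M.map (fun a => X - C a)).prod ∈ ann φ := by rw [hprodM]; exact hFCmem
  set d := Multiset.card M with hd
  have hd1 : 1 ≤ d := by
    by_contra h0
    have h00 : d = 0 := by omega
    have hM0 : M = 0 := Multiset.card_eq_zero.mp h00
    rw [hM0] at hprodmem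
    simp only [Multiset.map_zero, Multiset.prod_zero] at hprodmem
    have h1 : ∀ j, φ (X ^ j) = 0 := by
      intro j
      have := (mem_ann_iff φ 1).mp hprodmem (X ^ j)
      rw [one_mul, phiC_X_pow] at this
      exact_mod_cast this
    apply hcon
    rw [← hφX 0 (by omega), ← hφX 1 (by omega)]
    exact ⟨h1 0, h1 1⟩
  have hdk : d < k := by
    rw [hcardM, hnatF]
    calc F.natDegree ≤ (Q.map (Int.castRingHom ℚ)).natDegree :=
          natDegree_le_of_dvd (hFdvd _ hQmem) hQm.ne_zero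
      _ ≤ Q.natDegree := natDegree_map_le
      _ < k := hQd
  have hFdvdC : ∀ A : ℤ[X], (∀ G, φ (A * G) = 0) → FC ∣ A.map (Int.castRingHom ℂ) := by
    intro A hA
    have h1 : A.map (Int.castRingHom ℚ) ∈ annQ := by
      rw [hmemQ, hmapQ]; exact map_mem_ann φ A hA
    have h2 := Polynomial.map_dvd (algebraMap ℚ ℂ) (hFdvd _ h1)
    rw [hmapQ] at h2
    exact h2
  have hroots : ∀ a : ℂ, FC.IsRoot a → a = 0 ∨ ∃ n, 1 ≤ n ∧ a ^ n = 1 := by
    intro a ha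
    rcases roots_of_unity φ Q hQ k s Y hQd hφ P hP hPc hzero FC (hFdvdC Q hφ) hFdvdC a ha with
      h | ⟨n, hn1, _, hn⟩
    · exact Or.inl h
    · exact Or.inr ⟨n, hn1, hn⟩
  have hrn : ∀ a ∈ M, ‖a‖ ≤ 1 := by
    intro a ha
    rcases hroots a ((mem_roots hFCmonic.ne_zero).mp ha) with h | ⟨n, hn1, hn⟩
    · rw [h]; simp
    · have : ‖a‖ ^ n = 1 := by rw [← norm_pow, hn, norm_one]
      exact ((pow_eq_one_iff_of_nonneg (norm_nonneg _) (by omega)).mp this).le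
  have hlow : δ ^ d ≤ ‖eval z (M.map (fun a => X - C a)).prod‖ := by
    rw [hprodM, hcardM, hnatF]
    exact cyc_prod z hz δ hδ0 hδ1 hcyc _ F rfl hFmonic hroots
  have hup := xi_upper φ z ξ hz η δ hδ0 (m - k) happ M hrn (by omega) hlow hprodmem
  rw [← hd] at hup
  -- pigeonhole
  have hdR : (1 : ℝ) ≤ d := by exact_mod_cast hd1
  have hΛR : (1 : ℝ) ≤ Λ := by exact_mod_cast hΛ1
  have hdkR : (d : ℝ) ≤ k := by exact_mod_cast hdk.le
  have hξ0 : 0 < ‖ξ‖ := by linarith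
  set N := ⌈8 * (d : ℝ) * Λ * ‖ξ‖ + 2⌉₊ with hN
  have hN1 : 8 * (d : ℝ) * Λ * ‖ξ‖ + 2 ≤ N := Nat.le_ceil _
  have hdΛ : (1 : ℝ) ≤ d * Λ := by nlinarith
  have hN2 : (N : ℝ) ≤ 12 * (d * Λ * ‖ξ‖) := by
    have h1 : (N : ℝ) < 8 * (d : ℝ) * Λ * ‖ξ‖ + 2 + 1 := Nat.ceil_lt_add_one (by positivity)
    have h2 : 3 ≤ 4 * (d * Λ * ‖ξ‖) := by nlinarith
    linarith
  have hcard : N ^ 2 < (Finset.univ : Finset (Fin d → Fin (Λ + 1))).card := by
    rw [Finset.card_univ, Fintype.card_fun, Fintype.card_fin, Fintype.card_fin]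
    set g : ℝ := (2 / δ) ^ d with hg
    have hg0 : 0 < g := by positivity
    have h1 : ‖ξ‖ * |z.im| ≤ 2 * η * g := hup
    have h1a : 3 / 4 * |z.im| ≤ 2 * η * g :=
      le_trans (mul_le_mul_of_nonneg_right hξlow him.le) h1
    have h1b : (3 / 4 * |z.im|) ^ 2 ≤ (2 * η * g) ^ 2 :=
      pow_le_pow_left₀ (by positivity) h1a 2
    have hkim : (k : ℝ) * |z.im| ^ 2 ≤ 2 * g ^ 2 := by
      have a0 : 9 / 16 * |z.im| ^ 2 ≤ 4 * η ^ 2 * g ^ 2 := by
        calc 9 / 16 * |z.im| ^ 2 = (3 / 4 * |z.im|) ^ 2 := by ring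
          _ ≤ (2 * η * g) ^ 2 := h1b
          _ = 4 * η ^ 2 * g ^ 2 := by ring
      have a1 : (k : ℝ) * (9 / 16 * |z.im| ^ 2) ≤ k * (4 * η ^ 2 * g ^ 2) :=
        mul_le_mul_of_nonneg_left a0 (by positivity)
      have a2 : (k : ℝ) * η ^ 2 ≤ 1 / 4 := by
        have : (k : ℝ) * η ^ 2 * 1 ≤ k * η ^ 2 * Λ ^ 2 :=
          mul_le_mul_of_nonneg_left (one_le_pow₀ hΛR) (by positivity)
        have e : (k : ℝ) * η ^ 2 * Λ ^ 2 = k * Λ ^ 2 * η ^ 2 := by ring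
        linarith
      have a3 : (k : ℝ) * (4 * η ^ 2 * g ^ 2) ≤ g ^ 2 := by
        calc _ = (k * η ^ 2) * (4 * g ^ 2) := by ring
          _ ≤ (1 / 4) * (4 * g ^ 2) := mul_le_mul_of_nonneg_right a2 (by positivity)
          _ = g ^ 2 := by ring
      have a4 : 0 ≤ g ^ 2 := by positivity
      have a5 : (k : ℝ) * (9 / 16 * |z.im| ^ 2) = 9 / 16 * (k * |z.im| ^ 2) := by ring
      linarith
    have hB : (d * Λ * ‖ξ‖) ^ 2 * |z.im| ^ 4 ≤ 2 * g ^ 4 := by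
      have b1 : (‖ξ‖ * |z.im|) ^ 2 ≤ (2 * η * g) ^ 2 := pow_le_pow_left₀ (by positivity) h1 2
      have b2 : (d : ℝ) ^ 2 ≤ (k : ℝ) ^ 2 := pow_le_pow_left₀ (by linarith) hdkR 2
      calc (d * Λ * ‖ξ‖) ^ 2 * |z.im| ^ 4
          = ((d : ℝ) ^ 2 * Λ ^ 2) * (‖ξ‖ * |z.im|) ^ 2 * |z.im| ^ 2 := by ring
        _ ≤ ((k : ℝ) ^ 2 * Λ ^ 2) * (2 * η * g) ^ 2 * |z.im| ^ 2 := by
            apply mul_le_mul_of_nonneg_right _ (by positivity)
            apply mul_le_mul (mul_le_mul_of_nonneg_right b2 (by positivity)) b1 (by positivity)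
              (by positivity)
        _ = (k * Λ ^ 2 * η ^ 2) * (4 * g ^ 2) * (k * |z.im| ^ 2) := by ring
        _ ≤ (1 / 4) * (4 * g ^ 2) * (2 * g ^ 2) := by
            apply mul_le_mul _ hkim (by positivity) (by positivity)
            exact mul_le_mul_of_nonneg_right hηΛ (by positivity)
        _ = 2 * g ^ 4 := by ring
    have h3 : (N : ℝ) ^ 2 ≤ (24 / |z.im| ^ 2) ^ 2 * ((2 / δ) ^ 4) ^ d := by
      have c1 : (N : ℝ) ^ 2 ≤ (12 * (d * Λ * ‖ξ‖)) ^ 2 := pow_le_pow_left₀ (by positivity) hN2 2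
      have c2 : ((2 / δ) ^ 4) ^ d = g ^ 4 := by rw [hg, ← pow_mul, ← pow_mul, mul_comm]
      rw [c2, div_pow, div_mul_eq_mul_div, le_div_iff₀ (by positivity)]
      have c3 : 0 ≤ g ^ 4 := by positivity
      calc (N : ℝ) ^ 2 * (|z.im| ^ 2) ^ 2
          ≤ (12 * (d * Λ * ‖ξ‖)) ^ 2 * (|z.im| ^ 2) ^ 2 :=
            mul_le_mul_of_nonneg_right c1 (by positivity)
        _ = 144 * ((d * Λ * ‖ξ‖) ^ 2 * |z.im| ^ 4) := by ring
        _ ≤ 144 * (2 * g ^ 4) := by linarith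
        _ ≤ 24 ^ 2 * g ^ 4 := by linarith
    have h4 : (24 / |z.im| ^ 2) ^ 2 * ((2 / δ) ^ 4) ^ d
        ≤ ((24 / |z.im| ^ 2) ^ 2 * (2 / δ) ^ 4) ^ d := by
      rw [mul_pow ((24 / |z.im| ^ 2) ^ 2)]
      apply mul_le_mul_of_nonneg_right _ (by positivity)
      have h5 : (1 : ℝ) ≤ (24 / |z.im| ^ 2) ^ 2 := by
        apply one_le_pow₀
        rw [le_div_iff₀ (by positivity)]
        have : |z.im| ^ 2 ≤ 1 := pow_le_one₀ him.le him1
        linarith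
      exact le_self_pow₀ h5 (by omega)
    have h6 : ((24 / |z.im| ^ 2) ^ 2 * (2 / δ) ^ 4) ^ d < ((Λ : ℝ) + 1) ^ d :=
      pow_lt_pow_left₀ hΛ (by positivity) (by omega)
    have h7 : (N : ℝ) ^ 2 < ((Λ : ℝ) + 1) ^ d := by linarith
    exact_mod_cast h7
  obtain ⟨c, _, c', _, hcc, hclose⟩ := pigeon (Finset.univ : Finset (Fin d → Fin (Λ + 1)))
    (fun c => ∑ i : Fin d, ((c i : ℕ) : ℂ) * z ^ (i : ℕ)) (d * Λ) (1 / (4 * ‖ξ‖)) (by positivity)
    (by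
      intro c _
      calc ‖∑ i : Fin d, ((c i : ℕ) : ℂ) * z ^ (i : ℕ)‖
          ≤ ∑ i : Fin d, ‖((c i : ℕ) : ℂ) * z ^ (i : ℕ)‖ := norm_sum_le _ _
        _ ≤ ∑ i : Fin d, (Λ : ℝ) := by
            apply Finset.sum_le_sum
            intro i _
            rw [norm_mul, norm_pow, hz, one_pow, mul_one, Complex.norm_natCast]
            have := (c i).is_lt
            exact_mod_cast Nat.lt_succ_iff.mp this
        _ = d * Λ := by simp) N
    (by
      have : 2 * ((d : ℝ) * Λ) / (1 / (4 * ‖ξ‖)) = 8 * d * Λ * ‖ξ‖ := by field_simp; ring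
      rw [this]; exact hN1) hcard
  set e : ℕ → ℤ := fun i => if h : i < d then ((c ⟨i, h⟩ : ℕ) : ℤ) - ((c' ⟨i, h⟩ : ℕ) : ℤ) else 0
    with he
  have heΛ : ∀ i, |(e i : ℝ)| ≤ Λ := by
    intro i
    simp only [he]
    split_ifs with h
    · have h1 := (c ⟨i, h⟩).is_lt
      have h2 := (c' ⟨i, h⟩).is_lt
      have : |((c ⟨i, h⟩ : ℕ) : ℤ) - ((c' ⟨i, h⟩ : ℕ) : ℤ)| ≤ (Λ : ℤ) := by
        rw [abs_le]; constructor <;> omega
      exact_mod_cast this
    · simp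
  set G : ℤ[X] := ∑ i ∈ Finset.range d, monomial i (e i) with hG
  have hGcoef : ∀ i, G.coeff i = e i := by
    intro i
    rw [hG, finsetSum_coeff]
    simp only [coeff_monomial]
    rw [Finset.sum_ite_eq' (Finset.range d) i e]
    split_ifs with h
    · rfl
    · rw [Finset.mem_range] at h
      simp only [he]; rw [dif_neg h]
  have hGne : G ≠ 0 := by
    intro h0
    apply hcc
    funext i
    have h1 := hGcoef i
    rw [h0, coeff_zero] at h1
    simp only [he] at h1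
    rw [dif_pos i.is_lt] at h1
    apply Fin.ext
    simp only [Fin.eta] at h1
    omega
  have hGdeg : G.natDegree < d := by
    by_contra hc
    push Not at hc
    have h1 := hGcoef G.natDegree
    simp only [he] at h1
    rw [dif_neg (by omega)] at h1
    exact hGne (leadingCoeff_eq_zero.mp h1)
  have hinj : Function.Injective (Int.castRingHom ℚ) := by
    intro a b hab; simpa using hab
  have hGnot : G.map (Int.castRingHom ℂ) ∉ ann φ := by
    intro hmem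
    have hmem' : G.map (Int.castRingHom ℚ) ∈ annQ := by rw [hmemQ, hmapQ]; exact hmem
    have h1 := natDegree_le_of_dvd (hFdvd _ hmem') (by
      rw [Ne, Polynomial.map_eq_zero_iff hinj]; exact hGne)
    rw [natDegree_map_eq_of_injective hinj, ← hnatF, ← hcardM] at h1
    omega
  obtain ⟨j, hjk, hj⟩ := exists_ne_of_not_mem φ Q hQ hφ k hQd.le G hGnot
  apply hj
  have hφG : φ (G * X ^ j) = ∑ i ∈ Finset.range d, e i * φ (X ^ (i + j)) := by
    rw [hG, Finset.sum_mul, map_sum]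
    apply Finset.sum_congr rfl
    intro i _
    have : monomial i (e i) * X ^ j = (e i) • (X ^ (i + j) : ℤ[X]) := by
      rw [← C_mul_X_pow_eq_monomial, smul_eq_C_mul, pow_add]; ring
    rw [this, map_smul, smul_eq_mul]
  have hφ2 : ∑ i ∈ Finset.range (m - k), (((φ (X ^ i) : ℤ) : ℝ) - (ξ * z ^ i).re) ^ 2
      ≤ η ^ 2 := by
    have e0 : ∑ i ∈ Finset.range (m - k), (((φ (X ^ i) : ℤ) : ℝ) - (ξ * z ^ i).re) ^ 2
        = ∑ i ∈ Finset.range (m - k), ((K i : ℝ) - (ξ * z ^ i).re) ^ 2 := by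
      apply Finset.sum_congr rfl
      intro i hi
      rw [Finset.mem_range] at hi
      rw [hφX i (by omega)]
    rw [e0]
    exact le_trans (Finset.sum_le_sum_of_subset_of_nonneg
      (Finset.range_mono (Nat.sub_le m k)) (fun i _ _ => by positivity)) hK2
  have hval := seq_val2 (fun i => φ (X ^ i)) z ξ η Λ (1 / 2) (m - k) d (by linarith)
    (by norm_num) hφ2 e heΛ j (by omega) (by
      calc (d : ℝ) * Λ ^ 2 * η ^ 2 ≤ k * Λ ^ 2 * η ^ 2 := by
            apply mul_le_mul_of_nonneg_right _ (by positivity)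
            exact mul_le_mul_of_nonneg_right hdkR (by positivity)
        _ ≤ (1 / 2) ^ 2 := by linarith)
  rw [← hφG] at hval
  have hval2 : ∑ i ∈ Finset.range d, (e i : ℂ) * z ^ i
      = ∑ i : Fin d, ((c i : ℕ) : ℂ) * z ^ (i : ℕ) - ∑ i : Fin d, ((c' i : ℕ) : ℂ) * z ^ (i : ℕ) := by
    rw [← Finset.sum_sub_distrib, Finset.sum_range]
    apply Finset.sum_congr rfl
    intro i _
    simp only [he]
    rw [dif_pos i.is_lt]
    push_cast
    ring
  rw [hval2] at hval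
  have h3 : |(ξ * z ^ j * (∑ i : Fin d, ((c i : ℕ) : ℂ) * z ^ (i : ℕ)
      - ∑ i : Fin d, ((c' i : ℕ) : ℂ) * z ^ (i : ℕ))).re| < 1 / 2 := by
    refine lt_of_le_of_lt (Complex.abs_re_le_norm _) ?_
    rw [norm_mul, norm_mul, norm_pow, hz, one_pow, mul_one]
    have : (2 : ℝ) * (1 / (4 * ‖ξ‖)) = 1 / (2 * ‖ξ‖) := by field_simp; ring
    rw [this] at hclose
    calc ‖ξ‖ * _ < ‖ξ‖ * (1 / (2 * ‖ξ‖)) := mul_lt_mul_of_pos_left hclose hξ0
      _ = 1 / 2 := by field_simp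
  have h5 := abs_sub_abs_le_abs_sub (((φ (G * X ^ j) : ℤ) : ℝ))
    ((ξ * z ^ j * (∑ i : Fin d, ((c i : ℕ) : ℂ) * z ^ (i : ℕ)
      - ∑ i : Fin d, ((c' i : ℕ) : ℂ) * z ^ (i : ℕ))).re)
  have h6 : |((φ (G * X ^ j) : ℤ) : ℝ)| < 1 := by linarith
  have h7 : |φ (G * X ^ j)| < 1 := by exact_mod_cast h6
  exact Int.abs_lt_one_iff.mp h7

end Pool.Agent.H777_DPV
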