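import Mathlib

open Finset Filter

namespace Pool.Agent.H777_DPV

/-- Condition (D.C.-`m`) for the angle `θ`. -/
def DC (m θ : ℝ) : Prop :=
  ∀ᶠ q : ℕ in atTop, ∀ p : ℤ, (q : ℝ) ^ (-m) ≤ |θ - 2 * Real.pi * p / q|

/-- The set `S_n(θ)` of logarithms (imaginary part in `[0, 2π)`) of the nonzero values at
`z = exp(iθ)` of the integer polynomials of weight at most `n`. -/
def logs (n : ℕ) (θ : ℝ) : Set ℂ :=
  {s | 0 ≤ s.im ∧ s.im < 2 * Real.pi ∧ ∃ D : ℕ, ∃ c : ℕ → ℤ,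
    ∑ j ∈ range (D + 1), (1 + |c j|) ≤ (n : ℤ) ∧
    Complex.exp s = ∑ j ∈ range (D + 1), (c j : ℂ) * Complex.exp (Complex.I * θ) ^ j}

/-- Property `DPV(n, R)` of the angle `θ`. -/
def DPV (n : ℕ) (R θ : ℝ) : Prop :=
  ∀ w : ℂ, -Real.log R ≤ w.re → w.re ≤ 0 → 0 ≤ w.im → w.im ≤ 2 * Real.pi →
    ∃ s ∈ logs n θ, ‖w - s‖ ≤ 1 / 10

/-- The quantity `R_DPV(n, θ)`, as an extended real number. -/
noncomputable def RDPV (n : ℕ) (θ : ℝ) : EReal :=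
  sSup ((fun R : ℝ => (R : EReal)) '' {R : ℝ | 0 < R ∧ DPV n R θ})

end Pool.Agent.H777_DPV
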