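import Mathlib

open Finset

namespace Pool.Agent.H777_DPV

noncomputable section

/-- coordinates with respect to the basis `1, z` -/
def t2 (z w : ℂ) : ℝ := w.im / z.im
def t1 (z w : ℂ) : ℝ := w.re - t2 z w * z.re

lemma coord (z w : ℂ) (hz : z.im ≠ 0) : ((t1 z w : ℝ) : ℂ) + ((t2 z w : ℝ) : ℂ) * z = w := by
  unfold t1 t2
  apply Complex.ext
  · simp
  · simp; field_simp

lemma t2_add (z w w' : ℂ) : t2 z (w + w') = t2 z w + t2 z w' := by
  unfold t2; rw [Complex.add_im]; ring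
lemma t1_add (z w w' : ℂ) : t1 z (w + w') = t1 z w + t1 z w' := by
  unfold t1; rw [t2_add, Complex.add_re]; ring

/-- the character with frequency `(a, b)` -/
def ch (z : ℂ) (a b : ℤ) (w : ℂ) : ℂ :=
  Complex.exp (2 * Real.pi * Complex.I * ((a : ℂ) * (t1 z w : ℝ) + (b : ℂ) * (t2 z w : ℝ)))

lemma ch_add (z : ℂ) (a b : ℤ) (w w' : ℂ) : ch z a b (w + w') = ch z a b w * ch z a b w' := by
  unfold ch; rw [← Complex.exp_add, t1_add, t2_add]; congr 1; push_cast; ring

lemma ch_zero (z : ℂ) (a b : ℤ) : ch z a b 0 = 1 := by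
  unfold ch t1 t2; simp

lemma ch_norm (z : ℂ) (a b : ℤ) (w : ℂ) : ‖ch z a b w‖ = 1 := by
  unfold ch
  have : 2 * Real.pi * Complex.I * ((a : ℂ) * (t1 z w : ℝ) + (b : ℂ) * (t2 z w : ℝ))
      = ((2 * Real.pi * (a * t1 z w + b * t2 z w) : ℝ) : ℂ) * Complex.I := by push_cast; ring
  rw [this, Complex.norm_exp_ofReal_mul_I]

lemma ch_sum (z : ℂ) (a b : ℤ) {ι : Type*} (s : Finset ι) (f : ι → ℂ) :
    ch z a b (∑ i ∈ s, f i) = ∏ i ∈ s, ch z a b (f i) := by
  classical
  induction s using Finset.induction_on with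
  | empty => simp [ch_zero]
  | insert i s hi ih => rw [Finset.sum_insert hi, Finset.prod_insert hi, ch_add, ih]

lemma ch_nsmul (z : ℂ) (a b : ℤ) (c : ℕ) (w : ℂ) : ch z a b (c * w) = ch z a b w ^ c := by
  induction c with
  | zero => simp [ch_zero]
  | succ c ih => rw [pow_succ, ← ih, ← ch_add]; congr 1; push_cast; ring

lemma ch_00 (z : ℂ) (w : ℂ) : ch z 0 0 w = 1 := by unfold ch; simp

def gc (M a : ℕ) : ℝ := ((2 * M).choose a : ℝ) / 4 ^ M

lemma gc_nonneg (M a : ℕ) : 0 ≤ gc M a := by unfold gc; positivity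

lemma gc_sum (M : ℕ) : ∑ a ∈ range (2 * M + 1), gc M a = 1 := by
  unfold gc
  rw [← Finset.sum_div]
  have h : (∑ a ∈ range (2 * M + 1), ((2 * M).choose a : ℝ)) = 2 ^ (2 * M) := by
    exact_mod_cast Nat.sum_range_choose (2 * M)
  rw [h, pow_mul]
  norm_num

lemma cos_pow_eq (M : ℕ) (t : ℝ) : ((Real.cos (Real.pi * t) ^ (2 * M) : ℝ) : ℂ)
    = ∑ a ∈ range (2 * M + 1), (gc M a : ℂ) *
      Complex.exp (2 * Real.pi * Complex.I * ((((a : ℤ) - (M : ℤ) : ℤ) : ℂ) * (t : ℂ))) := by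
  have h1 : ((Real.cos (Real.pi * t) : ℝ) : ℂ)
      = (Complex.exp (Real.pi * t * Complex.I) + Complex.exp (-(Real.pi * t * Complex.I))) / 2 := by
    rw [Complex.ofReal_cos, Complex.cos]; push_cast; congr 2; congr 1; ring
  push_cast
  have h1' : Complex.cos (Real.pi * t)
      = (Complex.exp (Real.pi * t * Complex.I) + Complex.exp (-(Real.pi * t * Complex.I))) / 2 := by
    rw [← h1]; push_cast; rfl
  rw [h1', div_pow, add_pow, Finset.sum_div]
  apply Finset.sum_congr rfl
  intro a ha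
  rw [← Complex.exp_nat_mul, ← Complex.exp_nat_mul, ← Complex.exp_add]
  have ha' : a ≤ 2 * M := by rw [Finset.mem_range] at ha; omega
  have e : (a : ℂ) * (Real.pi * t * Complex.I) + ((2 * M - a : ℕ) : ℂ) * (-(Real.pi * t * Complex.I))
      = 2 * Real.pi * Complex.I * (((a : ℂ) - (M : ℂ)) * (t : ℂ)) := by
    rw [Nat.cast_sub ha']; push_cast; ring
  rw [e]
  unfold gc
  push_cast
  rw [show (2 : ℂ) ^ (2 * M) = 4 ^ M by rw [pow_mul]; norm_num]
  ring

/-- the kernel -/
def kern (z : ℂ) (M : ℕ) (w : ℂ) : ℝ :=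
  Real.cos (Real.pi * t1 z w) ^ (2 * M) * Real.cos (Real.pi * t2 z w) ^ (2 * M)

lemma kern_eq (z : ℂ) (M : ℕ) (w : ℂ) : ((kern z M w : ℝ) : ℂ)
    = ∑ a ∈ range (2 * M + 1), ∑ b ∈ range (2 * M + 1), ((gc M a : ℂ) * (gc M b : ℂ)) *
      ch z ((a : ℤ) - M) ((b : ℤ) - M) w := by
  unfold kern
  rw [Complex.ofReal_mul, cos_pow_eq, cos_pow_eq, Finset.sum_mul_sum]
  apply Finset.sum_congr rfl
  intro a _
  apply Finset.sum_congr rfl
  intro b _
  unfold ch
  rw [show ∀ x y u v : ℂ, x * u * (y * v) = x * y * (u * v) by intros; ring, ← Complex.exp_add]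
  congr 2
  push_cast
  ring

theorem kronecker (z : ℂ) {ι : Type*} [Fintype ι] [DecidableEq ι] (u : ι → ℂ) (B M : ℕ) (hB : 1 ≤ B)
    (hM : 1 ≤ M) (ε : ℝ) (h : ∀ a b : ℤ, |a| ≤ M → |b| ≤ M → (a ≠ 0 ∨ b ≠ 0) →
      ‖∏ i, ∑ c ∈ range B, ch z a b (c * u i)‖ ≤ ε * B ^ (Fintype.card ι)) (w0 : ℂ) :
    ∃ f ∈ Fintype.piFinset (fun _ : ι => range B),
      gc M M ^ 2 - ε ≤ kern z M (∑ i, (f i : ℂ) * u i - w0) := by
  by_contra hcon
  push Not at hcon
  set n := Fintype.card ι with hn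
  have hBn : (0 : ℝ) < (B : ℝ) ^ n := by positivity
  have hcard : (Fintype.piFinset (fun _ : ι => range B)).card = B ^ n := by
    rw [Fintype.card_piFinset]; simp [hn]
  have hne : (Fintype.piFinset (fun _ : ι => range B)).Nonempty := by
    rw [← Finset.card_pos, hcard]; positivity
  set S : ℝ := ∑ f ∈ Fintype.piFinset (fun _ : ι => range B),
    kern z M (∑ i, (f i : ℂ) * u i - w0) with hS
  have hlt : S < (gc M M ^ 2 - ε) * B ^ n := by
    calc S < ∑ f ∈ Fintype.piFinset (fun _ : ι => range B), (gc M M ^ 2 - ε) :=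
          Finset.sum_lt_sum_of_nonempty hne hcon
      _ = _ := by rw [Finset.sum_const, hcard, nsmul_eq_mul]; push_cast; ring
  -- expansion
  have hSC : (S : ℂ) = ∑ a ∈ range (2 * M + 1), ∑ b ∈ range (2 * M + 1),
      ((gc M a : ℂ) * (gc M b : ℂ)) * (ch z ((a : ℤ) - M) ((b : ℤ) - M) (-w0) *
        ∏ i, ∑ c ∈ range B, ch z ((a : ℤ) - M) ((b : ℤ) - M) (c * u i)) := by
    rw [hS, Complex.ofReal_sum]
    simp_rw [kern_eq]
    rw [Finset.sum_comm]
    apply Finset.sum_congr rfl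
    intro a _
    rw [Finset.sum_comm]
    apply Finset.sum_congr rfl
    intro b _
    rw [← Finset.mul_sum]
    congr 1
    rw [Finset.prod_univ_sum, Finset.mul_sum]
    apply Finset.sum_congr rfl
    intro f _
    rw [show (∑ i, (f i : ℂ) * u i - w0) = ∑ i, (f i : ℂ) * u i + (-w0) from sub_eq_add_neg _ _,
      ch_add, ch_sum, mul_comm]
  set term : ℕ × ℕ → ℂ := fun p => ((gc M p.1 : ℂ) * (gc M p.2 : ℂ)) *
    (ch z ((p.1 : ℤ) - M) ((p.2 : ℤ) - M) (-w0) *
        ∏ i, ∑ c ∈ range B, ch z ((p.1 : ℤ) - M) ((p.2 : ℤ) - M) (c * u i)) with hterm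
  have hSC2 : (S : ℂ) = ∑ p ∈ range (2 * M + 1) ×ˢ range (2 * M + 1), term p := by
    rw [hSC, Finset.sum_product]
  have hmem : (M, M) ∈ range (2 * M + 1) ×ˢ range (2 * M + 1) := by
    simp; omega
  have hmain : term (M, M) = ((gc M M ^ 2 * B ^ n : ℝ) : ℂ) := by
    simp only [hterm, sub_self]
    simp only [ch_00, Finset.sum_const, Finset.card_range, nsmul_eq_mul, mul_one,
      Finset.prod_const, Finset.card_univ, one_mul]
    push_cast
    ring
  rw [← Finset.add_sum_erase _ _ hmem, hmain] at hSC2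
  have hrest : ‖∑ p ∈ (range (2 * M + 1) ×ˢ range (2 * M + 1)).erase (M, M), term p‖
      ≤ ε * B ^ n := by
    have hε : 0 ≤ ε * B ^ n :=
      le_trans (norm_nonneg _) (h 1 0 (by simp; omega) (by simp) (Or.inl one_ne_zero))
    calc _ ≤ ∑ p ∈ (range (2 * M + 1) ×ˢ range (2 * M + 1)).erase (M, M), ‖term p‖ :=
            norm_sum_le _ _
        _ ≤ ∑ p ∈ (range (2 * M + 1) ×ˢ range (2 * M + 1)).erase (M, M),
            (gc M p.1 * gc M p.2) * (ε * B ^ n) := by
            apply Finset.sum_le_sum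
            intro p hp
            rw [Finset.mem_erase, Finset.mem_product, Finset.mem_range, Finset.mem_range] at hp
            simp only [hterm]
            rw [norm_mul, norm_mul, norm_mul, ch_norm, one_mul, Complex.norm_real,
              Complex.norm_real, Real.norm_of_nonneg (gc_nonneg _ _),
              Real.norm_of_nonneg (gc_nonneg _ _)]
            apply mul_le_mul_of_nonneg_left _ (mul_nonneg (gc_nonneg _ _) (gc_nonneg _ _))
            apply h
            · rw [abs_le]; constructor <;> omega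
            · rw [abs_le]; constructor <;> omega
            · by_contra hc
              push Not at hc
              apply hp.1
              ext <;> simp <;> omega
        _ ≤ ∑ p ∈ (range (2 * M + 1) ×ˢ range (2 * M + 1)), (gc M p.1 * gc M p.2) * (ε * B ^ n) := by
            apply Finset.sum_le_sum_of_subset_of_nonneg (Finset.erase_subset _ _)
            intro p _ _
            exact mul_nonneg (mul_nonneg (gc_nonneg _ _) (gc_nonneg _ _)) hε
        _ = ε * B ^ n := by
            rw [← Finset.sum_mul, Finset.sum_product]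
            simp only
            rw [← Finset.sum_mul_sum, gc_sum]; ring
  have hre := congrArg Complex.re hSC2
  rw [Complex.add_re, Complex.ofReal_re, Complex.ofReal_re] at hre
  have h1 := Complex.abs_re_le_norm (∑ p ∈ (range (2 * M + 1) ×ˢ range (2 * M + 1)).erase (M, M),
    term p)
  have h2 := (abs_le.mp (h1.trans hrest)).1
  have h3 : (gc M M ^ 2 - ε) * (B : ℝ) ^ n ≤ S := by rw [hre]; linarith
  linarith

end

end Pool.Agent.H777_DPV
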