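import Pool.Agent.H777_DPV.F

open Finset

namespace Pool.Agent.H777_DPV

noncomputable section

lemma kron_sum (z : ℂ) {ι : Type*} [Fintype ι] [DecidableEq ι] (u : ι → ℂ) (B M : ℕ) (hB : 1 ≤ B)
    (hM : 1 ≤ M) (ε : ℝ) (h : ∀ a b : ℤ, |a| ≤ M → |b| ≤ M → (a ≠ 0 ∨ b ≠ 0) →
      ‖∏ i, ∑ c ∈ range B, ch z a b (c * u i)‖ ≤ ε * B ^ (Fintype.card ι)) (w0 : ℂ) :
    (gc M M ^ 2 - ε) * (B : ℝ) ^ (Fintype.card ι) ≤
      ∑ f ∈ Fintype.piFinset (fun _ : ι => range B), kern z M (∑ i, (f i : ℂ) * u i - w0) := by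
  set n := Fintype.card ι with hn
  set S : ℝ := ∑ f ∈ Fintype.piFinset (fun _ : ι => range B),
    kern z M (∑ i, (f i : ℂ) * u i - w0) with hS
  -- expansion
  have hSC : (S : ℂ) = ∑ a ∈ range (2 * M + 1), ∑ b ∈ range (2 * M + 1),
      ((gc M a : ℂ) * (gc M b : ℂ)) * (ch z ((a : ℤ) - M) ((b : ℤ) - M) (-w0) *
        ∏ i, ∑ c ∈ range B, ch z ((a : ℤ) - M) ((b : ℤ) - M) (c * u i)) := by
    rw [hS, Complex.ofReal_sum]
    simp_rw [kern_eq]
    rw [Finset.sum_comm]
    apply Finset.sum_congr rfl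
    intro a _
    rw [Finset.sum_comm]
    apply Finset.sum_congr rfl
    intro b _
    rw [← Finset.mul_sum]
    congr 1
    rw [Finset.prod_univ_sum, Finset.mul_sum]
    apply Finset.sum_congr rfl
    intro f _
    rw [show (∑ i, (f i : ℂ) * u i - w0) = ∑ i, (f i : ℂ) * u i + (-w0) from sub_eq_add_neg _ _,
      ch_add, ch_sum, mul_comm]
  set term : ℕ × ℕ → ℂ := fun p => ((gc M p.1 : ℂ) * (gc M p.2 : ℂ)) *
    (ch z ((p.1 : ℤ) - M) ((p.2 : ℤ) - M) (-w0) *
        ∏ i, ∑ c ∈ range B, ch z ((p.1 : ℤ) - M) ((p.2 : ℤ) - M) (c * u i)) with hterm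
  have hSC2 : (S : ℂ) = ∑ p ∈ range (2 * M + 1) ×ˢ range (2 * M + 1), term p := by
    rw [hSC, Finset.sum_product]
  have hmem : (M, M) ∈ range (2 * M + 1) ×ˢ range (2 * M + 1) := by
    simp; omega
  have hmain : term (M, M) = ((gc M M ^ 2 * B ^ n : ℝ) : ℂ) := by
    simp only [hterm, sub_self]
    simp only [ch_00, Finset.sum_const, Finset.card_range, nsmul_eq_mul, mul_one,
      Finset.prod_const, Finset.card_univ, one_mul]
    push_cast
    ring
  rw [← Finset.add_sum_erase _ _ hmem, hmain] at hSC2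
  have hrest : ‖∑ p ∈ (range (2 * M + 1) ×ˢ range (2 * M + 1)).erase (M, M), term p‖
      ≤ ε * B ^ n := by
    have hε : 0 ≤ ε * B ^ n :=
      le_trans (norm_nonneg _) (h 1 0 (by simp; omega) (by simp) (Or.inl one_ne_zero))
    calc _ ≤ ∑ p ∈ (range (2 * M + 1) ×ˢ range (2 * M + 1)).erase (M, M), ‖term p‖ :=
            norm_sum_le _ _
        _ ≤ ∑ p ∈ (range (2 * M + 1) ×ˢ range (2 * M + 1)).erase (M, M),
            (gc M p.1 * gc M p.2) * (ε * B ^ n) := by
            apply Finset.sum_le_sum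
            intro p hp
            rw [Finset.mem_erase, Finset.mem_product, Finset.mem_range, Finset.mem_range] at hp
            simp only [hterm]
            rw [norm_mul, norm_mul, norm_mul, ch_norm, one_mul, Complex.norm_real,
              Complex.norm_real, Real.norm_of_nonneg (gc_nonneg _ _),
              Real.norm_of_nonneg (gc_nonneg _ _)]
            apply mul_le_mul_of_nonneg_left _ (mul_nonneg (gc_nonneg _ _) (gc_nonneg _ _))
            apply h
            · rw [abs_le]; constructor <;> omega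
            · rw [abs_le]; constructor <;> omega
            · by_contra hc
              push Not at hc
              apply hp.1
              ext <;> simp <;> omega
        _ ≤ ∑ p ∈ (range (2 * M + 1) ×ˢ range (2 * M + 1)), (gc M p.1 * gc M p.2) * (ε * B ^ n) := by
            apply Finset.sum_le_sum_of_subset_of_nonneg (Finset.erase_subset _ _)
            intro p _ _
            exact mul_nonneg (mul_nonneg (gc_nonneg _ _) (gc_nonneg _ _)) hε
        _ = ε * B ^ n := by
            rw [← Finset.sum_mul, Finset.sum_product]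
            simp only
            rw [← Finset.sum_mul_sum, gc_sum]; ring
  have hre := congrArg Complex.re hSC2
  rw [Complex.add_re, Complex.ofReal_re, Complex.ofReal_re] at hre
  have h1 := Complex.abs_re_le_norm (∑ p ∈ (range (2 * M + 1) ×ˢ range (2 * M + 1)).erase (M, M),
    term p)
  have h2 := (abs_le.mp (h1.trans hrest)).1
  rw [hre]; linarith

lemma kern_le_one (z : ℂ) (M : ℕ) (w : ℂ) : kern z M w ≤ 1 := by
  unfold kern
  have p2 : 0 ≤ Real.cos (Real.pi * t2 z w) ^ (2 * M) := by rw [pow_mul]; positivity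
  exact mul_le_one₀ (cos_pow_le_one _ _) p2 (cos_pow_le_one _ _)

theorem kronecker2 (z : ℂ) {ι : Type*} [Fintype ι] [DecidableEq ι] (u : ι → ℂ) (B M : ℕ)
    (hM : 1 ≤ M) (ε ε' κ : ℝ) (hB : 1 ≤ B) (h : ∀ a b : ℤ, |a| ≤ M → |b| ≤ M → (a ≠ 0 ∨ b ≠ 0) →
      ‖∏ i, ∑ c ∈ range B, ch z a b (c * u i)‖ ≤ ε * B ^ (Fintype.card ι)) (w0 : ℂ)
    (good : (ι → ℕ) → Prop) [DecidablePred good]
    (hbad : (((Fintype.piFinset (fun _ : ι => range B)).filter (fun f => ¬ good f)).card : ℝ)
      ≤ ε' * B ^ (Fintype.card ι)) (hκ0 : 0 ≤ κ) (hκ : κ + ε' < gc M M ^ 2 - ε) :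
    ∃ f ∈ Fintype.piFinset (fun _ : ι => range B), good f ∧
      κ < kern z M (∑ i, (f i : ℂ) * u i - w0) := by
  by_contra hcon
  push Not at hcon
  have hS := kron_sum z u B M hB hM ε h w0
  have hBn : (0 : ℝ) < (B : ℝ) ^ (Fintype.card ι) := by positivity
  rw [← Finset.sum_filter_add_sum_filter_not _ good] at hS
  have h1 : ∑ f ∈ (Fintype.piFinset (fun _ : ι => range B)).filter good,
      kern z M (∑ i, (f i : ℂ) * u i - w0) ≤ κ * B ^ (Fintype.card ι) := by
    calc _ ≤ ∑ f ∈ (Fintype.piFinset (fun _ : ι => range B)).filter good, κ := by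
          apply Finset.sum_le_sum
          intro f hf
          rw [Finset.mem_filter] at hf
          exact hcon f hf.1 hf.2
      _ = ((Fintype.piFinset (fun _ : ι => range B)).filter good).card * κ := by
          rw [Finset.sum_const, nsmul_eq_mul]
      _ ≤ ((B : ℝ) ^ (Fintype.card ι)) * κ := by
          apply mul_le_mul_of_nonneg_right _ hκ0
          have : ((Fintype.piFinset (fun _ : ι => range B)).filter good).card
              ≤ B ^ (Fintype.card ι) := by
            refine (Finset.card_filter_le _ _).trans (le_of_eq ?_)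
            rw [Fintype.card_piFinset]; simp
          exact_mod_cast this
      _ = _ := mul_comm _ _
  have h2 : ∑ f ∈ (Fintype.piFinset (fun _ : ι => range B)).filter (fun f => ¬ good f),
      kern z M (∑ i, (f i : ℂ) * u i - w0) ≤ ε' * B ^ (Fintype.card ι) := by
    calc _ ≤ ∑ f ∈ (Fintype.piFinset (fun _ : ι => range B)).filter (fun f => ¬ good f), (1 : ℝ) :=
          Finset.sum_le_sum (fun f _ => kern_le_one _ _ _)
      _ = ((Fintype.piFinset (fun _ : ι => range B)).filter (fun f => ¬ good f)).card := by simp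
      _ ≤ _ := hbad
  have h3 : (κ + ε') * (B : ℝ) ^ (Fintype.card ι) < (gc M M ^ 2 - ε) * B ^ (Fintype.card ι) :=
    mul_lt_mul_of_pos_right hκ hBn
  rw [add_mul] at h3
  linarith

lemma chernoff (m R : ℕ) (hR : 1 ≤ R) :
    (((Fintype.piFinset (fun _ : Fin m × Fin (2 * R ^ 2) => range 2)).filter
      (fun f => ¬ ∑ j : Fin m, |(∑ l : Fin (2 * R ^ 2), (f (j, l) : ℝ)) - (R : ℝ) ^ 2|
        ≤ 3 * (m : ℝ) * R)).card : ℝ)
      ≤ Real.exp (-(2 * m)) * 2 ^ (Fintype.card (Fin m × Fin (2 * R ^ 2))) := by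
  classical
  have hR0 : (0 : ℝ) < R := by exact_mod_cast hR
  set P := Fintype.piFinset (fun _ : Fin m × Fin (2 * R ^ 2) => range 2) with hP
  set x : (Fin m × Fin (2 * R ^ 2) → ℕ) → Fin m → ℝ :=
    fun f j => (∑ l : Fin (2 * R ^ 2), (f (j, l) : ℝ)) - (R : ℝ) ^ 2 with hx
  set sg : Finset (Fin m) → Fin m → ℝ := fun T j => if j ∈ T then 1 else -1 with hsg
  have key1 : ∀ f, Real.exp ((∑ j, |x f j|) / R)
      ≤ ∑ T : Finset (Fin m), Real.exp ((∑ j, sg T j * x f j) / R) := by
    intro f
    have e : ∑ j, |x f j| = ∑ j, sg (Finset.univ.filter (fun j => 0 ≤ x f j)) j * x f j := by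
      apply Finset.sum_congr rfl
      intro j _
      simp only [hsg, Finset.mem_filter, Finset.mem_univ, true_and]
      split_ifs with h
      · rw [abs_of_nonneg h, one_mul]
      · rw [abs_of_neg (not_le.mp h)]; ring
    rw [e]
    exact Finset.single_le_sum
      (f := fun T : Finset (Fin m) => Real.exp ((∑ j, sg T j * x f j) / R))
      (fun _ _ => (Real.exp_pos _).le) (Finset.mem_univ _)
  have key2 : ∀ T, ∑ f ∈ P, Real.exp ((∑ j, sg T j * x f j) / R)
      = (2 * Real.cosh (1 / (2 * R))) ^ (Fintype.card (Fin m × Fin (2 * R ^ 2))) := by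
    intro T
    have e1 : ∀ f, Real.exp ((∑ j, sg T j * x f j) / R)
        = ∏ i : Fin m × Fin (2 * R ^ 2), Real.exp (sg T i.1 * ((f i : ℝ) - 1 / 2) / R) := by
      intro f
      rw [← Real.exp_sum]
      congr 1
      rw [← Finset.sum_div, Fintype.sum_prod_type]
      congr 1
      apply Finset.sum_congr rfl
      intro j _
      simp only
      rw [← Finset.mul_sum, Finset.sum_sub_distrib]
      simp only [hx, Finset.sum_const, Finset.card_univ, Fintype.card_fin, nsmul_eq_mul]
      push_cast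
      ring
    rw [Finset.sum_congr rfl (fun f _ => e1 f)]
    rw [hP, ← Finset.prod_univ_sum (fun _ => range 2)
      (fun (i : Fin m × Fin (2 * R ^ 2)) (c : ℕ) => Real.exp (sg T i.1 * ((c : ℝ) - 1 / 2) / R))]
    have e2 : ∀ i : Fin m × Fin (2 * R ^ 2),
        ∑ c ∈ range 2, Real.exp (sg T i.1 * ((c : ℝ) - 1 / 2) / R)
        = 2 * Real.cosh (1 / (2 * R)) := by
      intro i
      rw [Finset.sum_range_succ, Finset.sum_range_one, Real.cosh_eq]
      simp only [hsg]
      split_ifs
      · push_cast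
        rw [show (1 : ℝ) * (0 - 1 / 2) / R = -(1 / (2 * R)) by field_simp; ring,
          show (1 : ℝ) * (1 - 1 / 2) / R = 1 / (2 * R) by field_simp; ring]
        ring
      · push_cast
        rw [show (-1 : ℝ) * (0 - 1 / 2) / R = 1 / (2 * R) by field_simp; ring,
          show (-1 : ℝ) * (1 - 1 / 2) / R = -(1 / (2 * R)) by field_simp; ring]
        ring
    rw [Finset.prod_congr rfl (fun i _ => e2 i), Finset.prod_const, Finset.card_univ]
  have hn : (Fintype.card (Fin m × Fin (2 * R ^ 2)) : ℝ) = m * (2 * R ^ 2) := by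
    rw [Fintype.card_prod, Fintype.card_fin, Fintype.card_fin]; push_cast; ring
  set n := Fintype.card (Fin m × Fin (2 * R ^ 2)) with hndef
  have key3 : (2 * Real.cosh (1 / (2 * R))) ^ n ≤ 2 ^ n * Real.exp (m / 4) := by
    have h1 : Real.cosh (1 / (2 * R)) ≤ Real.exp (1 / (8 * R ^ 2)) := by
      have := Real.cosh_le_exp_half_sq (1 / (2 * (R : ℝ)))
      refine this.trans (le_of_eq ?_)
      congr 1
      field_simp
      ring
    rw [mul_pow]
    apply mul_le_mul_of_nonneg_left _ (by positivity)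
    calc Real.cosh (1 / (2 * R)) ^ n ≤ (Real.exp (1 / (8 * R ^ 2))) ^ n :=
          pow_le_pow_left₀ (Real.cosh_pos _).le h1 n
      _ = Real.exp (m / 4) := by
          rw [← Real.exp_nat_mul, hn]
          congr 1
          field_simp
          ring
  set bad := P.filter (fun f => ¬ ∑ j : Fin m, |(∑ l : Fin (2 * R ^ 2), (f (j, l) : ℝ))
    - (R : ℝ) ^ 2| ≤ 3 * (m : ℝ) * R) with hbad
  have h1 : (bad.card : ℝ) * Real.exp (3 * m) ≤ 2 ^ n * Real.exp m := by
    calc (bad.card : ℝ) * Real.exp (3 * m) = ∑ f ∈ bad, Real.exp (3 * m) := by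
          rw [Finset.sum_const, nsmul_eq_mul]
      _ ≤ ∑ f ∈ bad, Real.exp ((∑ j, |x f j|) / R) := by
          apply Finset.sum_le_sum
          intro f hf
          rw [hbad, Finset.mem_filter] at hf
          apply Real.exp_le_exp.2
          rw [le_div_iff₀ hR0]
          have := not_le.mp hf.2
          simp only [hx]
          exact this.le
      _ ≤ ∑ f ∈ P, Real.exp ((∑ j, |x f j|) / R) := by
          apply Finset.sum_le_sum_of_subset_of_nonneg (Finset.filter_subset _ _)
          intro f _ _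
          exact (Real.exp_pos _).le
      _ ≤ ∑ f ∈ P, ∑ T : Finset (Fin m), Real.exp ((∑ j, sg T j * x f j) / R) :=
          Finset.sum_le_sum (fun f _ => key1 f)
      _ = ∑ T : Finset (Fin m), (2 * Real.cosh (1 / (2 * R))) ^ n := by
          rw [Finset.sum_comm]
          exact Finset.sum_congr rfl (fun T _ => key2 T)
      _ = 2 ^ m * (2 * Real.cosh (1 / (2 * R))) ^ n := by
          rw [Finset.sum_const, Finset.card_univ, Fintype.card_finset, Fintype.card_fin,
            nsmul_eq_mul]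
          push_cast
          ring
      _ ≤ 2 ^ m * (2 ^ n * Real.exp (m / 4)) :=
          mul_le_mul_of_nonneg_left key3 (by positivity)
      _ ≤ 2 ^ n * Real.exp m := by
          have h2 : (2 : ℝ) ^ m ≤ Real.exp (3 / 4 * m) := by
            have h3 : (2 : ℝ) ≤ Real.exp (3 / 4) := by
              have := Real.log_two_lt_d9
              rw [← Real.log_le_iff_le_exp (by norm_num)]
              linarith
            calc (2 : ℝ) ^ m ≤ (Real.exp (3 / 4)) ^ m := pow_le_pow_left₀ (by norm_num) h3 m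
              _ = Real.exp (3 / 4 * m) := by rw [← Real.exp_nat_mul]; congr 1; ring
          calc 2 ^ m * (2 ^ n * Real.exp (m / 4))
              ≤ Real.exp (3 / 4 * m) * (2 ^ n * Real.exp (m / 4)) :=
                mul_le_mul_of_nonneg_right h2 (by positivity)
            _ = 2 ^ n * Real.exp (3 / 4 * m + m / 4) := by rw [Real.exp_add]; ring
            _ = 2 ^ n * Real.exp m := by congr 2; ring
  have h2 : (bad.card : ℝ) ≤ 2 ^ n * Real.exp m / Real.exp (3 * m) := by
    rw [le_div_iff₀ (Real.exp_pos _)]; exact h1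
  refine h2.trans (le_of_eq ?_)
  rw [mul_div_assoc, ← Real.exp_sub, mul_comm]
  congr 2
  ring

end

end Pool.Agent.H777_DPV
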