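import Pool.Agent.H777_DPV.E

open Finset

namespace Pool.Agent.H777_DPV

noncomputable section

lemma sin_lower (x : ℝ) : 2 * |x - round x| ≤ |Real.sin (Real.pi * x)| := by
  have h1 : |x - round x| ≤ 1 / 2 := abs_sub_round x
  have h2 : |Real.sin (Real.pi * x)| = |Real.sin (Real.pi * (x - round x))| := by
    rw [mul_sub, mul_comm Real.pi (round x : ℝ), Real.sin_sub_int_mul_pi, abs_mul]
    simp
  have h3 : |Real.sin (Real.pi * (x - round x))| = |Real.sin (Real.pi * |x - round x|)| := by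
    rcases abs_cases (x - round x) with ⟨h, _⟩ | ⟨h, _⟩
    · rw [h]
    · rw [h, mul_neg, Real.sin_neg, abs_neg]
  rw [h2, h3]
  have h4 := Real.mul_le_sin (x := Real.pi * |x - round x|) (by positivity) (by
    nlinarith [Real.pi_pos])
  have h5 : 2 / Real.pi * (Real.pi * |x - round x|) = 2 * |x - round x| := by
    field_simp
  rw [h5] at h4
  exact h4.trans (le_abs_self _)

lemma cos_upper (x ρ : ℝ) (M : ℕ) (hρ : 0 ≤ ρ) (h : ρ ≤ |x - round x|) :
    Real.cos (Real.pi * x) ^ (2 * M) ≤ Real.exp (-(4 * ρ ^ 2 * M)) := by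
  have h1 := sin_lower x
  have h2 : (2 * ρ) ^ 2 ≤ Real.sin (Real.pi * x) ^ 2 := by
    rw [← sq_abs (Real.sin _)]
    apply pow_le_pow_left₀ (by positivity)
    linarith
  have h3 : Real.cos (Real.pi * x) ^ 2 ≤ 1 - 4 * ρ ^ 2 := by
    have := Real.sin_sq_add_cos_sq (Real.pi * x)
    nlinarith
  have h4 : 1 - 4 * ρ ^ 2 ≤ Real.exp (-(4 * ρ ^ 2)) := by
    have := Real.add_one_le_exp (-(4 * ρ ^ 2))
    linarith
  rw [pow_mul]
  calc (Real.cos (Real.pi * x) ^ 2) ^ M ≤ (Real.exp (-(4 * ρ ^ 2))) ^ M :=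
        pow_le_pow_left₀ (by positivity) (h3.trans h4) M
    _ = Real.exp (-(4 * ρ ^ 2 * M)) := by
        rw [← Real.exp_nat_mul]; congr 1; ring

lemma cos_pow_le_one (x : ℝ) (M : ℕ) : Real.cos (Real.pi * x) ^ (2 * M) ≤ 1 := by
  rw [pow_mul]
  apply pow_le_one₀ (by positivity)
  have := Real.sin_sq_add_cos_sq (Real.pi * x)
  nlinarith [sq_nonneg (Real.sin (Real.pi * x))]

lemma kern_upper (z w : ℂ) (ρ : ℝ) (M : ℕ) (hρ : 0 ≤ ρ)
    (h : ρ ≤ |t1 z w - round (t1 z w)| ∨ ρ ≤ |t2 z w - round (t2 z w)|) :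
    kern z M w ≤ Real.exp (-(4 * ρ ^ 2 * M)) := by
  unfold kern
  have p1 : 0 ≤ Real.cos (Real.pi * t1 z w) ^ (2 * M) := by rw [pow_mul]; positivity
  have p2 : 0 ≤ Real.cos (Real.pi * t2 z w) ^ (2 * M) := by rw [pow_mul]; positivity
  rcases h with h | h
  · have h1 := cos_upper _ ρ M hρ h
    have h2 := cos_pow_le_one (t2 z w) M
    calc _ ≤ Real.exp (-(4 * ρ ^ 2 * M)) * 1 := mul_le_mul h1 h2 p2 (by positivity)
      _ = _ := mul_one _
  · have h1 := cos_upper _ ρ M hρ h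
    have h2 := cos_pow_le_one (t1 z w) M
    calc _ ≤ 1 * Real.exp (-(4 * ρ ^ 2 * M)) := mul_le_mul h2 h1 p2 zero_le_one
      _ = _ := one_mul _

/-- the real linear form -/
def lf (z : ℂ) (a b : ℤ) (w : ℂ) : ℝ := a * t1 z w + b * t2 z w

/-- the complex number representing the linear form -/
def xi (z : ℂ) (a b : ℤ) : ℂ := ⟨a, -((b - a * z.re) / z.im)⟩

lemma lf_eq (z : ℂ) (a b : ℤ) (w : ℂ) : lf z a b w = (xi z a b * w).re := by
  unfold lf xi t1 t2
  rw [Complex.mul_re]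
  simp only
  ring

lemma ch_eq (z : ℂ) (a b : ℤ) (w : ℂ) :
    ch z a b w = Complex.exp (Complex.I * ((2 * Real.pi * lf z a b w : ℝ) : ℂ)) := by
  unfold ch lf
  congr 1
  push_cast
  ring

lemma geom_bound (z : ℂ) (a b : ℤ) (w : ℂ) (B : ℕ) (η : ℝ) (hη : 0 < η)
    (h : η ≤ |lf z a b w - round (lf z a b w)|) :
    ‖∑ c ∈ range B, ch z a b (c * w)‖ ≤ 1 / (2 * η) := by
  set q := ch z a b w with hq
  have h1 : ∑ c ∈ range B, ch z a b (c * w) = ∑ c ∈ range B, q ^ c := by
    apply Finset.sum_congr rfl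
    intro c _
    rw [ch_nsmul]
  have hqn : ‖q‖ = 1 := ch_norm _ _ _ _
  have h2 : 4 * η ≤ ‖q - 1‖ := by
    rw [hq, ch_eq, Complex.norm_exp_I_mul_ofReal_sub_one, Real.norm_eq_abs, abs_mul]
    have := sin_lower (lf z a b w)
    have e : 2 * Real.pi * lf z a b w / 2 = Real.pi * lf z a b w := by ring
    rw [e, abs_of_pos (by norm_num : (0 : ℝ) < 2)]
    linarith
  have h3 : (∑ c ∈ range B, q ^ c) * (q - 1) = q ^ B - 1 := geom_sum_mul q B
  have h4 : ‖∑ c ∈ range B, q ^ c‖ * ‖q - 1‖ ≤ 2 := by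
    rw [← norm_mul, h3]
    calc ‖q ^ B - 1‖ ≤ ‖q ^ B‖ + ‖(1 : ℂ)‖ := norm_sub_le _ _
      _ = 2 := by rw [norm_pow, hqn]; norm_num
  rw [h1, le_div_iff₀ (by positivity)]
  have h5 : ‖∑ c ∈ range B, q ^ c‖ * (4 * η) ≤ 2 :=
    (mul_le_mul_of_nonneg_left h2 (norm_nonneg _)).trans h4
  linarith

lemma triv_bound (z : ℂ) (a b : ℤ) (w : ℂ) (B : ℕ) :
    ‖∑ c ∈ range B, ch z a b (c * w)‖ ≤ B := by
  calc _ ≤ ∑ c ∈ range B, ‖ch z a b (c * w)‖ := norm_sum_le _ _
    _ = B := by simp [ch_norm]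

theorem approx (z : ℂ) (hz : ‖z‖ = 1) (him : 0 < |z.im|) (m s B M : ℕ) (η ρ : ℝ) (hm : 2 ≤ m)
    (hB : 1 ≤ B) (hM : 1 ≤ M) (hη : 0 < η) (hBη : 2 / η ≤ B) (hρ : 0 < ρ) (hρ1 : ρ ≤ 1)
    (hdual : ∀ a b : ℤ, |a| ≤ M → |b| ≤ M → (a ≠ 0 ∨ b ≠ 0) →
      ∃ j < m, η ≤ |lf z a b (z ^ j) - round (lf z a b (z ^ j))|)
    (hpar : Real.exp (-(4 * ρ ^ 2 * M)) < gc M M ^ 2 - (1 / 4) ^ s) (w0 : ℂ) (hw0 : ‖w0‖ ≤ 1) :
    ∃ c : ℕ → ℤ, ‖∑ j ∈ range m, (c j : ℂ) * z ^ j - w0‖ ≤ 2 * ρ ∧
      ((∑ j ∈ range m, |c j| : ℤ) : ℝ) ≤ m * s * B + 3 * (m * s * B + 1) / |z.im| + 2 := by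
  classical
  have hzim : z.im ≠ 0 := fun h => by rw [h] at him; simp at him
  obtain ⟨f, hf, hkern⟩ := kronecker z (ι := Fin m × Fin s) (fun i => z ^ (i.1 : ℕ)) B M hB hM
    ((1 / 4) ^ s) (by
      intro a b ha hb hab
      obtain ⟨j0, hj0, hj⟩ := hdual a b ha hb hab
      rw [norm_prod, Fintype.prod_prod_type]
      simp only [Finset.prod_const, Finset.card_univ, Fintype.card_fin, Fintype.card_prod]
      calc ∏ j : Fin m, ‖∑ c ∈ range B, ch z a b (c * z ^ (j : ℕ))‖ ^ s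
          ≤ ∏ j : Fin m, ((if j = ⟨j0, hj0⟩ then ((1 : ℝ) / 4) ^ s else 1) * (B : ℝ) ^ s) := by
            apply Finset.prod_le_prod
            · intro j _; positivity
            · intro j _
              split_ifs with hjj
              · rw [← mul_pow]
                apply pow_le_pow_left₀ (norm_nonneg _)
                rw [hjj]
                refine (geom_bound z a b _ B η hη hj).trans ?_
                have e : 1 / (2 * η) = 1 / 4 * (2 / η) := by field_simp; norm_num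
                rw [e]
                exact mul_le_mul_of_nonneg_left hBη (by norm_num)
              · rw [one_mul]
                exact pow_le_pow_left₀ (norm_nonneg _) (triv_bound z a b _ B) s
        _ = (1 / 4) ^ s * (B : ℝ) ^ (m * s) := by
            rw [Finset.prod_mul_distrib, Finset.prod_ite_eq' Finset.univ]
            simp only [Finset.mem_univ, if_true, Finset.prod_const, Finset.card_univ,
              Fintype.card_fin]
            rw [← pow_mul, mul_comm s m]) w0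
  set w : ℂ := ∑ i : Fin m × Fin s, (f i : ℂ) * z ^ (i.1 : ℕ) - w0 with hw
  have hk : Real.exp (-(4 * ρ ^ 2 * M)) < kern z M w := lt_of_lt_of_le hpar hkern
  have hr1 : |t1 z w - round (t1 z w)| < ρ := by
    by_contra hc; push Not at hc
    exact absurd (kern_upper z w ρ M hρ.le (Or.inl hc)) (not_le.mpr hk)
  have hr2 : |t2 z w - round (t2 z w)| < ρ := by
    by_contra hc; push Not at hc
    exact absurd (kern_upper z w ρ M hρ.le (Or.inr hc)) (not_le.mpr hk)
  set C : ℕ → ℤ := fun j => if h : j < m then ∑ l : Fin s, ((f (⟨j, h⟩, l) : ℕ) : ℤ) else 0 with hC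
  set k1 := round (t1 z w) with hk1
  set k2 := round (t2 z w) with hk2
  set e : ℕ → ℤ := fun j => if j = 0 then k1 else if j = 1 then k2 else 0 with he
  have hsumC : ∑ j ∈ range m, (C j : ℂ) * z ^ j
      = ∑ i : Fin m × Fin s, (f i : ℂ) * z ^ (i.1 : ℕ) := by
    rw [Fintype.sum_prod_type, Finset.sum_range]
    apply Finset.sum_congr rfl
    intro j _
    simp only [hC]
    rw [dif_pos j.is_lt]
    push_cast
    rw [Finset.sum_mul]
  have hsume : ∑ j ∈ range m, (e j : ℂ) * z ^ j = k1 + k2 * z := by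
    have : range m = insert 0 (insert 1 (Finset.Ico 2 m)) := by
      ext j; simp; omega
    rw [this, Finset.sum_insert (by simp), Finset.sum_insert (by simp)]
    have h0 : ∑ j ∈ Finset.Ico 2 m, (e j : ℂ) * z ^ j = 0 := by
      apply Finset.sum_eq_zero
      intro j hj
      rw [Finset.mem_Ico] at hj
      simp only [he]
      rw [if_neg (by omega), if_neg (by omega)]
      simp
    rw [h0]
    simp [he]
  have hsumabs : ∑ j ∈ range m, |e j| = |k1| + |k2| := by
    have : range m = insert 0 (insert 1 (Finset.Ico 2 m)) := by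
      ext j; simp; omega
    rw [this, Finset.sum_insert (by simp), Finset.sum_insert (by simp)]
    have h0 : ∑ j ∈ Finset.Ico 2 m, |e j| = 0 := by
      apply Finset.sum_eq_zero
      intro j hj
      rw [Finset.mem_Ico] at hj
      simp only [he]
      rw [if_neg (by omega), if_neg (by omega)]
      simp
    rw [h0]
    simp [he]
  have hCnonneg : ∀ j, 0 ≤ C j := by
    intro j
    simp only [hC]
    split_ifs
    · exact Finset.sum_nonneg (fun _ _ => by positivity)
    · exact le_refl _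
  have hCle : ∀ j, C j ≤ s * B := by
    intro j
    simp only [hC]
    split_ifs with h
    · calc ∑ l : Fin s, ((f (⟨j, h⟩, l) : ℕ) : ℤ) ≤ ∑ l : Fin s, (B : ℤ) := by
            apply Finset.sum_le_sum
            intro l _
            have := Fintype.mem_piFinset.mp hf (⟨j, h⟩, l)
            rw [Finset.mem_range] at this
            exact_mod_cast this.le
        _ = s * B := by simp
    · positivity
  have hsumCabs : ((∑ j ∈ range m, |C j| : ℤ) : ℝ) ≤ m * s * B := by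
    have : ∑ j ∈ range m, |C j| ≤ ∑ j ∈ range m, ((s : ℤ) * B) := by
      apply Finset.sum_le_sum
      intro j _
      rw [abs_of_nonneg (hCnonneg j)]
      exact hCle j
    rw [Finset.sum_const, Finset.card_range, nsmul_eq_mul] at this
    have h2 : ((∑ j ∈ range m, |C j| : ℤ) : ℝ) ≤ (((m : ℤ) * ((s : ℤ) * B) : ℤ) : ℝ) := by
      exact_mod_cast this
    calc _ ≤ _ := h2
      _ = m * s * B := by push_cast; ring
  have hwn : ‖w‖ ≤ m * s * B + 1 := by
    rw [hw, ← hsumC]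
    calc _ ≤ ‖∑ j ∈ range m, (C j : ℂ) * z ^ j‖ + ‖w0‖ := norm_sub_le _ _
      _ ≤ m * s * B + 1 := by
          apply add_le_add _ hw0
          calc ‖∑ j ∈ range m, (C j : ℂ) * z ^ j‖ ≤ ∑ j ∈ range m, ‖(C j : ℂ) * z ^ j‖ :=
                norm_sum_le _ _
            _ = ((∑ j ∈ range m, |C j| : ℤ) : ℝ) := by
                push_cast
                apply Finset.sum_congr rfl
                intro j _
                rw [norm_mul, norm_pow, hz, one_pow, mul_one, Complex.norm_intCast]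
            _ ≤ _ := hsumCabs
  have ht2 : |t2 z w| ≤ ‖w‖ / |z.im| := by
    unfold t2
    rw [abs_div]
    exact div_le_div_of_nonneg_right (Complex.abs_im_le_norm w) him.le
  have him1 : |z.im| ≤ 1 := by rw [← hz]; exact Complex.abs_im_le_norm z
  have ht1 : |t1 z w| ≤ 2 * ‖w‖ / |z.im| := by
    unfold t1
    have h1 : |z.re| ≤ 1 := by rw [← hz]; exact Complex.abs_re_le_norm z
    have h2 : |w.re| ≤ ‖w‖ / |z.im| := by
      refine (Complex.abs_re_le_norm w).trans ?_
      rw [le_div_iff₀ him]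
      nlinarith [norm_nonneg w]
    calc |w.re - t2 z w * z.re| ≤ |w.re| + |t2 z w * z.re| := abs_sub _ _
      _ ≤ ‖w‖ / |z.im| + ‖w‖ / |z.im| * 1 := by
          apply add_le_add h2
          rw [abs_mul]
          exact mul_le_mul ht2 h1 (abs_nonneg _) (by positivity)
      _ = _ := by ring
  refine ⟨fun j => C j - e j, ?_, ?_⟩
  · have h1 : ∑ j ∈ range m, (((C j - e j : ℤ)) : ℂ) * z ^ j - w0 = w - (k1 + k2 * z) := by
      rw [hw, ← hsumC, ← hsume]
      have : ∑ j ∈ range m, (((C j - e j : ℤ)) : ℂ) * z ^ j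
          = ∑ j ∈ range m, (C j : ℂ) * z ^ j - ∑ j ∈ range m, (e j : ℂ) * z ^ j := by
        rw [← Finset.sum_sub_distrib]
        apply Finset.sum_congr rfl
        intro j _
        push_cast; ring
      rw [this]; ring
    rw [h1]
    have h2 : w - (k1 + k2 * z) = ((t1 z w - k1 : ℝ) : ℂ) + ((t2 z w - k2 : ℝ) : ℂ) * z := by
      conv_lhs => rw [← coord z w hzim]
      push_cast; ring
    rw [h2]
    calc _ ≤ ‖((t1 z w - k1 : ℝ) : ℂ)‖ + ‖((t2 z w - k2 : ℝ) : ℂ) * z‖ := norm_add_le _ _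
      _ ≤ ρ + ρ := by
          rw [norm_mul, hz, mul_one, Complex.norm_real, Complex.norm_real, Real.norm_eq_abs,
            Real.norm_eq_abs]
          exact add_le_add hr1.le hr2.le
      _ = 2 * ρ := by ring
  · have h1 : ∑ j ∈ range m, |C j - e j| ≤ ∑ j ∈ range m, |C j| + (|k1| + |k2|) := by
      rw [← hsumabs, ← Finset.sum_add_distrib]
      apply Finset.sum_le_sum
      intro j _
      exact abs_sub _ _
    have h2 : ((∑ j ∈ range m, |C j - e j| : ℤ) : ℝ)
        ≤ ((∑ j ∈ range m, |C j| : ℤ) : ℝ) + (|(k1 : ℝ)| + |(k2 : ℝ)|) := by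
      exact_mod_cast h1
    have hk1' : |(k1 : ℝ)| ≤ 2 * ‖w‖ / |z.im| + 1 := by
      have := abs_sub_abs_le_abs_sub (k1 : ℝ) (t1 z w)
      rw [abs_sub_comm] at hr1
      linarith
    have hk2' : |(k2 : ℝ)| ≤ ‖w‖ / |z.im| + 1 := by
      have := abs_sub_abs_le_abs_sub (k2 : ℝ) (t2 z w)
      rw [abs_sub_comm] at hr2
      linarith
    have h3 : 2 * ‖w‖ / |z.im| + ‖w‖ / |z.im| ≤ 3 * (m * s * B + 1) / |z.im| := by
      rw [← add_div]
      apply div_le_div_of_nonneg_right _ him.le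
      linarith
    linarith

end

end Pool.Agent.H777_DPV
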