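import Pool.Agent.H777_DPV.E2

open Finset

namespace Pool.Agent.H777_DPV

noncomputable section

lemma two_sum (z : ℂ) (a b : ℤ) (w : ℂ) :
    ‖∑ c ∈ range 2, ch z a b (c * w)‖ = 2 * |Real.cos (Real.pi * lf z a b w)| := by
  have h1 : ∑ c ∈ range 2, ch z a b (c * w) = 1 + ch z a b w := by
    rw [Finset.sum_range_succ, Finset.sum_range_one]
    simp [ch_zero]
  set t : ℝ := Real.pi * lf z a b w with ht
  have h2 : 1 + ch z a b w = Complex.exp (Complex.I * t) * ((2 * Real.cos t : ℝ) : ℂ) := by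
    rw [ch_eq]
    have e : Complex.I * ((2 * Real.pi * lf z a b w : ℝ) : ℂ)
        = Complex.I * t + Complex.I * t := by rw [ht]; push_cast; ring
    rw [e, Complex.exp_add]
    push_cast
    rw [Complex.cos]
    have e1 : Complex.exp (Complex.I * t) * Complex.exp (-(t : ℂ) * Complex.I) = 1 := by
      rw [← Complex.exp_add]
      have : Complex.I * (t : ℂ) + -(t : ℂ) * Complex.I = 0 := by ring
      rw [this, Complex.exp_zero]
    have e2 : Complex.exp ((t : ℂ) * Complex.I) = Complex.exp (Complex.I * t) := by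
      rw [mul_comm]
    rw [e2]
    linear_combination (-1 : ℂ) * e1
  rw [h1, h2, norm_mul, Complex.norm_exp_I_mul_ofReal, one_mul, Complex.norm_real,
    Real.norm_eq_abs, abs_mul, abs_of_pos (by norm_num : (0 : ℝ) < 2)]

theorem approx2 (z : ℂ) (hz : ‖z‖ = 1) (him : 0 < |z.im|) (m R M : ℕ) (τ ρ : ℝ) (hm : 2 ≤ m)
    (hR : 1 ≤ R) (hM : 1 ≤ M) (hρ : 0 < ρ) (hρ1 : ρ ≤ 1)
    (hdual : ∀ a b : ℤ, |a| ≤ M → |b| ≤ M → (a ≠ 0 ∨ b ≠ 0) →
      τ ≤ ∑ j ∈ range m, (lf z a b (z ^ j) - round (lf z a b (z ^ j))) ^ 2)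
    (hpar : Real.exp (-(4 * ρ ^ 2 * M)) + Real.exp (-(2 * m))
      < gc M M ^ 2 - Real.exp (-(4 * R ^ 2 * τ))) (w0 : ℂ) (hw0 : ‖w0‖ ≤ 1) :
    ∃ c : ℕ → ℤ, ‖∑ j ∈ range m, (c j : ℂ) * z ^ j - w0‖ ≤ 2 * ρ ∧
      ((∑ j ∈ range m, |c j| : ℤ) : ℝ) ≤ 3 * m * R + 3 * (3 * m * R + 1) / |z.im| + 2 := by
  classical
  have hzim : z.im ≠ 0 := fun h => by rw [h] at him; simp at him
  obtain ⟨f, hf, hgood, hk⟩ := kronecker2 z (ι := Fin m × Fin (2 * R ^ 2))
    (fun i => z ^ (i.1 : ℕ)) 2 M hM (Real.exp (-(4 * R ^ 2 * τ))) (Real.exp (-(2 * m)))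
    (Real.exp (-(4 * ρ ^ 2 * M))) (by norm_num) (by
      intro a b ha hb hab
      have hd := hdual a b ha hb hab
      rw [norm_prod, Finset.prod_congr rfl (fun i _ => two_sum z a b _), Fintype.prod_prod_type]
      simp only [Finset.prod_const, Finset.card_univ, Fintype.card_fin, Fintype.card_prod]
      calc ∏ j : Fin m, (2 * |Real.cos (Real.pi * lf z a b (z ^ (j : ℕ)))|) ^ (2 * R ^ 2)
          ≤ ∏ j : Fin m, (Real.exp (-(4 * R ^ 2 * (lf z a b (z ^ (j : ℕ))
              - round (lf z a b (z ^ (j : ℕ)))) ^ 2)) * 2 ^ (2 * R ^ 2)) := by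
            apply Finset.prod_le_prod
            · intro j _; positivity
            · intro j _
              rw [mul_pow, mul_comm]
              apply mul_le_mul_of_nonneg_right _ (by positivity)
              have hc := cos_upper (lf z a b (z ^ (j : ℕ))) _ (R ^ 2) (abs_nonneg _) le_rfl
              rw [pow_mul, sq_abs, ← pow_mul]
              refine hc.trans (le_of_eq ?_)
              rw [sq_abs]
              congr 1
              push_cast
              ring
        _ = Real.exp (-(4 * R ^ 2 * ∑ j ∈ range m, (lf z a b (z ^ j)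
              - round (lf z a b (z ^ j))) ^ 2)) * 2 ^ (m * (2 * R ^ 2)) := by
            rw [Finset.prod_mul_distrib, ← Real.exp_sum, Finset.prod_const, Finset.card_univ,
              Fintype.card_fin, ← pow_mul, mul_comm (2 * R ^ 2) m, Finset.sum_neg_distrib,
              ← Finset.mul_sum, Finset.sum_range (fun j => (lf z a b (z ^ j)
                - round (lf z a b (z ^ j))) ^ 2)]
        _ ≤ Real.exp (-(4 * R ^ 2 * τ)) * ((2 : ℕ) : ℝ) ^ (m * (2 * R ^ 2)) := by
            push_cast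
            apply mul_le_mul_of_nonneg_right _ (by positivity)
            apply Real.exp_le_exp.2
            have h4 : (0 : ℝ) ≤ 4 * R ^ 2 := by positivity
            have := mul_le_mul_of_nonneg_left hd h4
            linarith)
    (w0 + ∑ j ∈ range m, (((R : ℤ) ^ 2 : ℤ) : ℂ) * z ^ j)
    (fun f => ∑ j : Fin m, |(∑ l : Fin (2 * R ^ 2), (f (j, l) : ℝ)) - (R : ℝ) ^ 2|
        ≤ 3 * (m : ℝ) * R)
    (by
      have := chernoff m R hR
      push_cast
      exact this) (Real.exp_pos _).le (by linarith)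
  set C : ℕ → ℤ := fun j => if h : j < m then ∑ l : Fin (2 * R ^ 2), ((f (⟨j, h⟩, l) : ℕ) : ℤ)
    - (R : ℤ) ^ 2 else 0 with hC
  have hsumC0 : ∑ j ∈ range m, (C j : ℂ) * z ^ j
      = ∑ i : Fin m × Fin (2 * R ^ 2), (f i : ℂ) * z ^ (i.1 : ℕ)
        - ∑ j ∈ range m, (((R : ℤ) ^ 2 : ℤ) : ℂ) * z ^ j := by
    rw [Fintype.sum_prod_type, Finset.sum_range, Finset.sum_range, ← Finset.sum_sub_distrib]
    apply Finset.sum_congr rfl
    intro j _
    simp only [hC]
    rw [dif_pos j.is_lt]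
    push_cast
    rw [sub_mul, Finset.sum_mul]
  set w : ℂ := ∑ i : Fin m × Fin (2 * R ^ 2), (f i : ℂ) * z ^ (i.1 : ℕ)
    - (w0 + ∑ j ∈ range m, (((R : ℤ) ^ 2 : ℤ) : ℂ) * z ^ j) with hw0def
  have hw : w = ∑ j ∈ range m, (C j : ℂ) * z ^ j - w0 := by
    rw [hw0def, hsumC0]; ring
  have hr1 : |t1 z w - round (t1 z w)| < ρ := by
    by_contra hc; push Not at hc
    exact absurd (kern_upper z w ρ M hρ.le (Or.inl hc)) (not_le.mpr hk)
  have hr2 : |t2 z w - round (t2 z w)| < ρ := by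
    by_contra hc; push Not at hc
    exact absurd (kern_upper z w ρ M hρ.le (Or.inr hc)) (not_le.mpr hk)
  set k1 := round (t1 z w) with hk1
  set k2 := round (t2 z w) with hk2
  set e : ℕ → ℤ := fun j => if j = 0 then k1 else if j = 1 then k2 else 0 with he
  have hsume : ∑ j ∈ range m, (e j : ℂ) * z ^ j = k1 + k2 * z := by
    have : range m = insert 0 (insert 1 (Finset.Ico 2 m)) := by
      ext j; simp; omega
    rw [this, Finset.sum_insert (by simp), Finset.sum_insert (by simp)]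
    have h0 : ∑ j ∈ Finset.Ico 2 m, (e j : ℂ) * z ^ j = 0 := by
      apply Finset.sum_eq_zero
      intro j hj
      rw [Finset.mem_Ico] at hj
      simp only [he]
      rw [if_neg (by omega), if_neg (by omega)]
      simp
    rw [h0]
    simp [he]
  have hsumabs : ∑ j ∈ range m, |e j| = |k1| + |k2| := by
    have : range m = insert 0 (insert 1 (Finset.Ico 2 m)) := by
      ext j; simp; omega
    rw [this, Finset.sum_insert (by simp), Finset.sum_insert (by simp)]
    have h0 : ∑ j ∈ Finset.Ico 2 m, |e j| = 0 := by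
      apply Finset.sum_eq_zero
      intro j hj
      rw [Finset.mem_Ico] at hj
      simp only [he]
      rw [if_neg (by omega), if_neg (by omega)]
      simp
    rw [h0]
    simp [he]
  have hsumCabs : ((∑ j ∈ range m, |C j| : ℤ) : ℝ) ≤ 3 * m * R := by
    refine le_trans (le_of_eq ?_) hgood
    push_cast
    rw [Finset.sum_range]
    apply Finset.sum_congr rfl
    intro j _
    simp only [hC]
    rw [dif_pos j.is_lt]
    push_cast
    rfl
  have hwn : ‖w‖ ≤ 3 * m * R + 1 := by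
    rw [hw]
    calc _ ≤ ‖∑ j ∈ range m, (C j : ℂ) * z ^ j‖ + ‖w0‖ := norm_sub_le _ _
      _ ≤ 3 * m * R + 1 := by
          apply add_le_add _ hw0
          calc ‖∑ j ∈ range m, (C j : ℂ) * z ^ j‖ ≤ ∑ j ∈ range m, ‖(C j : ℂ) * z ^ j‖ :=
                norm_sum_le _ _
            _ = ((∑ j ∈ range m, |C j| : ℤ) : ℝ) := by
                push_cast
                apply Finset.sum_congr rfl
                intro j _
                rw [norm_mul, norm_pow, hz, one_pow, mul_one, Complex.norm_intCast]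
            _ ≤ _ := hsumCabs
  have ht2 : |t2 z w| ≤ ‖w‖ / |z.im| := by
    unfold t2
    rw [abs_div]
    exact div_le_div_of_nonneg_right (Complex.abs_im_le_norm w) him.le
  have him1 : |z.im| ≤ 1 := by rw [← hz]; exact Complex.abs_im_le_norm z
  have ht1 : |t1 z w| ≤ 2 * ‖w‖ / |z.im| := by
    unfold t1
    have h1 : |z.re| ≤ 1 := by rw [← hz]; exact Complex.abs_re_le_norm z
    have h2 : |w.re| ≤ ‖w‖ / |z.im| := by
      refine (Complex.abs_re_le_norm w).trans ?_
      rw [le_div_iff₀ him]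
      nlinarith [norm_nonneg w]
    calc |w.re - t2 z w * z.re| ≤ |w.re| + |t2 z w * z.re| := abs_sub _ _
      _ ≤ ‖w‖ / |z.im| + ‖w‖ / |z.im| * 1 := by
          apply add_le_add h2
          rw [abs_mul]
          exact mul_le_mul ht2 h1 (abs_nonneg _) (by positivity)
      _ = _ := by ring
  refine ⟨fun j => C j - e j, ?_, ?_⟩
  · have h1 : ∑ j ∈ range m, (((C j - e j : ℤ)) : ℂ) * z ^ j - w0 = w - (k1 + k2 * z) := by
      rw [hw, ← hsume]
      have : ∑ j ∈ range m, (((C j - e j : ℤ)) : ℂ) * z ^ j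
          = ∑ j ∈ range m, (C j : ℂ) * z ^ j - ∑ j ∈ range m, (e j : ℂ) * z ^ j := by
        rw [← Finset.sum_sub_distrib]
        apply Finset.sum_congr rfl
        intro j _
        push_cast; ring
      rw [this]; ring
    rw [h1]
    have h2 : w - (k1 + k2 * z) = ((t1 z w - k1 : ℝ) : ℂ) + ((t2 z w - k2 : ℝ) : ℂ) * z := by
      conv_lhs => rw [← coord z w hzim]
      push_cast; ring
    rw [h2]
    calc _ ≤ ‖((t1 z w - k1 : ℝ) : ℂ)‖ + ‖((t2 z w - k2 : ℝ) : ℂ) * z‖ := norm_add_le _ _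
      _ ≤ ρ + ρ := by
          rw [norm_mul, hz, mul_one, Complex.norm_real, Complex.norm_real, Real.norm_eq_abs,
            Real.norm_eq_abs]
          exact add_le_add hr1.le hr2.le
      _ = 2 * ρ := by ring
  · have h1 : ∑ j ∈ range m, |C j - e j| ≤ ∑ j ∈ range m, |C j| + (|k1| + |k2|) := by
      rw [← hsumabs, ← Finset.sum_add_distrib]
      apply Finset.sum_le_sum
      intro j _
      exact abs_sub _ _
    have h2 : ((∑ j ∈ range m, |C j - e j| : ℤ) : ℝ)
        ≤ ((∑ j ∈ range m, |C j| : ℤ) : ℝ) + (|(k1 : ℝ)| + |(k2 : ℝ)|) := by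
      exact_mod_cast h1
    have hk1' : |(k1 : ℝ)| ≤ 2 * ‖w‖ / |z.im| + 1 := by
      have := abs_sub_abs_le_abs_sub (k1 : ℝ) (t1 z w)
      rw [abs_sub_comm] at hr1
      linarith
    have hk2' : |(k2 : ℝ)| ≤ ‖w‖ / |z.im| + 1 := by
      have := abs_sub_abs_le_abs_sub (k2 : ℝ) (t2 z w)
      rw [abs_sub_comm] at hr2
      linarith
    have h3 : 2 * ‖w‖ / |z.im| + ‖w‖ / |z.im| ≤ 3 * (3 * m * R + 1) / |z.im| := by
      rw [← add_div]
      apply div_le_div_of_nonneg_right _ him.le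
      linarith
    linarith

end

end Pool.Agent.H777_DPV
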