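import Pool.Agent.H777_DPV.D
import Pool.Agent.H777_DPV.F

open Polynomial Finset Filter

namespace Pool.Agent.H777_DPV

lemma primes_exist : ∀ᶠ N : ℕ in atTop, ∃ Y : ℕ, 1 ≤ Y ∧ (Y : ℝ) ≤ 101 * (N * Real.log N) ∧
    ∃ P : Finset ℕ, (∀ p ∈ P, p.Prime ∧ 2 * (9 * N) ≤ p ∧ p ≤ Y) ∧ 4 * N + 9 * N ≤ P.card := by
  have h1 : ∀ᶠ N : ℕ in atTop, 101 * Real.log N ≤ (N : ℝ) := by
    have h := (Real.isLittleO_log_id_atTop.bound (by norm_num : (0:ℝ) < 1 / 101))
    have h2 := tendsto_natCast_atTop_atTop (R := ℝ) |>.eventually h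
    filter_upwards [h2, eventually_ge_atTop 1] with N hN hN1
    have hN1' : (1 : ℝ) ≤ N := by exact_mod_cast hN1
    rw [Real.norm_eq_abs, abs_of_nonneg (Real.log_nonneg hN1'), id, Real.norm_eq_abs,
      abs_of_nonneg (by linarith)] at hN
    linarith
  filter_upwards [h1, eventually_ge_atTop 3] with N hN hN3
  have hN3' : (3 : ℝ) ≤ N := by exact_mod_cast hN3
  have hlog1 : 1 ≤ Real.log N := by
    rw [Real.le_log_iff_exp_le (by linarith)]
    exact (Real.exp_one_lt_d9.le.trans (by norm_num)).trans hN3'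
  set Y := ⌈100 * (N * Real.log N)⌉₊ with hY
  have hY1 : 100 * (N * Real.log N) ≤ Y := Nat.le_ceil _
  have hY2 : (Y : ℝ) ≤ 101 * (N * Real.log N) := by
    have : (Y : ℝ) < 100 * (N * Real.log N) + 1 := Nat.ceil_lt_add_one (by positivity)
    nlinarith
  have hYpos : 1 ≤ Y := by
    have : (1 : ℝ) ≤ Y := by nlinarith
    exact_mod_cast this
  refine ⟨Y, hYpos, hY2, (Finset.Icc (18 * N) Y).filter Nat.Prime, ?_, ?_⟩
  · intro p hp
    rw [Finset.mem_filter, Finset.mem_Icc] at hp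
    exact ⟨hp.2, by omega, hp.1.2⟩
  · have hpi := Chebyshev.pi_ge Y
    have hYN : (Y : ℝ) ≤ N ^ 2 := by nlinarith
    have hYge : (3 : ℝ) ≤ Y := by nlinarith
    have hlogY : Real.log Y ≤ 2 * Real.log N := by
      have : Real.log Y ≤ Real.log ((N : ℝ) ^ 2) := Real.log_le_log (by linarith) hYN
      rwa [Real.log_pow, Nat.cast_two] at this
    have hlogY0 : 0 < Real.log Y := Real.log_pos (by linarith)
    have hlogY1 : Real.log (Y + 1) ≤ 2 * Real.log N + 1 := by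
      have h5 : Real.log ((Y : ℝ) + 1) ≤ Real.log (2 * Y) := Real.log_le_log (by linarith) (by linarith)
      rw [Real.log_mul (by norm_num) (by linarith)] at h5
      have := Real.log_two_lt_d9
      linarith
    have hcount : (31 : ℝ) * N ≤ (Nat.primeCounting Y : ℝ) := by
      refine le_trans ?_ hpi
      rw [le_div_iff₀ hlogY0]
      have h2 := Real.log_two_gt_d9
      have h3 : 31 * (N : ℝ) * Real.log Y ≤ 31 * N * (2 * Real.log N) :=
        mul_le_mul_of_nonneg_left hlogY (by positivity)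
      have h4 : (100 * (N * Real.log N)) * (69 / 100) ≤ Y * Real.log 2 := by
        apply mul_le_mul hY1 (by linarith) (by norm_num) (by positivity)
      nlinarith
    have hsub : Nat.primesLE Y ⊆ (Finset.Icc (18 * N) Y).filter Nat.Prime ∪ Finset.range (18 * N) := by
      intro p hp
      rw [Nat.mem_primesLE] at hp
      rw [Finset.mem_union, Finset.mem_filter, Finset.mem_Icc, Finset.mem_range]
      by_cases h : p < 18 * N
      · exact Or.inr h
      · left; exact ⟨⟨by omega, hp.1⟩, hp.2⟩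
    have hc := (Finset.card_le_card hsub).trans (Finset.card_union_le _ _)
    rw [Nat.primesLE_card_eq_primeCounting, Finset.card_range] at hc
    have hcount' : 31 * N ≤ Nat.primeCounting Y := by exact_mod_cast hcount
    omega

lemma gc_lower (M : ℕ) (hM : 1 ≤ M) : 1 / (2 * M) ≤ gc M M := by
  unfold gc
  have h := Nat.four_pow_le_two_mul_self_mul_centralBinom M (by omega)
  have h2 : (4 : ℝ) ^ M ≤ 2 * M * ((2 * M).choose M : ℝ) := by
    rw [Nat.centralBinom] at h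
    exact_mod_cast h
  have hM' : (0 : ℝ) < M := by exact_mod_cast hM
  rw [div_le_div_iff₀ (by positivity) (by positivity)]
  linarith

lemma par_ineq (N : ℕ) (hN : 2 ≤ N) :
    Real.exp (-(4 * ((1 / 2 : ℝ) ^ N) ^ 2 * ((8 ^ N : ℕ) : ℝ)))
      < gc (8 ^ N) (8 ^ N) ^ 2 - (1 / 4) ^ (4 * N) := by
  have h1 : 4 * ((1 / 2 : ℝ) ^ N) ^ 2 * ((8 ^ N : ℕ) : ℝ) = ((4 * 2 ^ N : ℕ) : ℝ) := by
    push_cast
    rw [mul_assoc, ← pow_mul, mul_comm N 2, pow_mul, ← mul_pow]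
    norm_num
  rw [h1]
  have h2 : 6 * N + 4 ≤ 4 * 2 ^ N := by
    induction N, hN using Nat.le_induction with
    | base => norm_num
    | succ n hn ih =>
      have : 4 ≤ 2 ^ n := by
        calc 4 = 2 ^ 2 := by norm_num
          _ ≤ 2 ^ n := Nat.pow_le_pow_right (by norm_num) hn
      rw [pow_succ]
      have h1' : 4 * ((1 / 2 : ℝ) ^ n) ^ 2 * ((8 ^ n : ℕ) : ℝ) = ((4 * 2 ^ n : ℕ) : ℝ) := by
        push_cast
        rw [mul_assoc, ← pow_mul, mul_comm n 2, pow_mul, ← mul_pow]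
        norm_num
      have := ih h1'
      omega
  have h3 : (2 : ℝ) ^ (6 * N + 4) ≤ Real.exp ((4 * 2 ^ N : ℕ) : ℝ) := by
    have e1 : (2 : ℝ) ≤ Real.exp 1 := by
      have := Real.add_one_le_exp (1 : ℝ); linarith
    calc (2 : ℝ) ^ (6 * N + 4) ≤ (Real.exp 1) ^ (6 * N + 4) :=
          pow_le_pow_left₀ (by norm_num) e1 _
      _ ≤ (Real.exp 1) ^ (4 * 2 ^ N) := pow_le_pow_right₀ (by linarith) h2
      _ = Real.exp ((4 * 2 ^ N : ℕ) : ℝ) := by rw [← Real.exp_nat_mul, mul_one]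
  have h4 : Real.exp (-((4 * 2 ^ N : ℕ) : ℝ)) ≤ (1 / 16) * (1 / 64) ^ N := by
    rw [Real.exp_neg]
    calc (Real.exp ((4 * 2 ^ N : ℕ) : ℝ))⁻¹ ≤ ((2 : ℝ) ^ (6 * N + 4))⁻¹ :=
          inv_anti₀ (by positivity) h3
      _ = (1 / 16) * (1 / 64) ^ N := by
          rw [pow_add, pow_mul, one_div_pow, mul_inv]; norm_num
          ring
  have h5 : ((1 : ℝ) / 4) ^ (4 * N) ≤ (1 / 16) * (1 / 64) ^ N := by
    have e : ((1 : ℝ) / 4) ^ (4 * N) = (1 / 4) ^ N * (1 / 64) ^ N := by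
      rw [pow_mul, ← mul_pow]; norm_num
    rw [e]
    apply mul_le_mul_of_nonneg_right _ (by positivity)
    calc ((1 : ℝ) / 4) ^ N ≤ (1 / 4) ^ 2 := pow_le_pow_of_le_one (by norm_num) (by norm_num) hN
      _ = 1 / 16 := by norm_num
  have h6 := gc_lower (8 ^ N) (Nat.one_le_pow _ _ (by norm_num))
  have h7 : (1 / 4 : ℝ) * (1 / 64) ^ N ≤ gc (8 ^ N) (8 ^ N) ^ 2 := by
    calc (1 / 4 : ℝ) * (1 / 64) ^ N = (1 / (2 * ((8 ^ N : ℕ) : ℝ))) ^ 2 := by
          push_cast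
          have e : ((8 : ℝ) ^ N) ^ 2 = 64 ^ N := by
            rw [← pow_mul, mul_comm N 2, pow_mul]; norm_num
          have e2 : ((1 : ℝ) / 64) ^ N = 1 / 64 ^ N := one_div_pow _ _
          have e3 : (0 : ℝ) < 64 ^ N := by positivity
          have e4 : (1 / (2 * (8 : ℝ) ^ N)) ^ 2 = 1 / (2 * (8 : ℝ) ^ N) ^ 2 := one_div_pow _ _
          rw [e2, e4, mul_pow, e]
          field_simp
          norm_num
      _ ≤ _ := pow_le_pow_left₀ (by positivity) h6 2
  have h8 : (0 : ℝ) < (1 / 64) ^ N := by positivity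
  linarith

lemma xi_norm (z : ℂ) (hz : ‖z‖ = 1) (him : 0 < |z.im|) (a b : ℤ) (M : ℕ) (ha : |a| ≤ M)
    (hb : |b| ≤ M) : ‖xi z a b‖ ≤ 3 * M / |z.im| := by
  have him1 : |z.im| ≤ 1 := by rw [← hz]; exact Complex.abs_im_le_norm z
  have hre1 : |z.re| ≤ 1 := by rw [← hz]; exact Complex.abs_re_le_norm z
  have ha' : |(a : ℝ)| ≤ M := by exact_mod_cast ha
  have hb' : |(b : ℝ)| ≤ M := by exact_mod_cast hb
  have hM0 : (0 : ℝ) ≤ M := by positivity
  have h1 := Complex.norm_le_abs_re_add_abs_im (xi z a b)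
  have h2 : |(xi z a b).re| ≤ M := ha'
  have h3 : |(xi z a b).im| ≤ 2 * M / |z.im| := by
    have : (xi z a b).im = -((b - a * z.re) / z.im) := rfl
    rw [this, abs_neg, abs_div]
    apply div_le_div_of_nonneg_right _ him.le
    calc |(b : ℝ) - a * z.re| ≤ |(b : ℝ)| + |(a : ℝ) * z.re| := abs_sub _ _
      _ ≤ M + M * 1 := by
          apply add_le_add hb'
          rw [abs_mul]
          exact mul_le_mul ha' hre1 (abs_nonneg _) hM0
      _ = 2 * M := by ring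
  have h4 : (M : ℝ) ≤ M / |z.im| := by
    rw [le_div_iff₀ him]; nlinarith
  have h5 : 3 * (M : ℝ) / |z.im| = M / |z.im| + 2 * M / |z.im| := by ring
  rw [h5]; linarith

theorem small_values (z : ℂ) (hz : ‖z‖ = 1) (him : 0 < |z.im|) (δ : ℝ) (hδ0 : 0 < δ) (hδ1 : δ ≤ 1)
    (hcyc : ∀ q : ℕ, 1 ≤ q → δ ^ q.totient ≤ ‖eval z (cyclotomic q ℂ)‖) :
    ∃ C : ℝ, 0 < C ∧ ∀ᶠ N : ℕ in atTop, ∀ w0 : ℂ, ‖w0‖ ≤ 1 → ∃ m : ℕ, ∃ c : ℕ → ℤ, 2 ≤ m ∧
      ‖∑ j ∈ range m, (c j : ℂ) * z ^ j - w0‖ ≤ 2 * (1 / 2) ^ N ∧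
      ((∑ j ∈ range m, (1 + |c j|) : ℤ) : ℝ) ≤ C * (N ^ 5 * Real.log N) := by
  obtain ⟨Λ, hΛ⟩ : ∃ Λ : ℕ, (12 / |z.im|) ^ 2 * (2 / δ) ^ 2 < Λ + 1 ∧ 2 ≤ Λ := by
    obtain ⟨Λ, h⟩ := exists_nat_gt ((12 / |z.im|) ^ 2 * (2 / δ) ^ 2)
    refine ⟨Λ + 2, ?_, by omega⟩
    push_cast; linarith
  obtain ⟨hΛ1, hΛ2⟩ := hΛ
  set C2 : ℝ := 4 + 6 / |z.im| with hC2
  have hC2pos : 0 < C2 := by positivity
  refine ⟨C2 * (65 * 101 * 144 * Λ), by positivity, ?_⟩
  have hlarge1 : ∀ᶠ N : ℕ in atTop, 432 * (N : ℝ) / |z.im| + 2 + 12 / |z.im| ≤ 2 ^ N := by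
    have h1 : Tendsto (fun N : ℕ => (N : ℝ) ^ 1 / 2 ^ N) atTop (nhds 0) :=
      tendsto_pow_const_div_const_pow_of_one_lt 1 (by norm_num)
    have hc : (0 : ℝ) < |z.im| / 500 := by positivity
    have h2 := h1.eventually (gt_mem_nhds hc)
    filter_upwards [h2, eventually_ge_atTop 1] with N hN hN1
    have hN1' : (1 : ℝ) ≤ N := by exact_mod_cast hN1
    rw [pow_one, div_lt_iff₀ (by positivity)] at hN
    have him1 : |z.im| ≤ 1 := by rw [← hz]; exact Complex.abs_im_le_norm z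
    have h3 : 432 * (N : ℝ) / |z.im| + 2 + 12 / |z.im| ≤ 500 * N / |z.im| := by
      rw [div_add' _ _ _ him.ne', ← add_div]
      apply div_le_div_of_nonneg_right _ him.le
      nlinarith
    refine h3.trans ?_
    rw [div_le_iff₀ him]
    have : |z.im| / 500 * 2 ^ N * 500 = 2 ^ N * |z.im| := by ring
    linarith
  filter_upwards [primes_exist, hlarge1, eventually_ge_atTop 3] with N hprimes hl1 hN3 w0 hw0
  obtain ⟨Y, hY1, hY2, P, hP, hPc⟩ := hprimes
  have hN3' : (3 : ℝ) ≤ N := by exact_mod_cast hN3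
  have hlog1 : 1 ≤ Real.log N := by
    rw [Real.le_log_iff_exp_le (by linarith)]
    exact (Real.exp_one_lt_d9.le.trans (by norm_num)).trans hN3'
  set k := 9 * N with hk
  set s := 4 * N with hs
  set m := s * (k * Y) + 3 * k + 2 with hm
  set T : ℝ := 3 * ((8 ^ N : ℕ) : ℝ) / |z.im| with hT
  have him1 : |z.im| ≤ 1 := by rw [← hz]; exact Complex.abs_im_le_norm z
  have h8 : (1 : ℝ) ≤ 8 ^ N := one_le_pow₀ (by norm_num)
  have hkR : (k : ℝ) = 9 * N := by rw [hk]; push_cast; ring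
  have hΛR : (2 : ℝ) ≤ Λ := by exact_mod_cast hΛ2
  have hkpos : (0 : ℝ) < k := by rw [hkR]; linarith
  set η : ℝ := 1 / (2 * k * Λ) with hη
  have hηpos : 0 < η := by positivity
  have hT1 : 1 ≤ T := by
    rw [hT, le_div_iff₀ him]; push_cast; nlinarith
  have h16 : (16 : ℝ) ^ N = 2 ^ N * 8 ^ N := by rw [← mul_pow]; norm_num
  have hn1 : 16 * (k : ℝ) * T + 2 ≤ ((16 ^ N : ℕ) : ℝ) := by
    push_cast
    rw [h16, hkR, hT]
    push_cast
    have e1 : 16 * (9 * (N : ℝ)) * (3 * 8 ^ N / |z.im|) = (432 * N / |z.im|) * 8 ^ N := by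
      field_simp; ring
    rw [e1]
    have e2 : (432 * (N : ℝ) / |z.im| + 2 + 12 / |z.im|) * 8 ^ N ≤ 2 ^ N * 8 ^ N :=
      mul_le_mul_of_nonneg_right hl1 (by positivity)
    have e3 : 0 ≤ 12 / |z.im| * 8 ^ N := by positivity
    nlinarith
  have hn1k : (16 ^ N) ^ 2 < 2 ^ k := by
    rw [hk, show (16 : ℕ) = 2 ^ 4 by norm_num, ← pow_mul, ← pow_mul]
    exact Nat.pow_lt_pow_right (by norm_num) (by omega)
  have hηk : η * k ≤ 1 / 4 := by
    rw [hη]
    have : 1 / (2 * (k : ℝ) * Λ) * k = 1 / (2 * Λ) := by field_simp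
    rw [this]
    exact div_le_div_of_nonneg_left (by norm_num) (by norm_num) (by linarith)
  have hηΛ : η * k * Λ ≤ 1 / 2 := by
    rw [hη]
    have : 1 / (2 * (k : ℝ) * Λ) * k * Λ = 1 / 2 := by field_simp
    rw [this]
  have hsT : T ≤ 2 ^ s / 4 := by
    have e1 : (2 : ℝ) ^ s = 16 ^ N := by rw [hs, pow_mul]; norm_num
    rw [e1, h16, hT]
    push_cast
    have e2 : 12 / |z.im| ≤ 2 ^ N := by
      have : 0 ≤ 432 * (N : ℝ) / |z.im| := by positivity
      linarith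
    have e3 : 12 / |z.im| * 8 ^ N ≤ 2 ^ N * 8 ^ N := mul_le_mul_of_nonneg_right e2 (by positivity)
    have e4 : 3 * (8 : ℝ) ^ N / |z.im| = (12 / |z.im| * 8 ^ N) / 4 := by ring
    rw [e4]
    linarith
  have hm2 : 2 ≤ m := by omega
  have hdual : ∀ a b : ℤ, |a| ≤ ((8 ^ N : ℕ) : ℤ) → |b| ≤ ((8 ^ N : ℕ) : ℤ) → (a ≠ 0 ∨ b ≠ 0) →
      ∃ j < m, η ≤ |lf z a b (z ^ j) - round (lf z a b (z ^ j))| := by
    intro a b ha hb hab
    by_contra hcon
    push Not at hcon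
    have hd := dual z hz him k s Y m Λ (16 ^ N) T η δ hT1 (by omega) hηpos.le hn1 hn1k hηk hsT P hP
      (by omega) (by omega) hδ0 hδ1 hcyc (by omega) hΛ1 hηΛ (xi z a b)
      (xi_norm z hz him a b (8 ^ N) ha hb) (fun j => round (lf z a b (z ^ j))) (by
        intro j hj
        have := hcon j hj
        rw [lf_eq] at this
        rw [abs_sub_comm]
        simp only [lf_eq]
        exact this.le)
    have hzim : z.im ≠ 0 := fun h => by rw [h] at him; simp at him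
    have e0 : lf z a b (z ^ 0) = a := by
      unfold lf t1 t2; simp
    have e1 : lf z a b (z ^ 1) = b := by
      unfold lf t1 t2
      rw [pow_one, div_self hzim]; ring
    simp only [e0, e1, round_intCast] at hd
    rcases hab with h | h
    · exact h hd.1
    · exact h hd.2
  set B := 4 * k * Λ with hB
  have hBη : 2 / η ≤ (B : ℝ) := by
    rw [hη, hB]; push_cast
    apply le_of_eq
    field_simp
    ring
  have hB1 : 1 ≤ B := by
    have : 0 < 4 * k * Λ := by positivity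
    omega
  obtain ⟨c, hc1, hc2⟩ := approx z hz him m s B (8 ^ N) η ((1 / 2) ^ N) hm2 hB1
    (Nat.one_le_pow _ _ (by norm_num)) hηpos hBη (by positivity)
    (pow_le_one₀ (by norm_num) (by norm_num)) hdual (par_ineq N (by omega)) w0 hw0
  refine ⟨m, c, hm2, hc1, ?_⟩
  have hsum : ((∑ j ∈ range m, (1 + |c j|) : ℤ) : ℝ) = m + ((∑ j ∈ range m, |c j| : ℤ) : ℝ) := by
    rw [Finset.sum_add_distrib]; push_cast; simp
  rw [hsum]
  have hsR : (s : ℝ) = 4 * N := by rw [hs]; push_cast; ring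
  have hBR : (B : ℝ) = 36 * Λ * N := by rw [hB]; push_cast; rw [hkR]; ring
  have hY1' : (1 : ℝ) ≤ Y := by exact_mod_cast hY1
  have hmR : (m : ℝ) ≤ 65 * (N ^ 2 * Y) := by
    rw [hm]; push_cast; rw [hsR, hkR]
    nlinarith [mul_nonneg (by linarith : (0:ℝ) ≤ N) (by linarith : (0 : ℝ) ≤ (N : ℝ) - 3),
      mul_nonneg (sq_nonneg (N : ℝ)) (by linarith : (0 : ℝ) ≤ (Y : ℝ) - 1)]
  set W : ℝ := m * s * B with hW
  have hm0 : (2 : ℝ) ≤ m := by exact_mod_cast hm2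
  have hsB : 1 ≤ (s : ℝ) * B := by rw [hsR, hBR]; nlinarith
  have hWm : (m : ℝ) ≤ W := by rw [hW, mul_assoc]; nlinarith
  have hW1 : 1 ≤ W := by linarith
  have htot : (m : ℝ) + ((∑ j ∈ range m, |c j| : ℤ) : ℝ) ≤ C2 * W := by
    have e1 : 3 * (W + 1) / |z.im| ≤ 6 / |z.im| * W := by
      rw [div_mul_eq_mul_div]
      apply div_le_div_of_nonneg_right _ him.le
      linarith
    rw [hC2]
    nlinarith
  refine htot.trans ?_
  have hWle : W ≤ 65 * 101 * 144 * Λ * (N ^ 5 * Real.log N) := by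
    rw [hW, hsR, hBR]
    calc (m : ℝ) * (4 * N) * (36 * Λ * N) = m * (144 * Λ * N ^ 2) := by ring
      _ ≤ (65 * (N ^ 2 * Y)) * (144 * Λ * N ^ 2) :=
          mul_le_mul_of_nonneg_right hmR (by positivity)
      _ ≤ (65 * (N ^ 2 * (101 * (N * Real.log N)))) * (144 * Λ * N ^ 2) := by
          apply mul_le_mul_of_nonneg_right _ (by positivity)
          apply mul_le_mul_of_nonneg_left _ (by norm_num)
          exact mul_le_mul_of_nonneg_left hY2 (by positivity)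
      _ = _ := by ring
  calc C2 * W ≤ C2 * (65 * 101 * 144 * Λ * (N ^ 5 * Real.log N)) :=
        mul_le_mul_of_nonneg_left hWle hC2pos.le
    _ = _ := by ring

end Pool.Agent.H777_DPV
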