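import Pool.Agent.H777_DPV.G
import Pool.Agent.H777_DPV.Defs

open Polynomial Finset Filter

namespace Pool.Agent.H777_DPV

lemma dc_lower (θ m : ℝ) (h : DC m θ) : ∃ Q : ℕ, 1 ≤ Q ∧ ∀ q : ℕ, Q ≤ q →
    2 / Real.pi * (q : ℝ) ^ (1 - m) ≤ ‖Complex.exp (Complex.I * θ) ^ q - 1‖ := by
  obtain ⟨Q, hQ⟩ := eventually_atTop.1 h
  refine ⟨max Q 1, le_max_right _ _, ?_⟩
  intro q hq
  have hq1 : 1 ≤ q := (le_max_right _ _).trans hq
  have hqR : (0 : ℝ) < q := by exact_mod_cast hq1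
  have hpi := Real.pi_pos
  have h1 := hQ q ((le_max_left _ _).trans hq) (round ((q : ℝ) * θ / (2 * Real.pi)))
  set x : ℝ := (q : ℝ) * θ / (2 * Real.pi) with hx
  have h2 : |x - round x| = q / (2 * Real.pi) * |θ - 2 * Real.pi * (round x : ℤ) / q| := by
    have e : x - round x = q / (2 * Real.pi) * (θ - 2 * Real.pi * (round x : ℤ) / q) := by
      rw [hx]; field_simp
    rw [e, abs_mul, abs_of_pos (by positivity : (0 : ℝ) < q / (2 * Real.pi))]
  have h3 : Complex.exp (Complex.I * θ) ^ q = Complex.exp (Complex.I * ((q * θ : ℝ) : ℂ)) := by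
    rw [← Complex.exp_nat_mul]
    congr 1
    push_cast
    ring
  rw [h3, Complex.norm_exp_I_mul_ofReal_sub_one, norm_mul, Real.norm_eq_abs, Real.norm_eq_abs,
    abs_of_pos (by norm_num : (0 : ℝ) < 2)]
  have h4 : (q : ℝ) * θ / 2 = Real.pi * x := by rw [hx]; field_simp
  rw [h4]
  have h5 := sin_lower x
  have h6 : (q : ℝ) ^ (1 - m) = q * (q : ℝ) ^ (-m) := by
    rw [show (1 : ℝ) - m = 1 + (-m) by ring, Real.rpow_add hqR, Real.rpow_one]
  have h7 : q / (2 * Real.pi) * (q : ℝ) ^ (-m) ≤ |x - round x| := by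
    rw [h2]
    exact mul_le_mul_of_nonneg_left h1 (by positivity)
  have h8 : 2 / Real.pi * (q : ℝ) ^ (1 - m) = 4 * (q / (2 * Real.pi) * (q : ℝ) ^ (-m)) := by
    rw [h6]; field_simp; ring
  rw [h8]
  linarith

lemma dc_ne (θ m : ℝ) (h : DC m θ) (r : ℕ) (hr : 1 ≤ r) :
    Complex.exp (Complex.I * θ) ^ r ≠ 1 := by
  intro h1
  obtain ⟨Q, hQ1, hQ⟩ := dc_lower θ m h
  have h2 := hQ (r * Q) (Nat.le_mul_of_pos_left Q hr)
  rw [pow_mul, h1, one_pow, sub_self, norm_zero] at h2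
  have h3 : (0 : ℝ) < ((r * Q : ℕ) : ℝ) := by
    exact_mod_cast Nat.mul_pos (by omega) (by omega)
  have h4 : 0 < 2 / Real.pi * ((r * Q : ℕ) : ℝ) ^ (1 - m) := by
    have := Real.pi_pos
    positivity
  linarith

lemma dc_log (θ m : ℝ) (h : DC m θ) : ∃ C : ℝ, 0 ≤ C ∧ ∀ r : ℕ, 1 ≤ r →
    |Real.log ‖Complex.exp (Complex.I * θ) ^ r - 1‖| ≤ C * (1 + Real.log r) := by
  obtain ⟨Q, hQ1, hQ⟩ := dc_lower θ m h
  set f : ℕ → ℝ := fun r => |Real.log ‖Complex.exp (Complex.I * θ) ^ r - 1‖| with hf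
  have hf0 : ∀ r, 0 ≤ f r := fun r => abs_nonneg _
  refine ⟨1 + |1 - m| + ∑ r ∈ range Q, f r, ?_, ?_⟩
  · have := Finset.sum_nonneg (fun r (_ : r ∈ range Q) => hf0 r)
    have := abs_nonneg (1 - m)
    linarith
  · intro r hr
    have hs0 := Finset.sum_nonneg (fun r (_ : r ∈ range Q) => hf0 r)
    have hrR : (1 : ℝ) ≤ r := by exact_mod_cast hr
    have hl0 : 0 ≤ Real.log r := Real.log_nonneg hrR
    have ha := abs_nonneg (1 - m)
    rcases lt_or_ge r Q with hrQ | hrQ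
    · have h1 : f r ≤ ∑ r ∈ range Q, f r :=
        Finset.single_le_sum (fun i _ => hf0 i) (Finset.mem_range.2 hrQ)
      have h2 : f r ≤ (1 + |1 - m| + ∑ r ∈ range Q, f r) * 1 := by linarith
      refine h2.trans ?_
      apply mul_le_mul_of_nonneg_left _ (by linarith)
      linarith
    · have h1 := hQ r hrQ
      have hpi := Real.pi_pos
      have hpi4 := Real.pi_lt_d2
      have hpos : 0 < 2 / Real.pi * (r : ℝ) ^ (1 - m) := by positivity
      have h2 : Real.log (2 / Real.pi * (r : ℝ) ^ (1 - m))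
          ≤ Real.log ‖Complex.exp (Complex.I * θ) ^ r - 1‖ := Real.log_le_log hpos h1
      rw [Real.log_mul (by positivity) (by positivity), Real.log_rpow (by linarith)] at h2
      have h3 : -1 ≤ Real.log (2 / Real.pi) := by
        rw [Real.le_log_iff_exp_le (by positivity), Real.exp_neg, le_div_iff₀ hpi]
        have e1 : (2 : ℝ) ≤ Real.exp 1 := by
          have := Real.add_one_le_exp (1 : ℝ); linarith
        have e2 : (2.7182818283 : ℝ) < Real.exp 1 := Real.exp_one_gt_d9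
        rw [inv_mul_le_iff₀ (by positivity)]
        nlinarith
      have h4 : ‖Complex.exp (Complex.I * θ) ^ r - 1‖ ≤ 2 := by
        calc _ ≤ ‖Complex.exp (Complex.I * θ) ^ r‖ + ‖(1 : ℂ)‖ := norm_sub_le _ _
          _ = 2 := by rw [norm_pow, Complex.norm_exp_I_mul_ofReal]; norm_num
      have h5 : Real.log ‖Complex.exp (Complex.I * θ) ^ r - 1‖ ≤ 1 := by
        have e1 := Real.log_le_log (lt_of_lt_of_le hpos h1) h4
        have := Real.log_two_lt_d9
        linarith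
      have h6 : -|1 - m| * Real.log r ≤ (1 - m) * Real.log r :=
        mul_le_mul_of_nonneg_right (neg_abs_le _) hl0
      have h7 : 0 ≤ |1 - m| * Real.log r := by positivity
      have h8 : 0 ≤ (∑ r ∈ range Q, f r) * Real.log r := by positivity
      have h9 : (1 + |1 - m| + ∑ r ∈ range Q, f r) * (1 + Real.log r)
          = 1 + |1 - m| + ∑ r ∈ range Q, f r + Real.log r + |1 - m| * Real.log r
            + (∑ r ∈ range Q, f r) * Real.log r := by ring
      rw [h9, abs_le]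
      constructor <;> linarith

lemma im_ne (θ m : ℝ) (h : DC m θ) : 0 < |(Complex.exp (Complex.I * θ)).im| := by
  rw [abs_pos]
  intro h0
  have h1 := dc_ne θ m h 2 (by norm_num)
  apply h1
  have h2 : ‖Complex.exp (Complex.I * θ)‖ = 1 := Complex.norm_exp_I_mul_ofReal θ
  set z := Complex.exp (Complex.I * θ) with hz
  have h3 : z = (z.re : ℂ) := by
    apply Complex.ext
    · simp
    · simp [h0]
  have h4 : z.re ^ 2 = 1 := by
    have := Complex.sq_norm z
    rw [h2, Complex.normSq_apply, h0] at this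
    nlinarith
  rw [h3, ← Complex.ofReal_pow, h4, Complex.ofReal_one]

lemma tendsto_div_log : Tendsto (fun n : ℕ => (n : ℝ) / Real.log n) atTop atTop := by
  have h1 : Tendsto (fun n : ℕ => (n : ℝ) ^ (1 / 2 : ℝ) * (1 / 2)) atTop atTop :=
    ((tendsto_rpow_atTop (by norm_num : (0 : ℝ) < 1 / 2)).comp
      tendsto_natCast_atTop_atTop).atTop_mul_const (by norm_num)
  refine tendsto_atTop_mono' _ ?_ h1
  filter_upwards [eventually_ge_atTop 3] with n hn
  have hn' : (3 : ℝ) ≤ n := by exact_mod_cast hn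
  have hl : 0 < Real.log n := Real.log_pos (by linarith)
  rw [le_div_iff₀ hl]
  have h2 := Real.log_le_rpow_div (x := (n : ℝ)) (ε := 1 / 2) (by linarith) (by norm_num)
  have h3 : 0 ≤ (n : ℝ) ^ (1 / 2 : ℝ) := by positivity
  have h4 : (n : ℝ) ^ (1 / 2 : ℝ) * (n : ℝ) ^ (1 / 2 : ℝ) = n := by
    rw [← Real.rpow_add (by linarith)]; norm_num
  calc (n : ℝ) ^ (1 / 2 : ℝ) * (1 / 2) * Real.log n
      ≤ (n : ℝ) ^ (1 / 2 : ℝ) * (1 / 2) * ((n : ℝ) ^ (1 / 2 : ℝ) / (1 / 2)) :=
        mul_le_mul_of_nonneg_left h2 (by positivity)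
    _ = n := by
        rw [show (n : ℝ) ^ (1 / 2 : ℝ) * (1 / 2) * ((n : ℝ) ^ (1 / 2 : ℝ) / (1 / 2))
          = (n : ℝ) ^ (1 / 2 : ℝ) * (n : ℝ) ^ (1 / 2 : ℝ) by ring, h4]

lemma dpv_of_approx (n N : ℕ) (θ R : ℝ) (hR : 0 < R) (hRN : 200 * R ≤ 2 ^ N)
    (happ : ∀ w0 : ℂ, ‖w0‖ ≤ 1 → ∃ m : ℕ, ∃ c : ℕ → ℤ, 2 ≤ m ∧
      ‖∑ j ∈ range m, (c j : ℂ) * Complex.exp (Complex.I * θ) ^ j - w0‖ ≤ 2 * (1 / 2) ^ N ∧
      ((∑ j ∈ range m, (1 + |c j|) : ℤ) : ℝ) ≤ n) : DPV n R θ := by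
  intro w hw1 hw2 hw3 hw4
  have hpi := Real.pi_gt_three
  obtain ⟨y, hy1, hy2, hy3⟩ : ∃ y : ℝ, 1 / 20 ≤ y ∧ y ≤ 2 * Real.pi - 1 / 20 ∧
      |w.im - y| ≤ 1 / 20 := by
    refine ⟨max (1 / 20) (min w.im (2 * Real.pi - 1 / 20)), le_max_left _ _, ?_, ?_⟩
    · apply max_le _ (min_le_right _ _)
      linarith
    · rw [abs_le]
      rcases le_total w.im (2 * Real.pi - 1 / 20) with h | h
      · rw [min_eq_left h]
        rcases le_total (1 / 20) w.im with h' | h'
        · rw [max_eq_right h']; constructor <;> linarith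
        · rw [max_eq_left h']; constructor <;> linarith
      · rw [min_eq_right h, max_eq_right (by linarith)]
        constructor <;> linarith
  set w' : ℂ := ⟨w.re, y⟩ with hw'
  have hn0 : ‖Complex.exp w'‖ = Real.exp w.re := by rw [Complex.norm_exp]
  have hn1 : ‖Complex.exp w'‖ ≤ 1 := by rw [hn0]; exact Real.exp_le_one_iff.2 hw2
  have hn2 : 1 / R ≤ ‖Complex.exp w'‖ := by
    rw [hn0]
    calc 1 / R = Real.exp (-Real.log R) := by rw [Real.exp_neg, Real.exp_log hR, one_div]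
      _ ≤ _ := Real.exp_le_exp.2 hw1
  obtain ⟨m, c, hm, hP, hwt⟩ := happ _ hn1
  set P : ℂ := ∑ j ∈ range m, (c j : ℂ) * Complex.exp (Complex.I * θ) ^ j with hPdef
  have hne : Complex.exp w' ≠ 0 := Complex.exp_ne_zero _
  set ε : ℂ := (P - Complex.exp w') / Complex.exp w' with hε
  have hε1 : ‖ε‖ ≤ 1 / 100 := by
    rw [hε, norm_div, div_le_iff₀ (norm_pos_iff.2 hne)]
    refine hP.trans ?_
    have e1 : 2 * (1 / 2 : ℝ) ^ N ≤ 1 / 100 * (1 / R) := by
      rw [one_div_pow]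
      have h2 : (0 : ℝ) < 2 ^ N := by positivity
      have e3 : 2 * (1 / (2 : ℝ) ^ N) = 2 / 2 ^ N := by ring
      have e4 : 1 / 100 * (1 / R) = 1 / (100 * R) := by field_simp
      rw [e3, e4, div_le_div_iff₀ h2 (by positivity)]
      linarith
    exact e1.trans (mul_le_mul_of_nonneg_left hn2 (by norm_num))
  have hPe : P = Complex.exp w' * (1 + ε) := by
    rw [hε]; field_simp; ring
  have h1ε : 1 + ε ≠ 0 := by
    intro h
    have : ε = -1 := by linear_combination h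
    rw [this, norm_neg, norm_one] at hε1
    norm_num at hε1
  have hlog := Complex.norm_log_one_add_half_le_self (z := ε) (by linarith)
  have hlog' : ‖Complex.log (1 + ε)‖ ≤ 3 / 200 := by linarith
  refine ⟨w' + Complex.log (1 + ε), ⟨?_, ?_, m - 1, c, ?_, ?_⟩, ?_⟩
  · have := Complex.abs_im_le_norm (Complex.log (1 + ε))
    have h2 := abs_le.1 (this.trans hlog')
    rw [Complex.add_im]
    have : w'.im = y := rfl
    rw [this]; linarith [h2.1]
  · have := Complex.abs_im_le_norm (Complex.log (1 + ε))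
    have h2 := abs_le.1 (this.trans hlog')
    rw [Complex.add_im]
    have : w'.im = y := rfl
    rw [this]; linarith [h2.2]
  · rw [Nat.sub_add_cancel (by omega)]
    exact_mod_cast hwt
  · rw [Nat.sub_add_cancel (by omega), Complex.exp_add, Complex.exp_log h1ε, ← hPe]
  · have e1 : w - (w' + Complex.log (1 + ε)) = (w - w') - Complex.log (1 + ε) := by ring
    have e2 : w - w' = ((w.im - y : ℝ) : ℂ) * Complex.I := by
      apply Complex.ext
      · simp [hw']
      · simp [hw']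
    have e3 : ‖w - w'‖ ≤ 1 / 20 := by
      rw [e2, norm_mul, Complex.norm_I, mul_one, Complex.norm_real]
      exact hy3
    rw [e1]
    calc _ ≤ ‖w - w'‖ + ‖Complex.log (1 + ε)‖ := norm_sub_le _ _
      _ ≤ 1 / 20 + 3 / 200 := add_le_add e3 hlog'
      _ ≤ 1 / 10 := by norm_num

theorem main (θ : ℝ) (hDC : ∃ m : ℝ, DC m θ) : ∃ c : ℝ, 0 < c ∧ ∀ᶠ n : ℕ in atTop,
    ((Real.exp (c * ((n : ℝ) / Real.log n) ^ (1 / 5 : ℝ)) : ℝ) : EReal) ≤ RDPV n θ := by
  obtain ⟨m, hm⟩ := hDC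
  set z := Complex.exp (Complex.I * θ) with hz
  have hz1 : ‖z‖ = 1 := Complex.norm_exp_I_mul_ofReal θ
  obtain ⟨C0, hC0, hC⟩ := dc_log θ m hm
  have hne := dc_ne θ m hm
  have hcyc : ∀ q : ℕ, 1 ≤ q → (Real.exp (-(8 * C0))) ^ q.totient ≤
      ‖eval z (cyclotomic q ℂ)‖ := by
    intro q hq
    have h1 := cyc_bound z C0 hC0 hC hne q hq 1 le_rfl
    have h2 := wt_le q
    rw [pow_one, Nat.cast_one, Real.log_one, add_zero, mul_one] at h1
    have hpos : 0 < ‖eval z (cyclotomic q ℂ)‖ := by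
      rw [norm_pos_iff]
      intro h0
      have h3 : z ^ q - 1 = 0 := by
        have h4 : (cyclotomic q ℂ) ∣ (X ^ q - 1 : ℂ[X]) := cyclotomic.dvd_X_pow_sub_one q ℂ
        obtain ⟨g, hg⟩ := h4
        have h5 := congrArg (eval z) hg
        rw [eval_mul, h0, zero_mul] at h5
        simpa using h5
      exact hne q hq (by linear_combination h3)
    have h4 : -(8 * C0) * q.totient ≤ Real.log ‖eval z (cyclotomic q ℂ)‖ := by
      have h5 := (abs_le.1 h1).1
      have h6 : C0 * wt q * q.totient ≤ C0 * 8 * q.totient :=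
        mul_le_mul_of_nonneg_right (mul_le_mul_of_nonneg_left h2 hC0) (by positivity)
      linarith
    calc (Real.exp (-(8 * C0))) ^ q.totient = Real.exp (-(8 * C0) * q.totient) := by
          rw [← Real.exp_nat_mul]; congr 1; ring
      _ ≤ Real.exp (Real.log ‖eval z (cyclotomic q ℂ)‖) := Real.exp_le_exp.2 h4
      _ = _ := Real.exp_log hpos
  obtain ⟨C, hCpos, hsm⟩ := small_values z hz1 (im_ne θ m hm) (Real.exp (-(8 * C0)))
    (Real.exp_pos _) (Real.exp_le_one_iff.2 (by linarith)) hcyc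
  set c1 : ℝ := min 1 (1 / C) with hc1
  have hc1pos : 0 < c1 := lt_min one_pos (by positivity)
  have hc1le : c1 ≤ 1 := min_le_left _ _
  have hc1C : C * c1 ≤ 1 := by
    have : c1 ≤ 1 / C := min_le_right _ _
    calc C * c1 ≤ C * (1 / C) := mul_le_mul_of_nonneg_left this hCpos.le
      _ = 1 := by field_simp
  refine ⟨c1 / 4, by positivity, ?_⟩
  set u : ℕ → ℝ := fun n => ((n : ℝ) / Real.log n) ^ (1 / 5 : ℝ) with hu
  have hu1 : Tendsto u atTop atTop :=
    (tendsto_rpow_atTop (by norm_num : (0 : ℝ) < 1 / 5)).comp tendsto_div_log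
  have hu2 : Tendsto (fun n => c1 * u n) atTop atTop := hu1.const_mul_atTop hc1pos
  have hu3 : Tendsto (fun n => ⌊c1 * u n⌋₊) atTop atTop := tendsto_nat_floor_atTop.comp hu2
  have hsm' := hu3.eventually hsm
  filter_upwards [hsm', hu2.eventually_ge_atTop 20, eventually_ge_atTop 3] with n hn1 hn2 hn3
  have hn3' : (3 : ℝ) ≤ n := by exact_mod_cast hn3
  have hlog1 : 1 ≤ Real.log n := by
    rw [Real.le_log_iff_exp_le (by linarith)]
    exact (Real.exp_one_lt_d9.le.trans (by norm_num)).trans hn3'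
  set N := ⌊c1 * u n⌋₊ with hN
  have hNle : (N : ℝ) ≤ c1 * u n := Nat.floor_le (by linarith)
  have hNgt : c1 * u n < N + 1 := Nat.lt_floor_add_one _
  have hN1 : (1 : ℝ) ≤ N := by linarith
  have hu0 : 0 ≤ u n := by
    have : 0 < c1 * u n := by linarith
    exact ((mul_pos_iff_of_pos_left hc1pos).1 this).le
  have hu5 : u n ^ 5 = n / Real.log n := by
    rw [hu]
    simp only
    rw [← Real.rpow_natCast, ← Real.rpow_mul (by positivity)]
    norm_num
  have hndiv : (n : ℝ) / Real.log n ≤ n := div_le_self (by linarith) hlog1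
  have hN5 : (N : ℝ) ^ 5 ≤ c1 * (n / Real.log n) := by
    calc (N : ℝ) ^ 5 ≤ (c1 * u n) ^ 5 := pow_le_pow_left₀ (by positivity) hNle 5
      _ = c1 * (c1 ^ 4 * (n / Real.log n)) := by rw [mul_pow, hu5]; ring
      _ ≤ c1 * (1 * (n / Real.log n)) := by
          apply mul_le_mul_of_nonneg_left _ hc1pos.le
          exact mul_le_mul_of_nonneg_right (pow_le_one₀ hc1pos.le hc1le) (by positivity)
      _ = _ := by ring
  have hNn : (N : ℝ) ≤ n := by
    calc (N : ℝ) ≤ (N : ℝ) ^ 5 := le_self_pow₀ hN1 (by norm_num)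
      _ ≤ c1 * (n / Real.log n) := hN5
      _ ≤ 1 * n := mul_le_mul hc1le hndiv (by positivity) (by norm_num)
      _ = n := one_mul _
  have hweight : C * ((N : ℝ) ^ 5 * Real.log N) ≤ n := by
    have hlN : Real.log N ≤ Real.log n := Real.log_le_log (by linarith) hNn
    calc C * ((N : ℝ) ^ 5 * Real.log N) ≤ C * (c1 * (n / Real.log n) * Real.log n) := by
          apply mul_le_mul_of_nonneg_left _ hCpos.le
          exact mul_le_mul hN5 hlN (Real.log_nonneg hN1) (by positivity)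
      _ = (C * c1) * n := by field_simp
      _ ≤ 1 * n := mul_le_mul_of_nonneg_right hc1C (by positivity)
      _ = n := one_mul _
  have hRpos : 0 < Real.exp (c1 / 4 * u n) := Real.exp_pos _
  have hRN : 200 * Real.exp (c1 / 4 * u n) ≤ 2 ^ N := by
    have e1 : (200 : ℝ) ≤ Real.exp 6 := by
      have h2 : (2.7182818283 : ℝ) < Real.exp 1 := Real.exp_one_gt_d9
      calc (200 : ℝ) ≤ (2.7 : ℝ) ^ 6 := by norm_num
        _ ≤ (Real.exp 1) ^ 6 := pow_le_pow_left₀ (by norm_num) (by linarith) 6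
        _ = Real.exp 6 := by rw [← Real.exp_nat_mul]; norm_num
    have e2 : (2 : ℝ) ^ N = Real.exp (Real.log 2 * N) := by
      rw [Real.exp_mul, Real.exp_log (by norm_num), Real.rpow_natCast]
    rw [e2]
    calc 200 * Real.exp (c1 / 4 * u n) ≤ Real.exp 6 * Real.exp (c1 / 4 * u n) :=
          mul_le_mul_of_nonneg_right e1 hRpos.le
      _ = Real.exp (6 + c1 / 4 * u n) := by rw [Real.exp_add]
      _ ≤ Real.exp (Real.log 2 * N) := by
          apply Real.exp_le_exp.2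
          have h2 := Real.log_two_gt_d9
          nlinarith
  apply le_sSup
  refine ⟨Real.exp (c1 / 4 * u n), ⟨hRpos, ?_⟩, rfl⟩
  apply dpv_of_approx n N θ _ hRpos hRN
  intro w0 hw0
  obtain ⟨k, c, hk, hP, hwt⟩ := hn1 w0 hw0
  exact ⟨k, c, hk, hP, hwt.trans hweight⟩

lemma ae_dc : ∀ᵐ θ : ℝ, ∃ m : ℝ, DC m θ := by
  have h1 : ∀ᵐ x : ℝ, (∀ p > 2, ¬ LiouvilleWith p x) ∧ x ∉ Set.range ((↑) : ℚ → ℝ) :=
    ae_not_liouvilleWith.and ((Set.countable_range _).ae_notMem MeasureTheory.volume)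
  have hpi := Real.pi_pos
  set a : ℝ := 1 / (2 * Real.pi) with ha
  have ha0 : a ≠ 0 := by positivity
  have h2 : ∀ᵐ y ∂(MeasureTheory.Measure.map (fun x => a * x) MeasureTheory.volume),
      (∀ p > 2, ¬ LiouvilleWith p y) ∧ y ∉ Set.range ((↑) : ℚ → ℝ) := by
    rw [Real.map_volume_mul_left ha0]
    exact MeasureTheory.Measure.ae_smul_measure h1 _
  have h3 := MeasureTheory.ae_of_ae_map (by fun_prop) h2
  filter_upwards [h3] with θ hθ
  refine ⟨3, ?_⟩
  by_contra hcon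
  apply hθ.1 3 (by norm_num)
  refine ⟨1, ?_⟩
  unfold DC at hcon
  rw [not_eventually] at hcon
  apply (hcon.and_eventually (eventually_ge_atTop 1)).mono
  rintro q ⟨hq, hq1⟩
  push Not at hq
  obtain ⟨p, hp⟩ := hq
  have hqR : (0 : ℝ) < q := by exact_mod_cast hq1
  refine ⟨p, ?_, ?_⟩
  · intro h
    apply hθ.2
    exact ⟨(p : ℚ) / q, by rw [h]; push_cast; rfl⟩
  · have e1 : a * θ - p / q = a * (θ - 2 * Real.pi * p / q) := by
      rw [ha]; field_simp
    have ha1 : a ≤ 1 := by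
      rw [ha, div_le_one (by positivity)]
      have := Real.pi_gt_three
      linarith
    rw [e1, abs_mul, abs_of_pos (by positivity : 0 < a)]
    rw [Real.rpow_neg hqR.le] at hp
    rw [one_div]
    calc a * |θ - 2 * Real.pi * p / q| ≤ 1 * |θ - 2 * Real.pi * p / q| :=
          mul_le_mul_of_nonneg_right ha1 (abs_nonneg _)
      _ = |θ - 2 * Real.pi * p / q| := one_mul _
      _ < _ := hp

end Pool.Agent.H777_DPV
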