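import Pool.Agent.H777_DPV.H
import Pool.Agent.H777_DPV.G2

open Polynomial Finset Filter

namespace Pool.Agent.H777_DPV

theorem main2 (θ : ℝ) (hDC : ∃ m : ℝ, DC m θ) : ∃ c : ℝ, 0 < c ∧ ∀ᶠ n : ℕ in atTop,
    ((Real.exp (c * ((n : ℝ) / Real.log n) ^ (1 / 4 : ℝ)) : ℝ) : EReal) ≤ RDPV n θ := by
  obtain ⟨m, hm⟩ := hDC
  set z := Complex.exp (Complex.I * θ) with hz
  have hz1 : ‖z‖ = 1 := Complex.norm_exp_I_mul_ofReal θ
  obtain ⟨C0, hC0, hC⟩ := dc_log θ m hm
  have hne := dc_ne θ m hm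
  have hcyc : ∀ q : ℕ, 1 ≤ q → (Real.exp (-(8 * C0))) ^ q.totient ≤
      ‖eval z (cyclotomic q ℂ)‖ := by
    intro q hq
    have h1 := cyc_bound z C0 hC0 hC hne q hq 1 le_rfl
    have h2 := wt_le q
    rw [pow_one, Nat.cast_one, Real.log_one, add_zero, mul_one] at h1
    have hpos : 0 < ‖eval z (cyclotomic q ℂ)‖ := by
      rw [norm_pos_iff]
      intro h0
      have h3 : z ^ q - 1 = 0 := by
        have h4 : (cyclotomic q ℂ) ∣ (X ^ q - 1 : ℂ[X]) := cyclotomic.dvd_X_pow_sub_one q ℂ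
        obtain ⟨g, hg⟩ := h4
        have h5 := congrArg (eval z) hg
        rw [eval_mul, h0, zero_mul] at h5
        simpa using h5
      exact hne q hq (by linear_combination h3)
    have h4 : -(8 * C0) * q.totient ≤ Real.log ‖eval z (cyclotomic q ℂ)‖ := by
      have h5 := (abs_le.1 h1).1
      have h6 : C0 * wt q * q.totient ≤ C0 * 8 * q.totient :=
        mul_le_mul_of_nonneg_right (mul_le_mul_of_nonneg_left h2 hC0) (by positivity)
      linarith
    calc (Real.exp (-(8 * C0))) ^ q.totient = Real.exp (-(8 * C0) * q.totient) := by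
          rw [← Real.exp_nat_mul]; congr 1; ring
      _ ≤ Real.exp (Real.log ‖eval z (cyclotomic q ℂ)‖) := Real.exp_le_exp.2 h4
      _ = _ := Real.exp_log hpos
  obtain ⟨C, hCpos, hsm⟩ := small_values2 z hz1 (im_ne θ m hm) (Real.exp (-(8 * C0)))
    (Real.exp_pos _) (Real.exp_le_one_iff.2 (by linarith)) hcyc
  set c1 : ℝ := min 1 (1 / C) with hc1
  have hc1pos : 0 < c1 := lt_min one_pos (by positivity)
  have hc1le : c1 ≤ 1 := min_le_left _ _
  have hc1C : C * c1 ≤ 1 := by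
    have : c1 ≤ 1 / C := min_le_right _ _
    calc C * c1 ≤ C * (1 / C) := mul_le_mul_of_nonneg_left this hCpos.le
      _ = 1 := by field_simp
  refine ⟨c1 / 4, by positivity, ?_⟩
  set u : ℕ → ℝ := fun n => ((n : ℝ) / Real.log n) ^ (1 / 4 : ℝ) with hu
  have hu1 : Tendsto u atTop atTop :=
    (tendsto_rpow_atTop (by norm_num : (0 : ℝ) < 1 / 4)).comp tendsto_div_log
  have hu2 : Tendsto (fun n => c1 * u n) atTop atTop := hu1.const_mul_atTop hc1pos
  have hu3 : Tendsto (fun n => ⌊c1 * u n⌋₊) atTop atTop := tendsto_nat_floor_atTop.comp hu2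
  have hsm' := hu3.eventually hsm
  filter_upwards [hsm', hu2.eventually_ge_atTop 20, eventually_ge_atTop 3] with n hn1 hn2 hn3
  have hn3' : (3 : ℝ) ≤ n := by exact_mod_cast hn3
  have hlog1 : 1 ≤ Real.log n := by
    rw [Real.le_log_iff_exp_le (by linarith)]
    exact (Real.exp_one_lt_d9.le.trans (by norm_num)).trans hn3'
  set N := ⌊c1 * u n⌋₊ with hN
  have hNle : (N : ℝ) ≤ c1 * u n := Nat.floor_le (by linarith)
  have hNgt : c1 * u n < N + 1 := Nat.lt_floor_add_one _
  have hN1 : (1 : ℝ) ≤ N := by linarith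
  have hu0 : 0 ≤ u n := by
    have : 0 < c1 * u n := by linarith
    exact ((mul_pos_iff_of_pos_left hc1pos).1 this).le
  have hu4 : u n ^ 4 = n / Real.log n := by
    rw [hu]
    simp only
    rw [← Real.rpow_natCast, ← Real.rpow_mul (by positivity)]
    norm_num
  have hndiv : (n : ℝ) / Real.log n ≤ n := div_le_self (by linarith) hlog1
  have hN4 : (N : ℝ) ^ 4 ≤ c1 * (n / Real.log n) := by
    calc (N : ℝ) ^ 4 ≤ (c1 * u n) ^ 4 := pow_le_pow_left₀ (by positivity) hNle 4
      _ = c1 * (c1 ^ 3 * (n / Real.log n)) := by rw [mul_pow, hu4]; ring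
      _ ≤ c1 * (1 * (n / Real.log n)) := by
          apply mul_le_mul_of_nonneg_left _ hc1pos.le
          exact mul_le_mul_of_nonneg_right (pow_le_one₀ hc1pos.le hc1le) (by positivity)
      _ = _ := by ring
  have hNn : (N : ℝ) ≤ n := by
    calc (N : ℝ) ≤ (N : ℝ) ^ 4 := le_self_pow₀ hN1 (by norm_num)
      _ ≤ c1 * (n / Real.log n) := hN4
      _ ≤ 1 * n := mul_le_mul hc1le hndiv (by positivity) (by norm_num)
      _ = n := one_mul _
  have hweight : C * ((N : ℝ) ^ 4 * Real.log N) ≤ n := by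
    have hlN : Real.log N ≤ Real.log n := Real.log_le_log (by linarith) hNn
    calc C * ((N : ℝ) ^ 4 * Real.log N) ≤ C * (c1 * (n / Real.log n) * Real.log n) := by
          apply mul_le_mul_of_nonneg_left _ hCpos.le
          exact mul_le_mul hN4 hlN (Real.log_nonneg hN1) (by positivity)
      _ = (C * c1) * n := by field_simp
      _ ≤ 1 * n := mul_le_mul_of_nonneg_right hc1C (by positivity)
      _ = n := one_mul _
  have hRpos : 0 < Real.exp (c1 / 4 * u n) := Real.exp_pos _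
  have hRN : 200 * Real.exp (c1 / 4 * u n) ≤ 2 ^ N := by
    have e1 : (200 : ℝ) ≤ Real.exp 6 := by
      have h2 : (2.7182818283 : ℝ) < Real.exp 1 := Real.exp_one_gt_d9
      calc (200 : ℝ) ≤ (2.7 : ℝ) ^ 6 := by norm_num
        _ ≤ (Real.exp 1) ^ 6 := pow_le_pow_left₀ (by norm_num) (by linarith) 6
        _ = Real.exp 6 := by rw [← Real.exp_nat_mul]; norm_num
    have e2 : (2 : ℝ) ^ N = Real.exp (Real.log 2 * N) := by
      rw [Real.exp_mul, Real.exp_log (by norm_num), Real.rpow_natCast]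
    rw [e2]
    calc 200 * Real.exp (c1 / 4 * u n) ≤ Real.exp 6 * Real.exp (c1 / 4 * u n) :=
          mul_le_mul_of_nonneg_right e1 hRpos.le
      _ = Real.exp (6 + c1 / 4 * u n) := by rw [Real.exp_add]
      _ ≤ Real.exp (Real.log 2 * N) := by
          apply Real.exp_le_exp.2
          have h2 := Real.log_two_gt_d9
          nlinarith
  apply le_sSup
  refine ⟨Real.exp (c1 / 4 * u n), ⟨hRpos, ?_⟩, rfl⟩
  apply dpv_of_approx n N θ _ hRpos hRN
  intro w0 hw0
  obtain ⟨k, c, hk, hP, hwt⟩ := hn1 w0 hw0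
  exact ⟨k, c, hk, hP, hwt.trans hweight⟩

end Pool.Agent.H777_DPV
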