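import Pool.Agent.H777_DPV.Defs

open Finset Filter MeasureTheory

namespace Pool.Agent.H777_DPV

/-- The set `S_n` in terms of the point `z`. -/
def logsz (n : ℕ) (z : ℂ) : Set ℂ :=
  {s | 0 ≤ s.im ∧ s.im < 2 * Real.pi ∧ ∃ D : ℕ, ∃ c : ℕ → ℤ,
    ∑ j ∈ range (D + 1), (1 + |c j|) ≤ (n : ℤ) ∧
    Complex.exp s = ∑ j ∈ range (D + 1), (c j : ℂ) * z ^ j}

/-- Property `DPV(n, R)` in terms of the point `z`. -/
def DPVz (n : ℕ) (R : ℝ) (z : ℂ) : Prop :=
  ∀ w : ℂ, -Real.log R ≤ w.re → w.re ≤ 0 → 0 ≤ w.im → w.im ≤ 2 * Real.pi →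
    ∃ s ∈ logsz n z, ‖w - s‖ ≤ 1 / 10

/-- `R_DPV` in terms of the point `z`. -/
noncomputable def RDz (n : ℕ) (z : ℂ) : EReal :=
  sSup ((fun R : ℝ => (R : EReal)) '' {R : ℝ | 0 < R ∧ DPVz n R z})

lemma RDPV_eq (n : ℕ) (θ : ℝ) : RDPV n θ = RDz n (Complex.exp (Complex.I * θ)) := rfl

lemma DPVz_mono {n : ℕ} {R R' : ℝ} {z : ℂ} (h0 : 0 < R') (h : R' ≤ R) (hR : DPVz n R z) :
    DPVz n R' z := by
  intro w h1 h2 h3 h4
  apply hR w _ h2 h3 h4
  have := Real.log_le_log h0 h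
  linarith

lemma le_RDz_iff (n : ℕ) (z : ℂ) (E : ℝ) :
    (E : EReal) ≤ RDz n z ↔ ∀ q : ℚ, 0 < q → (q : ℝ) < E → DPVz n q z := by
  constructor
  · intro h q hq0 hqE
    have h1 : ((q : ℝ) : EReal) < RDz n z := lt_of_lt_of_le (by exact_mod_cast hqE) h
    obtain ⟨a, ⟨R, ⟨hR0, hR⟩, rfl⟩, ha⟩ := lt_sSup_iff.1 h1
    have ha' : (q : ℝ) < R := EReal.coe_lt_coe_iff.1 ha
    exact DPVz_mono (by exact_mod_cast hq0) ha'.le hR
  · intro h
    rcases le_or_gt E 0 with hE | hE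
    · have h1 : (((1 / 2 : ℝ)) : EReal) ≤ RDz n z := by
        apply le_sSup
        refine ⟨1 / 2, ⟨by norm_num, ?_⟩, rfl⟩
        intro w h1 h2
        exfalso
        have : Real.log (1 / 2) < 0 := Real.log_neg (by norm_num) (by norm_num)
        linarith
      refine le_trans ?_ h1
      have : E ≤ 1 / 2 := by linarith
      exact_mod_cast this
    · apply le_of_forall_lt
      intro a ha
      have h0 : max a 0 < (E : EReal) := max_lt ha (by exact_mod_cast hE)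
      obtain ⟨q, hq1, hq2⟩ := EReal.lt_iff_exists_rat_btwn.1 h0
      have hq0 : (0 : EReal) < ((q : ℝ) : EReal) := lt_of_le_of_lt (le_max_right _ _) hq1
      have hq0' : (0 : ℝ) < (q : ℝ) := by exact_mod_cast hq0
      have hq2' : (q : ℝ) < E := by exact_mod_cast hq2
      have hd := h q (by exact_mod_cast hq0') hq2'
      refine lt_of_lt_of_le (lt_of_le_of_lt (le_max_left _ _) hq1) ?_
      exact le_sSup ⟨(q : ℝ), ⟨hq0', hd⟩, rfl⟩

lemma exp_injOn : Set.InjOn Complex.exp {s : ℂ | 0 ≤ s.im ∧ s.im < 2 * Real.pi} := by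
  intro s hs t ht hst
  obtain ⟨n, hn⟩ := Complex.exp_eq_exp_iff_exists_int.1 hst
  have him : s.im = t.im + n * (2 * Real.pi) := by
    have := congrArg Complex.im hn
    simpa using this
  have hpi := Real.pi_pos
  have hn0 : n = 0 := by
    have h1 : (n : ℝ) < 1 := by
      by_contra hc
      push Not at hc
      have := hs.2
      have := ht.1
      nlinarith
    have h2 : (-1 : ℝ) < n := by
      by_contra hc
      push Not at hc
      have := hs.1
      have := ht.2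
      nlinarith
    have h3 : n < 1 := by exact_mod_cast h1
    have h4 : -1 < n := by exact_mod_cast h2
    omega
  rw [hn0] at hn
  simpa using hn

lemma logsz_finite (n : ℕ) (z : ℂ) : (logsz n z).Finite := by
  have hinj : Set.InjOn Complex.exp (logsz n z) := fun s hs t ht h =>
    exp_injOn ⟨hs.1, hs.2.1⟩ ⟨ht.1, ht.2.1⟩ h
  apply Set.Finite.of_finite_image _ hinj
  apply Set.Finite.subset (Set.finite_range
    (fun c : Fin (n + 1) → Set.Icc (-(n : ℤ)) n => ∑ j : Fin (n + 1), (((c j : ℤ)) : ℂ) * z ^ (j : ℕ)))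
  rintro _ ⟨s, ⟨_, _, D, c, hc, hs⟩, rfl⟩
  have hsum : ∑ j ∈ range (D + 1), (1 + |c j|) = (D + 1) + ∑ j ∈ range (D + 1), |c j| := by
    rw [Finset.sum_add_distrib]; simp
  have hnn : 0 ≤ ∑ j ∈ range (D + 1), |c j| := Finset.sum_nonneg (fun _ _ => abs_nonneg _)
  have hD : D + 1 ≤ n := by
    rw [hsum] at hc
    have : ((D + 1 : ℕ) : ℤ) ≤ n := by push_cast; linarith
    exact_mod_cast this
  have hcj : ∀ j ∈ range (D + 1), |c j| ≤ n := by
    intro j hj
    have h1 := Finset.single_le_sum (f := fun j => |c j|) (fun i _ => abs_nonneg _) hj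
    rw [hsum] at hc
    have h2 : (0 : ℤ) ≤ (D : ℤ) := by positivity
    linarith
  set C : Fin (n + 1) → Set.Icc (-(n : ℤ)) n := fun j =>
    if h : (j : ℕ) < D + 1 then ⟨c j, Set.mem_Icc.2 (abs_le.1 (hcj j (mem_range.2 h)))⟩
    else ⟨0, Set.mem_Icc.2 ⟨by simp, by simp⟩⟩ with hC
  have hCv : ∀ j : Fin (n + 1), (((C j : ℤ)) : ℂ) * z ^ (j : ℕ)
      = if (j : ℕ) < D + 1 then (c j : ℂ) * z ^ (j : ℕ) else 0 := by
    intro j
    simp only [hC]
    split_ifs with h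
    · rfl
    · simp
  refine ⟨C, ?_⟩
  change ∑ j : Fin (n + 1), (((C j : ℤ)) : ℂ) * z ^ (j : ℕ) = Complex.exp s
  rw [hs, Finset.sum_congr rfl (fun j _ => hCv j)]
  rw [Fin.sum_univ_eq_sum_range (fun j => if j < D + 1 then (c j : ℂ) * z ^ j else 0) (n + 1)]
  rw [← Finset.sum_filter]
  apply Finset.sum_congr _ (fun _ _ => rfl)
  ext j
  simp only [mem_filter, mem_range]
  omega

lemma meas_cov (n : ℕ) (w : ℂ) :
    MeasurableSet {z : ℂ | ∃ s ∈ logsz n z, ‖w - s‖ ≤ 1 / 10} := by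
  set B : Set ℂ := {s | (0 ≤ s.im ∧ s.im < 2 * Real.pi) ∧ ‖w - s‖ ≤ 1 / 10} with hB
  have hBm : MeasurableSet B := by
    apply MeasurableSet.inter
    · apply MeasurableSet.inter
      · exact measurableSet_le measurable_const Complex.measurable_im
      · exact measurableSet_lt Complex.measurable_im measurable_const
    · exact measurableSet_le ((measurable_const.sub measurable_id).norm) measurable_const
  have himg : MeasurableSet (Complex.exp '' B) :=
    MeasurableSet.image_of_continuousOn_injOn hBm Complex.continuous_exp.continuousOn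
      (exp_injOn.mono (fun s hs => hs.1))
  have heq : {z : ℂ | ∃ s ∈ logsz n z, ‖w - s‖ ≤ 1 / 10}
      = ⋃ D : ℕ, ⋃ c : Fin (D + 1) → ℤ, ⋃ _ : ∑ j, (1 + |c j|) ≤ (n : ℤ),
        {z : ℂ | ∑ j : Fin (D + 1), (c j : ℂ) * z ^ (j : ℕ) ∈ Complex.exp '' B} := by
    ext z
    simp only [Set.mem_ofPred_eq, Set.mem_iUnion]
    constructor
    · rintro ⟨s, ⟨h1, h2, D, c, hc, hs⟩, h3⟩
      refine ⟨D, fun j => c j, ?_, s, ⟨⟨h1, h2⟩, h3⟩, ?_⟩
      · rw [Fin.sum_univ_eq_sum_range (fun j => 1 + |c j|) (D + 1)]; exact hc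
      · rw [Fin.sum_univ_eq_sum_range (fun j => (c j : ℂ) * z ^ j) (D + 1)]; exact hs
    · rintro ⟨D, c, hc, s, ⟨⟨h1, h2⟩, h3⟩, hs⟩
      refine ⟨s, ⟨h1, h2, D, fun j => if h : j < D + 1 then c ⟨j, h⟩ else 0, ?_, ?_⟩, h3⟩
      · rw [← Fin.sum_univ_eq_sum_range (fun j => 1 + |if h : j < D + 1 then c ⟨j, h⟩ else 0|)]
        refine le_trans (le_of_eq ?_) hc
        apply Finset.sum_congr rfl
        intro j _
        rw [dif_pos j.is_lt]
      · rw [hs, ← Fin.sum_univ_eq_sum_range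
          (fun j => ((if h : j < D + 1 then c ⟨j, h⟩ else 0 : ℤ) : ℂ) * z ^ j)]
        apply Finset.sum_congr rfl
        intro j _
        rw [dif_pos j.is_lt]
  rw [heq]
  refine MeasurableSet.iUnion (fun D => MeasurableSet.iUnion (fun c =>
    MeasurableSet.iUnion (fun _ => ?_)))
  have hcont : Continuous (fun z : ℂ => ∑ j : Fin (D + 1), (c j : ℂ) * z ^ (j : ℕ)) := by
    fun_prop
  exact hcont.measurable himg

lemma meas_DPVz (n : ℕ) (R : ℝ) : MeasurableSet {z : ℂ | DPVz n R z} := by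
  set K : Set ℂ := {w | -Real.log R ≤ w.re ∧ w.re ≤ 0 ∧ 0 ≤ w.im ∧ w.im ≤ 2 * Real.pi} with hK
  obtain ⟨S, hSc, hSd⟩ := TopologicalSpace.exists_countable_dense K
  have heq : {z : ℂ | DPVz n R z}
      = ⋂ w ∈ S, {z : ℂ | ∃ s ∈ logsz n z, ‖(w : ℂ) - s‖ ≤ 1 / 10} := by
    ext z
    simp only [Set.mem_ofPred_eq, Set.mem_iInter]
    constructor
    · intro h w _
      exact h w w.2.1 w.2.2.1 w.2.2.2.1 w.2.2.2.2
    · intro h w h1 h2 h3 h4
      set C : Set ℂ := ⋃ s ∈ logsz n z, Metric.closedBall s (1 / 10) with hC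
      have hCc : IsClosed C := (logsz_finite n z).isClosed_biUnion
        (fun s _ => Metric.isClosed_closedBall)
      have hpre : IsClosed ((fun w : K => (w : ℂ)) ⁻¹' C) := hCc.preimage continuous_subtype_val
      have hsub : S ⊆ (fun w : K => (w : ℂ)) ⁻¹' C := by
        intro w hw
        obtain ⟨s, hs, hws⟩ := h w hw
        simp only [Set.mem_preimage, hC, Set.mem_iUnion]
        exact ⟨s, hs, by rw [Metric.mem_closedBall, dist_eq_norm]; exact hws⟩
      have hall := hpre.closure_subset_iff.2 hsub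
      rw [hSd.closure_eq] at hall
      have hw := hall (Set.mem_univ (⟨w, h1, h2, h3, h4⟩ : K))
      simp only [Set.mem_preimage, hC, Set.mem_iUnion] at hw
      obtain ⟨s, hs, hws⟩ := hw
      exact ⟨s, hs, by rw [Metric.mem_closedBall, dist_eq_norm] at hws; exact hws⟩
  rw [heq]
  exact MeasurableSet.biInter hSc (fun w _ => meas_cov n w)

lemma meas_le (n : ℕ) (E : ℝ) : MeasurableSet {z : ℂ | (E : EReal) ≤ RDz n z} := by
  have heq : {z : ℂ | (E : EReal) ≤ RDz n z}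
      = ⋂ q : ℚ, ⋂ _ : 0 < q, ⋂ _ : (q : ℝ) < E, {z : ℂ | DPVz n q z} := by
    ext z
    simp only [Set.mem_ofPred_eq, Set.mem_iInter]
    exact le_RDz_iff n z E
  rw [heq]
  exact MeasurableSet.iInter (fun q => MeasurableSet.iInter (fun _ =>
    MeasurableSet.iInter (fun _ => meas_DPVz n q)))

/-- The growth property in terms of the point `z`. -/
def Qz (F : ℝ → ℝ) (z : ℂ) : Prop :=
  ∃ c : ℝ, 0 < c ∧ ∀ᶠ n : ℕ in atTop, ((F (c * n) : ℝ) : EReal) ≤ RDz n z

lemma meas_Qz (F : ℝ → ℝ) (hF : Monotone F) : MeasurableSet {z : ℂ | Qz F z} := by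
  have heq : {z : ℂ | Qz F z} = ⋃ k : ℕ, ⋃ N : ℕ, ⋂ n : ℕ, ⋂ _ : N ≤ n,
      {z : ℂ | ((F (1 / (k + 1) * n) : ℝ) : EReal) ≤ RDz n z} := by
    ext z
    simp only [Set.mem_ofPred_eq, Set.mem_iInter, Set.mem_iUnion]
    constructor
    · rintro ⟨c, hc, h⟩
      obtain ⟨k, hk⟩ := exists_nat_one_div_lt hc
      obtain ⟨N, hN⟩ := eventually_atTop.1 h
      refine ⟨k, N, fun n hn => le_trans ?_ (hN n hn)⟩
      have : F (1 / (k + 1) * n) ≤ F (c * n) :=
        hF (mul_le_mul_of_nonneg_right hk.le (by positivity))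
      exact_mod_cast this
    · rintro ⟨k, N, h⟩
      exact ⟨1 / (k + 1), by positivity, eventually_atTop.2 ⟨N, h⟩⟩
  rw [heq]
  exact MeasurableSet.iUnion (fun k => MeasurableSet.iUnion (fun N =>
    MeasurableSet.iInter (fun n => MeasurableSet.iInter (fun _ => meas_le n _))))

/-- The coefficients of `P(X^2)`. -/
def dbl (c : ℕ → ℤ) (i : ℕ) : ℤ := if i % 2 = 0 then c (i / 2) else 0

lemma dbl_even (c : ℕ → ℤ) (i : ℕ) : dbl c (2 * i) = c i := by
  unfold dbl
  rw [if_pos (by omega)]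
  congr 1
  omega

lemma dbl_odd (c : ℕ → ℤ) (i : ℕ) : dbl c (2 * i + 1) = 0 := by
  unfold dbl
  rw [if_neg (by omega)]

lemma dbl_sum (c : ℕ → ℤ) (z : ℂ) (D : ℕ) :
    ∑ i ∈ range (2 * D + 1), (dbl c i : ℂ) * z ^ i
      = ∑ j ∈ range (D + 1), (c j : ℂ) * (z ^ 2) ^ j := by
  induction D with
  | zero => simp [dbl]
  | succ D ih =>
    rw [show 2 * (D + 1) + 1 = 2 * D + 1 + 1 + 1 by ring, Finset.sum_range_succ,
      Finset.sum_range_succ, ih, Finset.sum_range_succ _ (D + 1), dbl_odd,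
      show 2 * D + 1 + 1 = 2 * (D + 1) by ring, dbl_even, ← pow_mul]
    simp

lemma dbl_abs (c : ℕ → ℤ) (D : ℕ) :
    ∑ i ∈ range (2 * D + 1), (1 + |dbl c i|) = D + ∑ j ∈ range (D + 1), (1 + |c j|) := by
  induction D with
  | zero => simp [dbl]
  | succ D ih =>
    rw [show 2 * (D + 1) + 1 = 2 * D + 1 + 1 + 1 by ring, Finset.sum_range_succ,
      Finset.sum_range_succ, ih, Finset.sum_range_succ _ (D + 1), dbl_odd,
      show 2 * D + 1 + 1 = 2 * (D + 1) by ring, dbl_even]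
    push_cast
    simp
    ring

lemma logsz_dbl (n : ℕ) (z : ℂ) : logsz n (z ^ 2) ⊆ logsz (2 * n) z := by
  rintro s ⟨h1, h2, D, c, hc, hs⟩
  refine ⟨h1, h2, 2 * D, dbl c, ?_, ?_⟩
  · rw [dbl_abs]
    have hsum : ∑ j ∈ range (D + 1), (1 + |c j|) = (D + 1) + ∑ j ∈ range (D + 1), |c j| := by
      rw [Finset.sum_add_distrib]; simp
    have hnn : 0 ≤ ∑ j ∈ range (D + 1), |c j| := Finset.sum_nonneg (fun _ _ => abs_nonneg _)
    push_cast
    linarith
  · rw [dbl_sum]; exact hs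

lemma logsz_mono {n m : ℕ} (h : n ≤ m) (z : ℂ) : logsz n z ⊆ logsz m z := by
  rintro s ⟨h1, h2, D, c, hc, hs⟩
  exact ⟨h1, h2, D, c, hc.trans (by exact_mod_cast h), hs⟩

lemma RDz_mono_of_subset {n m : ℕ} {z z' : ℂ} (h : logsz n z ⊆ logsz m z') :
    RDz n z ≤ RDz m z' := by
  apply sSup_le_sSup
  rintro _ ⟨R, ⟨hR0, hR⟩, rfl⟩
  refine ⟨R, ⟨hR0, ?_⟩, rfl⟩
  intro w h1 h2 h3 h4
  obtain ⟨s, hs, hws⟩ := hR w h1 h2 h3 h4
  exact ⟨s, h hs, hws⟩

lemma Qz_of_sq (F : ℝ → ℝ) (hF : Monotone F) (z : ℂ) (h : Qz F (z ^ 2)) : Qz F z := by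
  obtain ⟨c, hc, h⟩ := h
  obtain ⟨N, hN⟩ := eventually_atTop.1 h
  refine ⟨c / 4, by positivity, eventually_atTop.2 ⟨2 * N + 2, fun n hn => ?_⟩⟩
  have h1 := hN (n / 2) (by omega)
  have h2 : RDz (n / 2) (z ^ 2) ≤ RDz n z :=
    RDz_mono_of_subset ((logsz_dbl (n / 2) z).trans (logsz_mono (by omega) z))
  refine le_trans ?_ (h1.trans h2)
  have h3 : c / 4 * (n : ℝ) ≤ c * ((n / 2 : ℕ) : ℝ) := by
    have h4 : (n : ℝ) ≤ 4 * ((n / 2 : ℕ) : ℝ) := by
      have : n ≤ 4 * (n / 2) := by omega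
      exact_mod_cast this
    nlinarith
  have := hF h3
  exact_mod_cast this

theorem zero_one (F : ℝ → ℝ) (hF : Monotone F) :
    (∀ᵐ θ ∂(volume.restrict (Set.Ico 0 (2 * Real.pi))), ∃ c : ℝ, 0 < c ∧
      ∀ᶠ n : ℕ in atTop, ((F (c * n) : ℝ) : EReal) ≤ RDPV n θ) ∨
    (∀ᵐ θ ∂(volume.restrict (Set.Ico 0 (2 * Real.pi))), ¬ ∃ c : ℝ, 0 < c ∧
      ∀ᶠ n : ℕ in atTop, ((F (c * n) : ℝ) : EReal) ≤ RDPV n θ) := by
  have : Fact (0 < 2 * Real.pi) := ⟨by positivity⟩
  set G : Set (AddCircle (2 * Real.pi)) := {x | Qz F (x.toCircle : ℂ)} with hG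
  have hGm : MeasurableSet G := by
    have hcont : Continuous (fun x : AddCircle (2 * Real.pi) => ((x.toCircle : Circle) : ℂ)) :=
      continuous_subtype_val.comp AddCircle.continuous_toCircle
    exact hcont.measurable (meas_Qz F hF)
  have hsub : (fun y : AddCircle (2 * Real.pi) => 2 • y) ⁻¹' G ⊆ G := by
    intro x hx
    simp only [hG, Set.mem_preimage, Set.mem_ofPred_eq] at hx ⊢
    rw [AddCircle.toCircle_nsmul, Circle.coe_pow] at hx
    exact Qz_of_sq F hF _ hx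
  have herg := (AddCircle.ergodic_nsmul (T := 2 * Real.pi) (n := 2) (by norm_num))
  have hpt : ∀ θ : ℝ, ((AddCircle.toCircle (θ : AddCircle (2 * Real.pi)) : Circle) : ℂ)
      = Complex.exp (Complex.I * θ) := by
    intro θ
    rw [AddCircle.toCircle_apply_mk, Circle.coe_exp, div_self (by positivity), one_mul, mul_comm]
  have hres : volume.restrict (Set.Ico 0 (2 * Real.pi))
      = volume.restrict (Set.Ioc 0 (0 + 2 * Real.pi)) := by
    rw [zero_add]; exact Measure.restrict_congr_set Ico_ae_eq_Ioc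
  have hqmp := (AddCircle.measurePreserving_mk (2 * Real.pi) 0).quasiMeasurePreserving
  rw [hres]
  rcases herg.ae_empty_or_univ_of_preimage_ae_le hGm.nullMeasurableSet
    (LE.le.eventuallyLE hsub) with h | h
  · right
    have h1 : ∀ᵐ x : AddCircle (2 * Real.pi), x ∉ G := by
      filter_upwards [h] with x hx hxG
      have : G x = (∅ : Set (AddCircle (2 * Real.pi))) x := hx
      have h2 : (∅ : Set (AddCircle (2 * Real.pi))) x := this ▸ hxG
      exact h2
    filter_upwards [hqmp.ae h1] with θ hθ hcon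
    apply hθ
    change Qz F _
    rw [show (QuotientAddGroup.mk θ : AddCircle (2 * Real.pi)) = (θ : AddCircle (2 * Real.pi))
      from rfl, hpt]
    exact hcon
  · left
    have h1 : ∀ᵐ x : AddCircle (2 * Real.pi), x ∈ G := by
      filter_upwards [h] with x hx
      have : G x = (Set.univ : Set (AddCircle (2 * Real.pi))) x := hx
      have h2 : G x := this ▸ (Set.mem_univ x)
      exact h2
    filter_upwards [hqmp.ae h1] with θ hθ
    have h2 : Qz F _ := hθ
    rw [show (QuotientAddGroup.mk θ : AddCircle (2 * Real.pi)) = (θ : AddCircle (2 * Real.pi))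
      from rfl, hpt] at h2
    exact h2

end Pool.Agent.H777_DPV
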