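import Pool.Agent.H777_DPV.H
import Pool.Agent.H777_DPV.Z

open Finset Filter

namespace Pool.Agent.H777_DPV

/-- The values at `z` of the integer polynomials of weight at most `n`. -/
def V (n : ℕ) (z : ℂ) : Set ℂ :=
  {v | ∃ D : ℕ, ∃ c : ℕ → ℤ, ∑ j ∈ range (D + 1), (1 + |c j|) ≤ (n : ℤ) ∧
    v = ∑ j ∈ range (D + 1), (c j : ℂ) * z ^ j}

lemma V_mono {n m : ℕ} (h : n ≤ m) {z v : ℂ} (hv : v ∈ V n z) : v ∈ V m z := by
  obtain ⟨D, c, hc, hv⟩ := hv
  exact ⟨D, c, hc.trans (by exact_mod_cast h), hv⟩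

lemma V_z {n : ℕ} {z v : ℂ} (hv : v ∈ V n z) : z * v ∈ V (n + 1) z := by
  obtain ⟨D, c, hc, rfl⟩ := hv
  refine ⟨D + 1, fun l => if l = 0 then 0 else c (l - 1), ?_, ?_⟩
  · rw [Finset.sum_range_succ']
    simp only [Nat.add_eq_zero_iff, one_ne_zero, and_false, if_false, if_true,
      Nat.add_sub_cancel, abs_zero]
    push_cast
    linarith
  · rw [Finset.sum_range_succ' _ (D + 1)]
    simp only [Nat.add_eq_zero_iff, one_ne_zero, and_false, if_false, if_true,
      Nat.add_sub_cancel]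
    rw [Finset.mul_sum]
    push_cast
    rw [zero_mul, add_zero]
    apply Finset.sum_congr rfl
    intro l _
    ring

lemma V_zpow {n : ℕ} {z v : ℂ} (hv : v ∈ V n z) (r : ℕ) : z ^ r * v ∈ V (n + r) z := by
  induction r with
  | zero => simpa using hv
  | succ r ih =>
    have := V_z ih
    rw [show z ^ (r + 1) * v = z * (z ^ r * v) by ring]
    exact this

lemma V_smul {n : ℕ} {z v : ℂ} (hv : v ∈ V n z) (a : ℤ) :
    (a : ℂ) * v ∈ V ((a.natAbs + 1) * n) z := by
  obtain ⟨D, c, hc, rfl⟩ := hv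
  refine ⟨D, fun l => a * c l, ?_, ?_⟩
  · have h1 : ∑ j ∈ range (D + 1), (1 + |a * c j|)
        ≤ ∑ j ∈ range (D + 1), (|a| + 1) * (1 + |c j|) := by
      apply Finset.sum_le_sum
      intro j _
      rw [abs_mul]
      have := abs_nonneg a
      have := abs_nonneg (c j)
      nlinarith
    rw [← Finset.mul_sum] at h1
    refine h1.trans ?_
    push_cast
    exact mul_le_mul_of_nonneg_left hc (by positivity)
  · rw [Finset.mul_sum]
    apply Finset.sum_congr rfl
    intro l _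
    push_cast
    ring

lemma cut_sum {M : Type*} [AddCommMonoid M] (f : ℕ → M) (D E : ℕ) (h : D ≤ E) :
    ∑ j ∈ range (E + 1), (if j ≤ D then f j else 0) = ∑ j ∈ range (D + 1), f j := by
  rw [← Finset.sum_filter]
  apply Finset.sum_congr _ (fun _ _ => rfl)
  ext j
  simp only [mem_filter, mem_range]
  omega

lemma V_add {n m : ℕ} {z v w : ℂ} (hv : v ∈ V n z) (hw : w ∈ V m z) : v + w ∈ V (n + m) z := by
  obtain ⟨D, c, hc, rfl⟩ := hv
  obtain ⟨E, d, hd, rfl⟩ := hw
  have h1 : D ≤ max D E := le_max_left _ _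
  have h2 : E ≤ max D E := le_max_right _ _
  refine ⟨max D E, fun l => (if l ≤ D then c l else 0) + (if l ≤ E then d l else 0), ?_, ?_⟩
  · have e1 : ∑ j ∈ range (D + 1), (1 + |c j|) = (D + 1) + ∑ j ∈ range (D + 1), |c j| := by
      rw [Finset.sum_add_distrib]; simp
    have e2 : ∑ j ∈ range (E + 1), (1 + |d j|) = (E + 1) + ∑ j ∈ range (E + 1), |d j| := by
      rw [Finset.sum_add_distrib]; simp
    have e3 : ∑ j ∈ range (max D E + 1),
        (1 + |(if j ≤ D then c j else 0) + (if j ≤ E then d j else 0)|)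
        ≤ ∑ j ∈ range (max D E + 1), (1 + ((if j ≤ D then |c j| else 0)
          + (if j ≤ E then |d j| else 0))) := by
      apply Finset.sum_le_sum
      intro j _
      have h := abs_add_le (if j ≤ D then c j else 0) (if j ≤ E then d j else 0)
      have a1 : |if j ≤ D then c j else 0| = if j ≤ D then |c j| else 0 := by
        split_ifs <;> simp
      have a2 : |if j ≤ E then d j else 0| = if j ≤ E then |d j| else 0 := by
        split_ifs <;> simp
      rw [a1, a2] at h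
      linarith
    refine e3.trans ?_
    rw [Finset.sum_add_distrib, Finset.sum_add_distrib, cut_sum (fun j => |c j|) D _ h1,
      cut_sum (fun j => |d j|) E _ h2]
    simp only [Finset.sum_const, Finset.card_range, nsmul_eq_mul, mul_one]
    rw [e1] at hc
    rw [e2] at hd
    have h3 : ((max D E : ℕ) : ℤ) ≤ D + E := by
      have : max D E ≤ D + E := by omega
      exact_mod_cast this
    push_cast at h3 ⊢
    linarith
  · have e4 : ∀ l, (((if l ≤ D then c l else 0) + (if l ≤ E then d l else 0) : ℤ) : ℂ) * z ^ l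
        = (if l ≤ D then (c l : ℂ) * z ^ l else 0) + (if l ≤ E then (d l : ℂ) * z ^ l else 0) := by
      intro l
      push_cast
      split_ifs <;> simp [add_mul]
    rw [Finset.sum_congr rfl (fun l _ => e4 l), Finset.sum_add_distrib,
      cut_sum (fun l => (c l : ℂ) * z ^ l) D _ h1, cut_sum (fun l => (d l : ℂ) * z ^ l) E _ h2]

lemma small_unit (z : ℂ) (hz : ‖z‖ = 1) (hne : ∀ q : ℕ, 1 ≤ q → z ^ q ≠ 1) (ε : ℝ) (hε : 0 < ε) :
    ∃ i j : ℕ, i < j ∧ z ^ j - z ^ i ≠ 0 ∧ ‖z ^ j - z ^ i‖ < ε := by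
  have hz0 : z ≠ 0 := by intro h; rw [h] at hz; simp at hz
  have hdist : ∀ i j : ℕ, i < j → z ^ j - z ^ i ≠ 0 := by
    intro i j hij h
    apply hne (j - i) (by omega)
    have h1 : z ^ j = z ^ i * z ^ (j - i) := by rw [← pow_add]; congr 1; omega
    have h2 : z ^ i * z ^ (j - i) = z ^ i * 1 := by rw [← h1, mul_one]; linear_combination h
    exact mul_left_cancel₀ (pow_ne_zero _ hz0) h2
  obtain ⟨N, hN⟩ := exists_nat_ge (2 * 1 / (ε / 2) + 2)
  obtain ⟨x, _, y, _, hxy, hc⟩ := pigeon (range (N ^ 2 + 1)) (fun j => z ^ j) 1 (ε / 2)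
    (by positivity) (fun j _ => by rw [norm_pow, hz, one_pow]) N hN (by simp)
  have hc' : ‖z ^ x - z ^ y‖ < ε := by
    have : 2 * (ε / 2) = ε := by ring
    rw [this] at hc
    exact hc
  rcases lt_or_gt_of_ne hxy with h | h
  · exact ⟨x, y, h, hdist x y h, by rw [norm_sub_rev]; exact hc'⟩
  · exact ⟨y, x, h, hdist y x h, hc'⟩

lemma approx_Q (z : ℂ) (hz : ‖z‖ = 1) (him : 0 < |z.im|) (hne : ∀ q : ℕ, 1 ≤ q → z ^ q ≠ 1)
    (E : ℝ) : ∃ i j W : ℕ, i < j ∧ ∀ ρ : ℂ, ‖ρ‖ ≤ E → ∃ a b : ℤ, a.natAbs ≤ W ∧ b.natAbs ≤ W ∧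
      ‖((a : ℂ) + b * z) * (z ^ j - z ^ i) - ρ‖ ≤ 1 / 100 := by
  obtain ⟨i, j, hij, hu0, hu⟩ := small_unit z hz hne (1 / 100) (by norm_num)
  set u := z ^ j - z ^ i with hudef
  have hzim : z.im ≠ 0 := fun h => by rw [h] at him; simp at him
  have hun : 0 < ‖u‖ := norm_pos_iff.2 hu0
  obtain ⟨W, hW⟩ := exists_nat_ge (2 * (E / ‖u‖) / |z.im| + 1)
  refine ⟨i, j, W, hij, ?_⟩
  intro ρ hρ
  set x := t1 z (ρ / u) with hx
  set y := t2 z (ρ / u) with hy
  have hco : (x : ℂ) + (y : ℂ) * z = ρ / u := coord z (ρ / u) hzim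
  have hn : ‖ρ / u‖ ≤ E / ‖u‖ := by
    rw [norm_div]; exact div_le_div_of_nonneg_right hρ hun.le
  have ht2 : |y| ≤ ‖ρ / u‖ / |z.im| := by
    rw [hy]; unfold t2
    rw [abs_div]
    exact div_le_div_of_nonneg_right (Complex.abs_im_le_norm _) him.le
  have him1 : |z.im| ≤ 1 := by rw [← hz]; exact Complex.abs_im_le_norm z
  have ht1 : |x| ≤ 2 * ‖ρ / u‖ / |z.im| := by
    have h1 : |z.re| ≤ 1 := by rw [← hz]; exact Complex.abs_re_le_norm z
    have h2 : |(ρ / u).re| ≤ ‖ρ / u‖ / |z.im| := by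
      refine (Complex.abs_re_le_norm _).trans ?_
      rw [le_div_iff₀ him]
      nlinarith [norm_nonneg (ρ / u)]
    have hx' : x = (ρ / u).re - y * z.re := rfl
    rw [hx']
    calc |(ρ / u).re - y * z.re| ≤ |(ρ / u).re| + |y * z.re| := abs_sub _ _
      _ ≤ ‖ρ / u‖ / |z.im| + ‖ρ / u‖ / |z.im| * 1 := by
          apply add_le_add h2
          rw [abs_mul]
          exact mul_le_mul ht2 h1 (abs_nonneg _) (by positivity)
      _ = _ := by ring
  have hra := abs_sub_round x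
  have hrb := abs_sub_round y
  have hbase : ‖ρ / u‖ / |z.im| ≤ E / ‖u‖ / |z.im| := div_le_div_of_nonneg_right hn him.le
  have hbase0 : 0 ≤ ‖ρ / u‖ / |z.im| := by positivity
  have e2 : 2 * ‖ρ / u‖ / |z.im| = 2 * (‖ρ / u‖ / |z.im|) := by ring
  have e3 : 2 * (E / ‖u‖) / |z.im| = 2 * (E / ‖u‖ / |z.im|) := by ring
  have nat_bd : ∀ (t : ℝ), |t| ≤ 2 * (E / ‖u‖ / |z.im|) → (round t).natAbs ≤ W := by
    intro t ht
    have h1 := abs_sub_round t
    have h2 : |(round t : ℝ)| ≤ W := by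
      have := abs_sub_abs_le_abs_sub (round t : ℝ) t
      rw [abs_sub_comm] at this
      rw [e3] at hW
      linarith
    have h3 : (((round t).natAbs : ℤ) : ℝ) ≤ W := by
      rw [Int.natCast_natAbs]; push_cast; exact h2
    exact_mod_cast h3
  refine ⟨round x, round y, nat_bd x (by linarith), nat_bd y (by linarith), ?_⟩
  have e1 : ((round x : ℂ) + (round y : ℂ) * z) * u - ρ
      = (((round x : ℝ) - x : ℝ) : ℂ) * u + (((round y : ℝ) - y : ℝ) : ℂ) * z * u := by
    have h1 : ρ = ((x : ℂ) + (y : ℂ) * z) * u := by rw [hco]; field_simp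
    rw [h1]
    push_cast
    ring
  rw [e1]
  calc _ ≤ ‖(((round x : ℝ) - x : ℝ) : ℂ) * u‖ + ‖(((round y : ℝ) - y : ℝ) : ℂ) * z * u‖ :=
        norm_add_le _ _
    _ = |(round x : ℝ) - x| * ‖u‖ + |(round y : ℝ) - y| * ‖u‖ := by
        rw [norm_mul, norm_mul, norm_mul, hz, mul_one, Complex.norm_real, Complex.norm_real,
          Real.norm_eq_abs, Real.norm_eq_abs]
    _ ≤ 1 / 2 * ‖u‖ + 1 / 2 * ‖u‖ := by
        rw [abs_sub_comm] at hra hrb
        exact add_le_add (mul_le_mul_of_nonneg_right hra hun.le)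
          (mul_le_mul_of_nonneg_right hrb hun.le)
    _ ≤ 1 / 100 := by linarith

lemma dpv_of_rel (n : ℕ) (θ R : ℝ) (hR : 0 < R)
    (happ : ∀ w0 : ℂ, 1 / R ≤ ‖w0‖ → ‖w0‖ ≤ 1 →
      ∃ v ∈ V n (Complex.exp (Complex.I * θ)), ‖v - w0‖ ≤ ‖w0‖ / 100) : DPV n R θ := by
  intro w hw1 hw2 hw3 hw4
  have hpi := Real.pi_gt_three
  obtain ⟨y, hy1, hy2, hy3⟩ : ∃ y : ℝ, 1 / 20 ≤ y ∧ y ≤ 2 * Real.pi - 1 / 20 ∧
      |w.im - y| ≤ 1 / 20 := by
    refine ⟨max (1 / 20) (min w.im (2 * Real.pi - 1 / 20)), le_max_left _ _, ?_, ?_⟩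
    · apply max_le _ (min_le_right _ _)
      linarith
    · rw [abs_le]
      rcases le_total w.im (2 * Real.pi - 1 / 20) with h | h
      · rw [min_eq_left h]
        rcases le_total (1 / 20) w.im with h' | h'
        · rw [max_eq_right h']; constructor <;> linarith
        · rw [max_eq_left h']; constructor <;> linarith
      · rw [min_eq_right h, max_eq_right (by linarith)]
        constructor <;> linarith
  set w' : ℂ := ⟨w.re, y⟩ with hw'
  have hn0 : ‖Complex.exp w'‖ = Real.exp w.re := by rw [Complex.norm_exp]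
  have hn1 : ‖Complex.exp w'‖ ≤ 1 := by rw [hn0]; exact Real.exp_le_one_iff.2 hw2
  have hn2 : 1 / R ≤ ‖Complex.exp w'‖ := by
    rw [hn0]
    calc 1 / R = Real.exp (-Real.log R) := by rw [Real.exp_neg, Real.exp_log hR, one_div]
      _ ≤ _ := Real.exp_le_exp.2 hw1
  obtain ⟨P, ⟨D, c, hwt, hPdef⟩, hP⟩ := happ _ hn2 hn1
  have hne : Complex.exp w' ≠ 0 := Complex.exp_ne_zero _
  set ε : ℂ := (P - Complex.exp w') / Complex.exp w' with hε
  have hε1 : ‖ε‖ ≤ 1 / 100 := by
    rw [hε, norm_div, div_le_iff₀ (norm_pos_iff.2 hne)]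
    refine hP.trans (le_of_eq ?_)
    ring
  have hPe : P = Complex.exp w' * (1 + ε) := by
    rw [hε]; field_simp; ring
  have h1ε : 1 + ε ≠ 0 := by
    intro h
    have : ε = -1 := by linear_combination h
    rw [this, norm_neg, norm_one] at hε1
    norm_num at hε1
  have hlog := Complex.norm_log_one_add_half_le_self (z := ε) (by linarith)
  have hlog' : ‖Complex.log (1 + ε)‖ ≤ 3 / 200 := by linarith
  refine ⟨w' + Complex.log (1 + ε), ⟨?_, ?_, D, c, hwt, ?_⟩, ?_⟩
  · have := Complex.abs_im_le_norm (Complex.log (1 + ε))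
    have h2 := abs_le.1 (this.trans hlog')
    rw [Complex.add_im]
    have : w'.im = y := rfl
    rw [this]; linarith [h2.1]
  · have := Complex.abs_im_le_norm (Complex.log (1 + ε))
    have h2 := abs_le.1 (this.trans hlog')
    rw [Complex.add_im]
    have : w'.im = y := rfl
    rw [this]; linarith [h2.2]
  · rw [Complex.exp_add, Complex.exp_log h1ε, ← hPe]; exact hPdef
  · have e1 : w - (w' + Complex.log (1 + ε)) = (w - w') - Complex.log (1 + ε) := by ring
    have e2 : w - w' = ((w.im - y : ℝ) : ℂ) * Complex.I := by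
      apply Complex.ext
      · simp [hw']
      · simp [hw']
    have e3 : ‖w - w'‖ ≤ 1 / 20 := by
      rw [e2, norm_mul, Complex.norm_I, mul_one, Complex.norm_real]
      exact hy3
    rw [e1]
    calc _ ≤ ‖w - w'‖ + ‖Complex.log (1 + ε)‖ := norm_sub_le _ _
      _ ≤ 1 / 20 + 3 / 200 := add_le_add e3 hlog'
      _ ≤ 1 / 10 := by norm_num

end Pool.Agent.H777_DPV
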