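import Pool.Agent.H777_DPV.S

open Finset Filter

namespace Pool.Agent.H777_DPV

lemma irr_ne (θ : ℝ) (hθ : Irrational (θ / (2 * Real.pi))) (q : ℕ) (hq : 1 ≤ q) :
    Complex.exp (Complex.I * θ) ^ q ≠ 1 := by
  intro h
  rw [← Complex.exp_nat_mul] at h
  obtain ⟨n, hn⟩ := Complex.exp_eq_one_iff.1 h
  have h1 : (q : ℝ) * θ = n * (2 * Real.pi) := by
    have := congrArg Complex.im hn
    simpa using this
  apply hθ
  have hq0 : (q : ℝ) ≠ 0 := by
    have : (0 : ℝ) < q := by exact_mod_cast hq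
    exact this.ne'
  have hpi := Real.pi_ne_zero
  refine ⟨(n : ℚ) / q, ?_⟩
  push_cast
  rw [div_eq_div_iff hq0 (by positivity)]
  linarith

lemma im_ne' (z : ℂ) (hz : ‖z‖ = 1) (h1 : z ^ 2 ≠ 1) : 0 < |z.im| := by
  rw [abs_pos]
  intro h0
  apply h1
  have h3 : z = (z.re : ℂ) := by
    apply Complex.ext
    · simp
    · simp [h0]
  have h4 : z.re ^ 2 = 1 := by
    have := Complex.sq_norm z
    rw [hz, Complex.normSq_apply, h0] at this
    nlinarith
  rw [h3, ← Complex.ofReal_pow, h4, Complex.ofReal_one]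

/-- At scale `n`, the weight-`n` polynomials take values of absolute value about `exp (-t)` for
every natural number `t ≤ c n`, up to the factor `exp K`. -/
def Scales (c K θ : ℝ) (n : ℕ) : Prop :=
  ∀ t : ℕ, (t : ℝ) ≤ c * n → ∃ D : ℕ, ∃ a : ℕ → ℤ, ∑ j ∈ range (D + 1), (1 + |a j|) ≤ (n : ℤ) ∧
    Real.exp (-t - K) ≤ ‖∑ j ∈ range (D + 1), (a j : ℂ) * Complex.exp (Complex.I * θ) ^ j‖ ∧
    ‖∑ j ∈ range (D + 1), (a j : ℂ) * Complex.exp (Complex.I * θ) ^ j‖ ≤ Real.exp (-t)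

lemma crit_mp (θ : ℝ) (h : ∃ c : ℝ, 0 < c ∧ ∀ᶠ n : ℕ in atTop,
      ((Real.exp (c * n) : ℝ) : EReal) ≤ RDPV n θ) :
    ∃ c K : ℝ, 0 < c ∧ 0 < K ∧ ∀ᶠ n : ℕ in atTop, Scales c K θ n := by
  obtain ⟨c, hc, h⟩ := h
  refine ⟨c / 2, 1, by positivity, one_pos, ?_⟩
  have hbig : ∀ᶠ n : ℕ in atTop, (1 : ℝ) ≤ c * n :=
    (tendsto_natCast_atTop_atTop.const_mul_atTop hc).eventually_ge_atTop 1
  filter_upwards [h, hbig] with n hn hn1
  intro t ht
  rw [RDPV_eq, le_RDz_iff] at hn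
  obtain ⟨q, hq1, hq2⟩ := exists_rat_btwn
    (show Real.exp (t + 1 / 10) < Real.exp (c * n) from Real.exp_lt_exp.2 (by linarith))
  have hq0 : (0 : ℝ) < q := (Real.exp_pos _).trans hq1
  have hd := hn q (by exact_mod_cast hq0) hq2
  have hlq : (t : ℝ) + 1 / 10 ≤ Real.log q := by
    rw [← Real.log_exp ((t : ℝ) + 1 / 10)]
    exact Real.log_le_log (Real.exp_pos _) hq1.le
  have hpi := Real.pi_gt_three
  have ht0 : (0 : ℝ) ≤ t := Nat.cast_nonneg t
  obtain ⟨s, ⟨_, _, D, a, ha, hs⟩, hws⟩ := hd (⟨-t - 1 / 10, 1⟩ : ℂ)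
    (show -Real.log q ≤ -(t : ℝ) - 1 / 10 by linarith)
    (show -(t : ℝ) - 1 / 10 ≤ 0 by linarith)
    (show (0 : ℝ) ≤ 1 by norm_num)
    (show (1 : ℝ) ≤ 2 * Real.pi by linarith)
  have hre := abs_le.1 ((Complex.abs_re_le_norm _).trans hws)
  rw [Complex.sub_re] at hre
  have hre' : (⟨-t - 1 / 10, 1⟩ : ℂ).re = -(t : ℝ) - 1 / 10 := rfl
  rw [hre'] at hre
  refine ⟨D, a, ha, ?_, ?_⟩
  · rw [← hs, Complex.norm_exp]
    exact Real.exp_le_exp.2 (by linarith [hre.2])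
  · rw [← hs, Complex.norm_exp]
    exact Real.exp_le_exp.2 (by linarith [hre.1])

lemma crit_mpr (θ : ℝ) (hθ : Irrational (θ / (2 * Real.pi)))
    (h : ∃ c K : ℝ, 0 < c ∧ 0 < K ∧ ∀ᶠ n : ℕ in atTop, Scales c K θ n) :
    ∃ c : ℝ, 0 < c ∧ ∀ᶠ n : ℕ in atTop, ((Real.exp (c * n) : ℝ) : EReal) ≤ RDPV n θ := by
  obtain ⟨c, K, hc, hK, h⟩ := h
  have hz1 : ‖Complex.exp (Complex.I * θ)‖ = 1 := Complex.norm_exp_I_mul_ofReal θ
  have hne := irr_ne θ hθ
  have him := im_ne' _ hz1 (hne 2 (by norm_num))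
  obtain ⟨i, j, W, hij, hQ⟩ := approx_Q _ hz1 him hne (Real.exp (K + 1))
  set L : ℕ := 4 * (W + 1) * (j + 2) with hL
  have hLpos : 0 < L := by positivity
  have hLR : (0 : ℝ) < L := by exact_mod_cast hLpos
  refine ⟨c / (4 * L), by positivity, ?_⟩
  have hdiv : Tendsto (fun n : ℕ => n / L) atTop atTop := Nat.tendsto_div_const_atTop hLpos.ne'
  have h' := hdiv.eventually h
  have hbig : ∀ᶠ n : ℕ in atTop, (2 * (1 + c) * L / c : ℝ) ≤ n :=
    tendsto_natCast_atTop_atTop.eventually_ge_atTop _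
  filter_upwards [h', hbig, eventually_ge_atTop L] with n hn hn1 hn2
  have hn1' : 1 ≤ n / L := (Nat.one_le_div_iff hLpos).2 hn2
  have hmul : L * (n / L) ≤ n := Nat.mul_div_le n L
  have hlt : n < L * (n / L) + L := Nat.lt_mul_div_succ n hLpos |>.trans_le (by rw [mul_add, mul_one])
  have hcn : c / (4 * L) * n + 1 ≤ c * ((n / L : ℕ) : ℝ) := by
    have h1 : (n : ℝ) < L * ((n / L : ℕ) : ℝ) + L := by exact_mod_cast hlt
    have h2 : (n : ℝ) / L < ((n / L : ℕ) : ℝ) + 1 := by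
      rw [div_lt_iff₀ hLR]; linarith
    have h3 : 2 * (1 + c) ≤ c * ((n : ℝ) / L) := by
      rw [div_le_iff₀ hc] at hn1
      have : c * ((n : ℝ) / L) = (n * c) / L := by ring
      rw [this, le_div_iff₀ hLR]
      exact hn1
    have h4 : c / (4 * L) * n = c * ((n : ℝ) / L) / 4 := by
      field_simp
    rw [h4]
    nlinarith
  apply le_sSup
  refine ⟨Real.exp (c / (4 * L) * n), ⟨Real.exp_pos _, ?_⟩, rfl⟩
  apply dpv_of_rel _ _ _ (Real.exp_pos _)
  intro w0 hw1 hw2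
  have hw0 : 0 < ‖w0‖ := lt_of_lt_of_le (by positivity) hw1
  have hτ0 : 0 ≤ -Real.log ‖w0‖ := by
    have := Real.log_nonpos hw0.le hw2
    linarith
  have hτ1 : -Real.log ‖w0‖ ≤ c / (4 * L) * n := by
    have := Real.log_le_log (by positivity) hw1
    rw [one_div, Real.log_inv, Real.log_exp] at this
    linarith
  have ht1 := Nat.le_ceil (-Real.log ‖w0‖)
  have ht2 := Nat.ceil_lt_add_one hτ0
  obtain ⟨D, a, ha, hP1, hP2⟩ := hn ⌈-Real.log ‖w0‖⌉₊ (by linarith)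
  set t := ⌈-Real.log ‖w0‖⌉₊ with ht
  set z := Complex.exp (Complex.I * θ) with hz
  set P := ∑ j ∈ range (D + 1), (a j : ℂ) * z ^ j with hP
  have hPV : P ∈ V (n / L) z := ⟨D, a, ha, rfl⟩
  have hPpos : 0 < ‖P‖ := lt_of_lt_of_le (Real.exp_pos _) hP1
  have hPne : P ≠ 0 := norm_pos_iff.1 hPpos
  have hw0e : ‖w0‖ = Real.exp (Real.log ‖w0‖) := (Real.exp_log hw0).symm
  obtain ⟨x, y, hx, hy, hxy⟩ := hQ (w0 / P) (by
    rw [norm_div, div_le_iff₀ hPpos]
    calc ‖w0‖ = Real.exp (Real.log ‖w0‖) := hw0e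
      _ ≤ Real.exp (K + 1) * Real.exp (-t - K) := by
          rw [← Real.exp_add]
          exact Real.exp_le_exp.2 (by linarith)
      _ ≤ _ := mul_le_mul_of_nonneg_left hP1 (Real.exp_pos _).le)
  refine ⟨((x : ℂ) + y * z) * (z ^ j - z ^ i) * P, ?_, ?_⟩
  · have k1 : z ^ j * P ∈ V (n / L + j + 1) z := V_mono (by omega) (V_zpow hPV j)
    have k2 : z ^ (j + 1) * P ∈ V (n / L + j + 1) z := V_mono (by omega) (V_zpow hPV (j + 1))
    have k3 : z ^ i * P ∈ V (n / L + j + 1) z := V_mono (by omega) (V_zpow hPV i)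
    have k4 : z ^ (i + 1) * P ∈ V (n / L + j + 1) z := V_mono (by omega) (V_zpow hPV (i + 1))
    have m1 := V_mono (Nat.mul_le_mul_right (n / L + j + 1) (Nat.succ_le_succ hx)) (V_smul k1 x)
    have m2 := V_mono (Nat.mul_le_mul_right (n / L + j + 1) (Nat.succ_le_succ hy)) (V_smul k2 y)
    have hx' : (-x).natAbs ≤ W := by rw [Int.natAbs_neg]; exact hx
    have hy' : (-y).natAbs ≤ W := by rw [Int.natAbs_neg]; exact hy
    have m3 := V_mono (Nat.mul_le_mul_right (n / L + j + 1) (Nat.succ_le_succ hx'))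
      (V_smul k3 (-x))
    have m4 := V_mono (Nat.mul_le_mul_right (n / L + j + 1) (Nat.succ_le_succ hy'))
      (V_smul k4 (-y))
    have m5 := V_add (V_add m1 m2) (V_add m3 m4)
    have e1 : ((x : ℂ) + y * z) * (z ^ j - z ^ i) * P
        = ((x : ℂ) * (z ^ j * P) + (y : ℂ) * (z ^ (j + 1) * P))
          + (((-x : ℤ) : ℂ) * (z ^ i * P) + ((-y : ℤ) : ℂ) * (z ^ (i + 1) * P)) := by
      push_cast
      ring
    rw [e1]
    refine V_mono ?_ m5
    have hn1'' : j + 1 ≤ (j + 1) * (n / L) := Nat.le_mul_of_pos_right _ hn1'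
    calc (W.succ * (n / L + j + 1) + W.succ * (n / L + j + 1))
          + (W.succ * (n / L + j + 1) + W.succ * (n / L + j + 1))
        = 4 * (W + 1) * (n / L + (j + 1)) := by rw [Nat.succ_eq_add_one]; ring
      _ ≤ 4 * (W + 1) * (n / L + (j + 1) * (n / L)) :=
          Nat.mul_le_mul_left _ (Nat.add_le_add_left hn1'' _)
      _ = L * (n / L) := by rw [hL]; ring
      _ ≤ n := hmul
  · have e1 : ((x : ℂ) + y * z) * (z ^ j - z ^ i) * P - w0
        = (((x : ℂ) + y * z) * (z ^ j - z ^ i) - w0 / P) * P := by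
      field_simp
    rw [e1, norm_mul]
    have hPle : ‖P‖ ≤ ‖w0‖ := by
      rw [hw0e]
      exact hP2.trans (Real.exp_le_exp.2 (by linarith))
    calc _ ≤ 1 / 100 * ‖w0‖ := mul_le_mul hxy hPle (norm_nonneg _) (by norm_num)
      _ = _ := by ring

/-- The scale criterion. -/
theorem crit (θ : ℝ) (hθ : Irrational (θ / (2 * Real.pi))) :
    (∃ c : ℝ, 0 < c ∧ ∀ᶠ n : ℕ in atTop, ((Real.exp (c * n) : ℝ) : EReal) ≤ RDPV n θ) ↔
    (∃ c K : ℝ, 0 < c ∧ 0 < K ∧ ∀ᶠ n : ℕ in atTop, Scales c K θ n) :=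
  ⟨crit_mp θ, crit_mpr θ hθ⟩

lemma ae_irr : ∀ᵐ θ : ℝ, Irrational (θ / (2 * Real.pi)) := by
  have hc : (Set.range (fun q : ℚ => (q : ℝ) * (2 * Real.pi))).Countable := Set.countable_range _
  filter_upwards [hc.ae_notMem MeasureTheory.volume] with θ hθ
  rintro ⟨q, hq⟩
  apply hθ
  refine ⟨q, ?_⟩
  have := Real.pi_ne_zero
  simp only
  rw [hq]
  field_simp

/-- The question has a positive answer as soon as the scale condition holds for a set of angles
that is not null. -/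
theorem crit_ae :
    (∀ᵐ θ ∂(MeasureTheory.volume.restrict (Set.Ico 0 (2 * Real.pi))), ∃ c : ℝ, 0 < c ∧
      ∀ᶠ n : ℕ in atTop, ((Real.exp (c * n) : ℝ) : EReal) ≤ RDPV n θ) ↔
    ¬ (∀ᵐ θ ∂(MeasureTheory.volume.restrict (Set.Ico 0 (2 * Real.pi))),
      ¬ ∃ c K : ℝ, 0 < c ∧ 0 < K ∧ ∀ᶠ n : ℕ in atTop, Scales c K θ n) := by
  have hirr : ∀ᵐ θ ∂(MeasureTheory.volume.restrict (Set.Ico (0 : ℝ) (2 * Real.pi))),
      Irrational (θ / (2 * Real.pi)) := MeasureTheory.ae_restrict_of_ae ae_irr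
  constructor
  · intro h1 h2
    have h3 : ∀ᵐ θ ∂(MeasureTheory.volume.restrict (Set.Ico (0 : ℝ) (2 * Real.pi))), False := by
      filter_upwards [h1, h2] with θ a1 a2
      exact a2 (crit_mp θ a1)
    rw [MeasureTheory.ae_iff] at h3
    simp only [not_false_eq_true, Set.ofPred_true, MeasureTheory.Measure.restrict_apply_univ,
      Real.volume_Ico, sub_zero, ENNReal.ofReal_eq_zero] at h3
    have := Real.pi_pos
    linarith
  · intro h1
    rcases zero_one Real.exp Real.exp_monotone with h2 | h2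
    · exact h2
    · exfalso
      apply h1
      filter_upwards [h2, hirr] with θ a1 a2 a3
      exact a1 (crit_mpr θ a2 a3)

end Pool.Agent.H777_DPV
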