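import Pool.Agent.H777_DPV.H

open Finset Filter MeasureTheory

namespace Pool.Agent.H777_DPV

lemma arc_measure (α : ℂ) (r : ℝ) (hr : 0 ≤ r) :
    volume {θ : ℝ | θ ∈ Set.Ico 0 (2 * Real.pi) ∧ ‖Complex.exp (Complex.I * θ) - α‖ ≤ r}
      ≤ ENNReal.ofReal (20 * r) := by
  have hpi := Real.pi_pos
  by_cases hne : ∃ θ0 : ℝ, θ0 ∈ Set.Ico 0 (2 * Real.pi) ∧
      ‖Complex.exp (Complex.I * θ0) - α‖ ≤ r
  · obtain ⟨θ0, h0, h0r⟩ := hne
    have hsub : {θ : ℝ | θ ∈ Set.Ico 0 (2 * Real.pi) ∧ ‖Complex.exp (Complex.I * θ) - α‖ ≤ r}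
        ⊆ Metric.closedBall θ0 (Real.pi * r) ∪ (Metric.closedBall (θ0 + 2 * Real.pi) (Real.pi * r)
          ∪ Metric.closedBall (θ0 - 2 * Real.pi) (Real.pi * r)) := by
      rintro θ ⟨h1, h1r⟩
      set x : ℝ := (θ - θ0) / (2 * Real.pi) with hx
      have hx1 : x < 1 := by
        rw [hx, div_lt_one (by positivity)]; linarith [h1.2, h0.1]
      have hx2 : -1 < x := by
        rw [hx, lt_div_iff₀ (by positivity)]; linarith [h1.1, h0.2]
      have h2 : ‖Complex.exp (Complex.I * θ) - Complex.exp (Complex.I * θ0)‖ ≤ 2 * r := by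
        have := norm_sub_le (Complex.exp (Complex.I * θ) - α) (Complex.exp (Complex.I * θ0) - α)
        rw [sub_sub_sub_cancel_right] at this
        linarith
      have h3 : Complex.exp (Complex.I * θ) - Complex.exp (Complex.I * θ0)
          = Complex.exp (Complex.I * θ0) *
            (Complex.exp (Complex.I * ((θ - θ0 : ℝ) : ℂ)) - 1) := by
        rw [mul_sub, ← Complex.exp_add, mul_one]
        congr 2
        push_cast
        ring
      rw [h3, norm_mul, Complex.norm_exp_I_mul_ofReal, one_mul,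
        Complex.norm_exp_I_mul_ofReal_sub_one, norm_mul, Real.norm_eq_abs, Real.norm_eq_abs,
        abs_of_pos (by norm_num : (0 : ℝ) < 2)] at h2
      have h4 : (θ - θ0) / 2 = Real.pi * x := by rw [hx]; field_simp
      rw [h4] at h2
      have h5 := sin_lower x
      have h6 : |x - round x| ≤ r / 2 := by linarith
      have h7 : |θ - θ0 - 2 * Real.pi * (round x : ℤ)| ≤ Real.pi * r := by
        have e : θ - θ0 - 2 * Real.pi * (round x : ℤ) = 2 * Real.pi * (x - round x) := by
          rw [hx]; field_simp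
        rw [e, abs_mul, abs_of_pos (by positivity : (0 : ℝ) < 2 * Real.pi)]
        calc 2 * Real.pi * |x - round x| ≤ 2 * Real.pi * (r / 2) :=
              mul_le_mul_of_nonneg_left h6 (by positivity)
          _ = _ := by ring
      have h8 := abs_sub_round x
      have h9 := abs_le.1 h8
      have hk1 : (round x : ℤ) ≤ 1 := by
        have : ((round x : ℤ) : ℝ) < 2 := by linarith [h9.1]
        have : (round x : ℤ) < 2 := by exact_mod_cast this
        omega
      have hk2 : -1 ≤ (round x : ℤ) := by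
        have : (-2 : ℝ) < ((round x : ℤ) : ℝ) := by linarith [h9.2]
        have : -2 < (round x : ℤ) := by exact_mod_cast this
        omega
      have hk : (round x : ℤ) = 0 ∨ (round x : ℤ) = 1 ∨ (round x : ℤ) = -1 := by omega
      rcases hk with hk | hk | hk
      · left
        rw [hk] at h7
        rw [Metric.mem_closedBall, Real.dist_eq]
        simpa using h7
      · right; left
        rw [hk] at h7
        rw [Metric.mem_closedBall, Real.dist_eq]
        have e : θ - (θ0 + 2 * Real.pi) = θ - θ0 - 2 * Real.pi * ((1 : ℤ) : ℝ) := by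
          push_cast; ring
        rw [e]; exact h7
      · right; right
        rw [hk] at h7
        rw [Metric.mem_closedBall, Real.dist_eq]
        have e : θ - (θ0 - 2 * Real.pi) = θ - θ0 - 2 * Real.pi * ((-1 : ℤ) : ℝ) := by
          push_cast; ring
        rw [e]; exact h7
    calc _ ≤ volume (Metric.closedBall θ0 (Real.pi * r) ∪
          (Metric.closedBall (θ0 + 2 * Real.pi) (Real.pi * r)
          ∪ Metric.closedBall (θ0 - 2 * Real.pi) (Real.pi * r))) := measure_mono hsub
      _ ≤ ENNReal.ofReal (2 * (Real.pi * r)) + (ENNReal.ofReal (2 * (Real.pi * r))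
          + ENNReal.ofReal (2 * (Real.pi * r))) := by
          refine (measure_union_le _ _).trans (add_le_add ?_ ((measure_union_le _ _).trans ?_))
          · rw [Real.volume_closedBall]
          · rw [Real.volume_closedBall, Real.volume_closedBall]
      _ = ENNReal.ofReal (6 * Real.pi * r) := by
          rw [← ENNReal.ofReal_add (by positivity) (by positivity),
            ← ENNReal.ofReal_add (by positivity) (by positivity)]
          congr 1; ring
      _ ≤ _ := by
          apply ENNReal.ofReal_le_ofReal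
          apply mul_le_mul_of_nonneg_right _ hr
          have := Real.pi_lt_d2
          linarith
  · have : {θ : ℝ | θ ∈ Set.Ico 0 (2 * Real.pi) ∧ ‖Complex.exp (Complex.I * θ) - α‖ ≤ r} = ∅ := by
      ext θ
      simp only [Set.mem_ofPred_eq, Set.mem_empty_iff_false, iff_false]
      intro h
      exact hne ⟨θ, h⟩
    rw [this, measure_empty]
    exact zero_le

open Polynomial in
lemma poly_measure (D : ℕ) (c : Fin (D + 1) → ℤ) (ρ : ℝ) (h0 : 0 < ρ) (h1 : ρ ≤ 1) :
    volume {θ : ℝ | θ ∈ Set.Ico 0 (2 * Real.pi) ∧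
      ∑ j, (c j : ℂ) * Complex.exp (Complex.I * θ) ^ (j : ℕ) ≠ 0 ∧
      ‖∑ j, (c j : ℂ) * Complex.exp (Complex.I * θ) ^ (j : ℕ)‖ < ρ ^ D}
      ≤ D * ENNReal.ofReal (20 * ρ) := by
  classical
  set P : ℤ[X] := ∑ j : Fin (D + 1), monomial (j : ℕ) (c j) with hP
  set PC : ℂ[X] := P.map (Int.castRingHom ℂ) with hPC
  have heval : ∀ w : ℂ, eval w PC = ∑ j : Fin (D + 1), (c j : ℂ) * w ^ (j : ℕ) := by
    intro w
    rw [hPC, hP, Polynomial.map_sum, eval_finsetSum]
    apply Finset.sum_congr rfl
    intro j _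
    rw [Polynomial.map_monomial, eval_monomial]
    simp
  have hdeg : P.natDegree ≤ D := by
    rw [hP]
    apply natDegree_sum_le_of_forall_le
    intro j _
    refine (natDegree_monomial_le _).trans ?_
    omega
  by_cases hP0 : P = 0
  · have : {θ : ℝ | θ ∈ Set.Ico 0 (2 * Real.pi) ∧
      ∑ j, (c j : ℂ) * Complex.exp (Complex.I * θ) ^ (j : ℕ) ≠ 0 ∧
      ‖∑ j, (c j : ℂ) * Complex.exp (Complex.I * θ) ^ (j : ℕ)‖ < ρ ^ D} = ∅ := by
      ext θ
      simp only [Set.mem_ofPred_eq, Set.mem_empty_iff_false, iff_false]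
      rintro ⟨_, h, _⟩
      apply h
      rw [← heval, hPC, hP0]
      simp
    rw [this, measure_empty]
    exact zero_le
  · have hinj : Function.Injective (Int.castRingHom ℂ) := Int.cast_injective
    have hlc : 1 ≤ ‖PC.leadingCoeff‖ := by
      rw [hPC, leadingCoeff_map_of_injective hinj]
      have : P.leadingCoeff ≠ 0 := leadingCoeff_ne_zero.2 hP0
      have h2 : (1 : ℝ) ≤ |(P.leadingCoeff : ℝ)| := by exact_mod_cast Int.one_le_abs this
      simpa using h2
    have hdegC : PC.natDegree ≤ D := by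
      rw [hPC, natDegree_map_eq_of_injective hinj]; exact hdeg
    have hfac := (IsAlgClosed.splits PC).eq_prod_roots
    have hcard : Multiset.card PC.roots ≤ D := (card_roots' PC).trans hdegC
    have hsub : {θ : ℝ | θ ∈ Set.Ico 0 (2 * Real.pi) ∧
        ∑ j, (c j : ℂ) * Complex.exp (Complex.I * θ) ^ (j : ℕ) ≠ 0 ∧
        ‖∑ j, (c j : ℂ) * Complex.exp (Complex.I * θ) ^ (j : ℕ)‖ < ρ ^ D}
        ⊆ ⋃ α ∈ PC.roots.toFinset,
          {θ : ℝ | θ ∈ Set.Ico 0 (2 * Real.pi) ∧ ‖Complex.exp (Complex.I * θ) - α‖ ≤ ρ} := by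
      rintro θ ⟨hθ, _, hlt⟩
      by_contra hcon
      simp only [Set.mem_iUnion, Set.mem_ofPred_eq, Multiset.mem_toFinset, not_exists, not_and,
        not_le] at hcon
      have hcon' : ∀ α ∈ PC.roots, ρ ≤ ‖Complex.exp (Complex.I * θ) - α‖ := fun α hα =>
        (hcon α hα hθ).le
      rw [← heval] at hlt
      have key : ∀ s : Multiset ℂ, (∀ α ∈ s, ρ ≤ ‖Complex.exp (Complex.I * θ) - α‖) →
          ρ ^ (Multiset.card s) ≤
            ‖eval (Complex.exp (Complex.I * θ)) (s.map (fun x => X - C x)).prod‖ := by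
        intro s
        induction s using Multiset.induction_on with
        | empty => intro _; simp
        | cons a s ih =>
          intro h
          rw [Multiset.map_cons, Multiset.prod_cons, Multiset.card_cons, pow_succ', eval_mul,
            norm_mul, eval_sub, eval_X, eval_C]
          exact mul_le_mul (h a (Multiset.mem_cons_self _ _))
            (ih (fun α hα => h α (Multiset.mem_cons_of_mem hα))) (by positivity) (norm_nonneg _)
      have h2 := key PC.roots hcon'
      have h3 : ρ ^ D ≤ ρ ^ (Multiset.card PC.roots) := pow_le_pow_of_le_one h0.le h1 hcard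
      have h4 : ‖eval (Complex.exp (Complex.I * θ)) PC‖
          = ‖PC.leadingCoeff‖ * ‖eval (Complex.exp (Complex.I * θ))
            (PC.roots.map (fun x => X - C x)).prod‖ := by
        conv_lhs => rw [hfac]
        rw [eval_mul, eval_C, norm_mul]
      rw [h4] at hlt
      have h5 := norm_nonneg (eval (Complex.exp (Complex.I * θ))
            (PC.roots.map (fun x => X - C x)).prod)
      nlinarith
    calc _ ≤ volume (⋃ α ∈ PC.roots.toFinset,
          {θ : ℝ | θ ∈ Set.Ico 0 (2 * Real.pi) ∧ ‖Complex.exp (Complex.I * θ) - α‖ ≤ ρ}) :=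
          measure_mono hsub
      _ ≤ ∑ α ∈ PC.roots.toFinset, volume
          {θ : ℝ | θ ∈ Set.Ico 0 (2 * Real.pi) ∧ ‖Complex.exp (Complex.I * θ) - α‖ ≤ ρ} :=
          measure_biUnion_finset_le _ _
      _ ≤ ∑ α ∈ PC.roots.toFinset, ENNReal.ofReal (20 * ρ) :=
          Finset.sum_le_sum (fun α _ => arc_measure α ρ h0.le)
      _ = PC.roots.toFinset.card * ENNReal.ofReal (20 * ρ) := by
          rw [Finset.sum_const, nsmul_eq_mul]
      _ ≤ D * ENNReal.ofReal (20 * ρ) := by
          gcongr
          exact (Multiset.toFinset_card_le _).trans hcard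

end Pool.Agent.H777_DPV
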