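import Pool.Agent.H777_DPV.U

open Finset Filter MeasureTheory

namespace Pool.Agent.H777_DPV

/-- The coefficient vectors of degree bound `D` and weight at most `n`. -/
noncomputable def wts (n D : ℕ) : Finset (Fin (D + 1) → ℤ) :=
  (Fintype.piFinset (fun _ : Fin (D + 1) => Finset.Icc (-(n : ℤ)) n)).filter
    (fun c => ∑ j, (1 + |c j|) ≤ (n : ℤ))

lemma geo_sum (n : ℕ) :
    ∑ a ∈ Finset.Icc (-(n : ℤ)) n, (1 / 4 : ℝ) ^ (1 + a.natAbs)
      = 5 / 12 - 1 / 6 * (1 / 4) ^ n := by
  induction n with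
  | zero => norm_num
  | succ n ih =>
    have e : Finset.Icc (-((n + 1 : ℕ) : ℤ)) ((n + 1 : ℕ) : ℤ)
        = insert ((n + 1 : ℕ) : ℤ) (insert (-((n + 1 : ℕ) : ℤ)) (Finset.Icc (-(n : ℤ)) n)) := by
      ext a
      simp only [Finset.mem_Icc, Finset.mem_insert]
      push_cast
      omega
    rw [e, Finset.sum_insert, Finset.sum_insert, ih]
    · have e1 : (((n + 1 : ℕ) : ℤ)).natAbs = n + 1 := Int.natAbs_natCast _
      have e2 : (-((n + 1 : ℕ) : ℤ)).natAbs = n + 1 := by rw [Int.natAbs_neg, Int.natAbs_natCast]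
      rw [e1, e2]
      ring
    · simp only [Finset.mem_Icc]
      push_cast
      omega
    · simp only [Finset.mem_Icc, Finset.mem_insert]
      push_cast
      omega

lemma wts_card (n D : ℕ) : (wts n D).card ≤ 4 ^ n := by
  classical
  have h1 : ((wts n D).card : ℝ) ≤ 4 ^ n := by
    calc ((wts n D).card : ℝ) = ∑ c ∈ wts n D, (1 : ℝ) := by simp
      _ ≤ ∑ c ∈ wts n D, 4 ^ n * ∏ j, (1 / 4 : ℝ) ^ (1 + (c j).natAbs) := by
          apply Finset.sum_le_sum
          intro c hc
          have hc2 := (Finset.mem_filter.1 hc).2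
          have hc3 : ∑ j, (1 + (c j).natAbs) ≤ n := by
            have : ((∑ j, (1 + (c j).natAbs) : ℕ) : ℤ) ≤ n := by
              push_cast
              exact hc2
            exact_mod_cast this
          rw [Finset.prod_pow_eq_pow_sum]
          have h2 : (1 / 4 : ℝ) ^ n ≤ (1 / 4 : ℝ) ^ (∑ j, (1 + (c j).natAbs)) :=
            pow_le_pow_of_le_one (by norm_num) (by norm_num) hc3
          calc (1 : ℝ) = 4 ^ n * (1 / 4) ^ n := by rw [← mul_pow]; norm_num
            _ ≤ _ := mul_le_mul_of_nonneg_left h2 (by positivity)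
      _ ≤ ∑ c ∈ Fintype.piFinset (fun _ : Fin (D + 1) => Finset.Icc (-(n : ℤ)) n),
            4 ^ n * ∏ j, (1 / 4 : ℝ) ^ (1 + (c j).natAbs) := by
          apply Finset.sum_le_sum_of_subset_of_nonneg (Finset.filter_subset _ _)
          intro c _ _
          positivity
      _ = 4 ^ n * ∏ j : Fin (D + 1), ∑ a ∈ Finset.Icc (-(n : ℤ)) n,
            (1 / 4 : ℝ) ^ (1 + a.natAbs) := by
          rw [← Finset.mul_sum,
            Finset.prod_univ_sum (fun _ : Fin (D + 1) => Finset.Icc (-(n : ℤ)) n)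
              (fun _ a => (1 / 4 : ℝ) ^ (1 + a.natAbs))]
      _ ≤ 4 ^ n * 1 := by
          apply mul_le_mul_of_nonneg_left _ (by positivity)
          apply Finset.prod_le_one
          · intro j _
            apply Finset.sum_nonneg
            intro a _
            positivity
          · intro j _
            rw [geo_sum]
            have : 0 ≤ (1 / 6 : ℝ) * (1 / 4) ^ n := by positivity
            linarith
      _ = 4 ^ n := mul_one _
  exact_mod_cast h1

/-- The exceptional angles at level `n`. -/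
def Bad (n : ℕ) : Set ℝ := ⋃ D ∈ Finset.range n, ⋃ c ∈ wts n D,
  {θ : ℝ | θ ∈ Set.Ico 0 (2 * Real.pi) ∧
      ∑ j, (c j : ℂ) * Complex.exp (Complex.I * θ) ^ (j : ℕ) ≠ 0 ∧
      ‖∑ j, (c j : ℂ) * Complex.exp (Complex.I * θ) ^ (j : ℕ)‖ < (((1 : ℝ) / 8) ^ n) ^ D}

lemma bad_measure (n : ℕ) : volume (Bad n) ≤ ENNReal.ofReal (20 * (n ^ 2 * (1 / 2) ^ n)) := by
  have hρ1 : ((1 : ℝ) / 8) ^ n ≤ 1 := pow_le_one₀ (by norm_num) (by norm_num)
  have hρ0 : (0 : ℝ) < ((1 : ℝ) / 8) ^ n := by positivity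
  calc volume (Bad n) ≤ ∑ D ∈ Finset.range n, volume (⋃ c ∈ wts n D,
        {θ : ℝ | θ ∈ Set.Ico 0 (2 * Real.pi) ∧
          ∑ j, (c j : ℂ) * Complex.exp (Complex.I * θ) ^ (j : ℕ) ≠ 0 ∧
          ‖∑ j, (c j : ℂ) * Complex.exp (Complex.I * θ) ^ (j : ℕ)‖ < (((1 : ℝ) / 8) ^ n) ^ D}) :=
        measure_biUnion_finset_le _ _
    _ ≤ ∑ D ∈ Finset.range n, ∑ c ∈ wts n D, (n : ENNReal) * ENNReal.ofReal (20 * (1 / 8) ^ n) := by
        apply Finset.sum_le_sum
        intro D hD
        refine (measure_biUnion_finset_le _ _).trans ?_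
        apply Finset.sum_le_sum
        intro c _
        refine (poly_measure D c _ hρ0 hρ1).trans ?_
        gcongr
        exact (Finset.mem_range.1 hD).le
    _ ≤ ∑ D ∈ Finset.range n,
          ((4 ^ n : ℕ) : ENNReal) * ((n : ENNReal) * ENNReal.ofReal (20 * (1 / 8) ^ n)) := by
        apply Finset.sum_le_sum
        intro D _
        rw [Finset.sum_const, nsmul_eq_mul]
        gcongr
        exact wts_card n D
    _ = (n : ENNReal) * (((4 ^ n : ℕ) : ENNReal) *
          ((n : ENNReal) * ENNReal.ofReal (20 * (1 / 8) ^ n))) := by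
        rw [Finset.sum_const, nsmul_eq_mul, Finset.card_range]
    _ = ENNReal.ofReal (20 * (n ^ 2 * (1 / 2) ^ n)) := by
        rw [← ENNReal.ofReal_natCast n, ← ENNReal.ofReal_natCast (4 ^ n),
          ← ENNReal.ofReal_mul (by positivity), ← ENNReal.ofReal_mul (by positivity),
          ← ENNReal.ofReal_mul (by positivity)]
        congr 1
        have e : ((1 : ℝ) / 2) ^ n = 4 ^ n * (1 / 8) ^ n := by rw [← mul_pow]; norm_num
        rw [e]
        push_cast
        ring

theorem upper : ∀ᵐ θ ∂(volume.restrict (Set.Ico 0 (2 * Real.pi))), ∀ᶠ n : ℕ in atTop,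
    RDPV n θ ≤ ((Real.exp (3 * n ^ 2) : ℝ) : EReal) := by
  have hsum : Summable (fun n : ℕ => 20 * ((n : ℝ) ^ 2 * (1 / 2) ^ n)) :=
    (summable_pow_mul_geometric_of_norm_lt_one 2 (by norm_num)).mul_left 20
  have hBC : ∀ᵐ θ : ℝ, ∀ᶠ n : ℕ in atTop, θ ∉ Bad n := by
    apply ae_eventually_notMem
    refine ne_top_of_le_ne_top hsum.tsum_ofReal_ne_top ?_
    exact ENNReal.tsum_le_tsum bad_measure
  filter_upwards [ae_restrict_of_ae hBC, ae_restrict_mem measurableSet_Ico] with θ h1 h2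
  filter_upwards [h1, eventually_ge_atTop 1] with n hn hn1
  have hn1R : (1 : ℝ) ≤ n := by exact_mod_cast hn1
  apply sSup_le
  rintro _ ⟨R, ⟨hR0, hR⟩, rfl⟩
  rcases le_or_gt R 1 with h | h
  · have : R ≤ Real.exp (3 * n ^ 2) := h.trans (Real.one_le_exp (by positivity))
    exact EReal.coe_le_coe_iff.2 this
  · have hlog : 0 ≤ Real.log R := Real.log_nonneg h.le
    obtain ⟨s, ⟨_, _, D, c, hc, hs⟩, hws⟩ := hR (⟨-Real.log R, 0⟩ : ℂ) le_rfl
      (show -Real.log R ≤ 0 by linarith) le_rfl (by positivity)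
    have hwt : ∑ j ∈ range (D + 1), (1 + |c j|) = (D + 1) + ∑ j ∈ range (D + 1), |c j| := by
      rw [Finset.sum_add_distrib]; simp
    have hnn : 0 ≤ ∑ j ∈ range (D + 1), |c j| := Finset.sum_nonneg (fun _ _ => abs_nonneg _)
    have hD : D + 1 ≤ n := by
      rw [hwt] at hc
      have : ((D + 1 : ℕ) : ℤ) ≤ n := by push_cast; linarith
      exact_mod_cast this
    have hcj : ∀ j ∈ range (D + 1), |c j| ≤ n := by
      intro j hj
      have h1 := Finset.single_le_sum (f := fun j => |c j|) (fun i _ => abs_nonneg _) hj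
      rw [hwt] at hc
      have h2 : (0 : ℤ) ≤ (D : ℤ) := by positivity
      linarith
    have hmem : (fun j : Fin (D + 1) => c j) ∈ wts n D := by
      rw [wts, Finset.mem_filter]
      refine ⟨?_, ?_⟩
      · rw [Fintype.mem_piFinset]
        intro j
        exact Finset.mem_Icc.2 (abs_le.1 (hcj j (Finset.mem_range.2 j.is_lt)))
      · rw [Fin.sum_univ_eq_sum_range (fun j => 1 + |c j|) (D + 1)]
        exact hc
    have hval : ∑ j : Fin (D + 1), (c j : ℂ) * Complex.exp (Complex.I * θ) ^ (j : ℕ)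
        = Complex.exp s := by
      rw [hs, Fin.sum_univ_eq_sum_range
        (fun j => (c j : ℂ) * Complex.exp (Complex.I * θ) ^ j) (D + 1)]
    have hge : (((1 : ℝ) / 8) ^ n) ^ D ≤ ‖Complex.exp s‖ := by
      by_contra hcon
      push Not at hcon
      apply hn
      simp only [Bad, Set.mem_iUnion]
      refine ⟨D, Finset.mem_range.2 (by omega), fun j => c j, hmem, h2, ?_, ?_⟩
      · rw [hval]; exact Complex.exp_ne_zero _
      · rw [hval]; exact hcon
    rw [Complex.norm_exp] at hge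
    have h8 : Real.exp (-3) ≤ 1 / 8 := by
      rw [Real.exp_neg, ← one_div]
      apply one_div_le_one_div_of_le (by norm_num)
      have h2 := Real.exp_one_gt_d9
      have h3 : Real.exp 3 = Real.exp 1 ^ 3 := by rw [← Real.exp_nat_mul]; norm_num
      rw [h3]
      calc (8 : ℝ) = 2 ^ 3 := by norm_num
        _ ≤ Real.exp 1 ^ 3 := pow_le_pow_left₀ (by norm_num) (by linarith) 3
    have h9 : Real.exp (-(3 * (n : ℝ) * D)) ≤ (((1 : ℝ) / 8) ^ n) ^ D := by
      have e : Real.exp (-(3 * (n : ℝ) * D)) = (Real.exp (-3) ^ n) ^ D := by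
        rw [← Real.exp_nat_mul, ← Real.exp_nat_mul]
        congr 1
        ring
      rw [e]
      exact pow_le_pow_left₀ (by positivity) (pow_le_pow_left₀ (by positivity) h8 n) D
    have h10 := Real.exp_le_exp.1 (h9.trans hge)
    have hre := abs_le.1 ((Complex.abs_re_le_norm _).trans hws)
    rw [Complex.sub_re] at hre
    have hre' : (⟨-Real.log R, 0⟩ : ℂ).re = -Real.log R := rfl
    rw [hre'] at hre
    have hDR : (D : ℝ) + 1 ≤ n := by exact_mod_cast hD
    have h11 : Real.log R ≤ 3 * (n : ℝ) * D + 1 / 10 := by linarith [hre.1, hre.2]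
    have h12 : Real.log R ≤ 3 * (n : ℝ) ^ 2 := by nlinarith
    have h13 : R ≤ Real.exp (3 * n ^ 2) := by
      rw [← Real.exp_log hR0]
      exact Real.exp_le_exp.2 h12
    exact EReal.coe_le_coe_iff.2 h13

end Pool.Agent.H777_DPV
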